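import Pool.Agent.Lib.KV.SpecM

set_option autoImplicit false

open Set Filter Topology Metric

namespace KV

open KP

namespace BWcAux

/-- The choice of the radius `R`. -/
theorem exR (k : ℕ) {ρ1 R1 ρ2 C : ℝ} (h1 : 0 < ρ1) (hR1 : 0 < R1) (h2 : 0 < ρ2) (hC : 1 ≤ C) :
    ∃ R : ℝ, 0 < R ∧ R < R1 ∧ 100 * (k + 1) * (C + 1) * R ≤ min ρ1 ρ2 ∧
      400 * C * (C + 1) * R ≤ 1 := by
  have hm : 0 < min ρ1 ρ2 := lt_min h1 h2
  have ha : 0 < 100 * ((k : ℝ) + 1) * (C + 1) := by positivity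
  have hb : 0 < 400 * C * (C + 1) := by positivity
  have p1 : 0 < min ρ1 ρ2 / (100 * ((k : ℝ) + 1) * (C + 1)) := div_pos hm ha
  have p2 : 0 < 1 / (400 * C * (C + 1)) := div_pos one_pos hb
  refine ⟨min (R1 / 2) (min (min ρ1 ρ2 / (100 * ((k : ℝ) + 1) * (C + 1)))
    (1 / (400 * C * (C + 1)))), lt_min (by linarith) (lt_min p1 p2), ?_, ?_, ?_⟩
  · exact lt_of_le_of_lt (min_le_left _ _) (by linarith)
  · have h := le_trans (min_le_right (R1 / 2) _) (min_le_left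
      (min ρ1 ρ2 / (100 * ((k : ℝ) + 1) * (C + 1))) (1 / (400 * C * (C + 1))))
    calc _ ≤ 100 * ((k : ℝ) + 1) * (C + 1) * (min ρ1 ρ2 / (100 * ((k : ℝ) + 1) * (C + 1))) :=
          mul_le_mul_of_nonneg_left h ha.le
      _ = min ρ1 ρ2 := by field_simp
  · have h := le_trans (min_le_right (R1 / 2) _) (min_le_right
      (min ρ1 ρ2 / (100 * ((k : ℝ) + 1) * (C + 1))) (1 / (400 * C * (C + 1))))
    calc _ ≤ 400 * C * (C + 1) * (1 / (400 * C * (C + 1))) :=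
          mul_le_mul_of_nonneg_left h hb.le
      _ = 1 := by field_simp

theorem cptN {k : ℕ} (x w v : Ek k) : ‖cpt x (w + v) - cpt x (w + 0)‖ ≤ ‖v‖ := by
  rw [pi_norm_le_iff_of_nonneg (norm_nonneg v)]
  intro j
  have e : (cpt x (w + v) - cpt x (w + 0)) j = ((v j : ℝ) : ℂ) * Complex.I := by
    simp only [Pi.sub_apply, cpt, PiLp.add_apply, PiLp.zero_apply, Complex.ofReal_add,
      Complex.ofReal_zero]
    ring
  rw [e, norm_mul, Complex.norm_I, mul_one, Complex.norm_real]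
  exact PiLp.norm_apply_le v j

/-- The statement for a fixed width `θ`. -/
theorem step (h1 : S_Bis) (h2 : S_Tn) (h3 : S_ThP) (h4 : S_MnB) (h5 : S_MnL) (h6 : S_CovB)
    (h8 : S_Dsc) {k : ℕ} {A : Set (Cn k)} {x0 : Ek k} {φ : Ek k → Ek k}
    {y : Ek k → ℝ → Ek k} {ρ1 R1 ρ2 C R : ℝ} (hB : BW A x0 φ y ρ1 R1 ρ2 C)
    (hR : 0 < R) (hRR : R < R1) (hRs : 100 * (k + 1) * (C + 1) * R ≤ min ρ1 ρ2)
    (hR4 : 400 * C * (C + 1) * R ≤ 1) {d0 : ℝ} (hd0 : 0 < d0) (hd0R : d0 ≤ R)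
    (hd : ∀ x ∈ closedBall x0 ρ1, ∀ r ∈ Icc (R / 2) R, ∀ v : Ek k, ‖v‖ ≤ d0 →
      cpt x (φ x + y x r + v) ∈ A) {θ : ℝ} (hθ : 0 < θ) (hθ1 : θ ≤ 1) :
    ∃ M0 : Ek k, ‖M0‖ ≤ 9 * C * (C + 1) ^ 2 * R ^ 2 + 2 * C * R + R ∧
      ∀ m : Ek k, ‖m - M0‖ ≤ 49 / 1000 * (d0 / 2) → cpt x0 (φ x0 + θ • m) ∈ A := by
  have hsq : 0 < Real.sqrt θ / 100 := div_pos (Real.sqrt_pos.2 hθ) (by norm_num)
  obtain ⟨δ, hδ, hδy⟩ := hB.ly0 _ hsq
  obtain ⟨ε, hε, hεR, hεδ⟩ : ∃ ε : ℝ, 0 < ε ∧ ε ≤ R * θ ∧ ε < δ := by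
    refine ⟨min (R * θ) (δ / 2), lt_min (mul_pos hR hθ) (by linarith), min_le_left _ _, ?_⟩
    exact lt_of_le_of_lt (min_le_right _ _) (by linarith)
  have hRg : Rg k ρ1 R1 ρ2 C R θ ε 1 :=
    ⟨hR, hRR, hRs, hθ, hθ1, hε, hεR, zero_le_one, le_refl _⟩
  obtain ⟨ρ, hρ0, hρ1, hD⟩ := h8 k A x0 φ y ρ1 R1 ρ2 C R θ ε d0 hB hRg hd0 hd0R hd
  obtain ⟨-, hL, hP, hCt⟩ := h3 k A x0 φ y ρ1 R1 ρ2 C R θ ε hB hRg
  have one_mem : (1 : ℝ) ∈ Icc (0 : ℝ) 1 := ⟨zero_le_one, le_refl _⟩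
  have hex : ∀ η : Ek k, ∃ x : ℝ → Ek k, Sol ρ x0 (Th φ y R θ ε 1 η) x := by
    intro η
    refine h1 k ρ x0 _ hρ0 hρ1 ?_ (fun x => hP 1 η x) ?_
    · have hc : Continuous (fun p : Ek k × ℝ => ((1 : ℝ), η, p.1, p.2)) := by fun_prop
      have h := hCt.comp_continuous hc (fun _ => one_mem)
      exact h
    · intro x x' t
      refine le_trans (hL 1 one_mem η x x' t) ?_
      exact mul_le_mul_of_nonneg_right (by norm_num) (norm_nonneg _)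
  choose X hX using hex
  set m1 : Ek k → Ek k := fun η => mn (fun s => Th φ y R θ ε 1 η (X η s) s) with hm1
  set M : Ek k → Ek k := fun η => θ⁻¹ • (m1 η - φ x0) with hM
  have hθM : ∀ η, θ • M η = m1 η - φ x0 := by
    intro η
    simp only [hM]
    rw [smul_smul, mul_inv_cancel₀ hθ.ne', one_smul]
  obtain ⟨-, -, -, -, hκ, -⟩ := h2 (θ / 2) (by linarith) (by linarith)
  set κ : ℝ := mn (tn (θ / 2)) / θ with hκd
  have hκ79 : 79 / 1000 ≤ κ := by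
    rw [hκd, le_div_iff₀ hθ]
    refine le_trans ?_ hκ
    rw [le_div_iff₀ (by positivity)]
    have hpi := Real.pi_lt_d2
    nlinarith [hpi, hθ]
  have hML : ∀ η ∈ closedBall (0 : Ek k) (d0 / 2), ∀ η' ∈ closedBall (0 : Ek k) (d0 / 2),
      ‖M η - M η' - κ • (η - η')‖ ≤ 3 / 100 * ‖η - η'‖ := by
    intro η hη η' hη'
    have a1 : ‖η‖ ≤ R := by
      have : ‖η‖ ≤ d0 / 2 := by simpa using hη
      linarith
    have a2 : ‖η'‖ ≤ R := by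
      have : ‖η'‖ ≤ d0 / 2 := by simpa using hη'
      linarith
    have h := h5 k A x0 φ y ρ1 R1 ρ2 C R θ ε hB hRg hR4
      (fun x x' => hδy x x' ε ⟨hε, hεδ⟩) η η' a1 a2 ρ hρ0 hρ1 (X η) (X η') (hX η) (hX η')
    have e : M η - M η' - κ • (η - η') =
        θ⁻¹ • (m1 η - m1 η' - mn (tn (θ / 2)) • (η - η')) := by
      simp only [hM, hκd, div_eq_inv_mul]
      module
    rw [e, norm_smul, norm_inv, Real.norm_eq_abs, abs_of_pos hθ]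
    calc θ⁻¹ * ‖m1 η - m1 η' - mn (tn (θ / 2)) • (η - η')‖
        ≤ θ⁻¹ * (3 / 100 * θ * ‖η - η'‖) :=
          mul_le_mul_of_nonneg_left h (inv_nonneg.2 hθ.le)
      _ = 3 / 100 * ‖η - η'‖ := by field_simp
  refine ⟨M 0, ?_, ?_⟩
  · have h := h4 k A x0 φ y ρ1 R1 ρ2 C R θ ε 1 hB hRg 0 (by simpa using hR.le) ρ hρ0 hρ1 (X 0)
      (hX 0)
    simp only [hM]
    rw [norm_smul, norm_inv, Real.norm_eq_abs, abs_of_pos hθ]
    calc θ⁻¹ * ‖m1 0 - φ x0‖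
        ≤ θ⁻¹ * ((9 * C * (C + 1) ^ 2 * R ^ 2 + 2 * C * R + R) * θ) :=
          mul_le_mul_of_nonneg_left h (inv_nonneg.2 hθ.le)
      _ = 9 * C * (C + 1) ^ 2 * R ^ 2 + 2 * C * R + R := by field_simp
  · intro m hm
    have hm' : ‖m - M 0‖ ≤ (κ - 3 / 100) * (d0 / 2) := by
      refine le_trans hm ?_
      exact mul_le_mul_of_nonneg_right (by linarith) (by linarith)
    obtain ⟨η, hη, hMη⟩ := h6 k κ (3 / 100) (d0 / 2) M (by norm_num) (by linarith) (by linarith)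
      hML m hm'
    have hη' : ‖η‖ ≤ d0 / 2 := by simpa using hη
    have h := hD η hη' (X η) (hX η)
    have e : φ x0 + θ • m = m1 η := by
      rw [← hMη, hθM η]
      abel
    rw [e]
    exact h

end BWcAux

open BWcAux in
theorem tBWc (h1 : S_Bis) (h2 : S_Tn) (h3 : S_ThP) (h4 : S_MnB) (h5 : S_MnL) (h6 : S_CovB)
    (h7 : S_Room) (h8 : S_Dsc) : S_BWc := by
  intro k A x0 φ y ρ1 R1 ρ2 C hB
  obtain ⟨R, hR, hRR, hRs, hR4⟩ := exR k hB.hρ1 hB.hR1 hB.hρ2 hB.hC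
  have hmem : ∀ x ∈ closedBall x0 ρ1, ∀ r ∈ Icc (R / 2) R, ∀ v : Ek k, ‖v‖ ≤ 0 →
      cpt x (φ x + y x r + v) ∈ A := by
    intro x hx r hr v hv
    have hv0 : v = 0 := norm_le_zero_iff.1 hv
    rw [hv0, add_zero]
    exact hB.mem x hx r ⟨by linarith [hr.1], by linarith [hr.2]⟩
  obtain ⟨d, hd, hroom⟩ := h7 k A x0 φ y ρ1 R1 ρ2 C hB (R / 2) R 0 (by linarith) hRR
    (le_refl _) hmem
  obtain ⟨d0, hd0, hd0R, hd0d⟩ : ∃ d0 : ℝ, 0 < d0 ∧ d0 ≤ R ∧ d0 < d := by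
    refine ⟨min (d / 2) R, lt_min (by linarith) hR, min_le_right _ _, ?_⟩
    exact lt_of_le_of_lt (min_le_left _ _) (by linarith)
  have hd' : ∀ x ∈ closedBall x0 ρ1, ∀ r ∈ Icc (R / 2) R, ∀ v : Ek k, ‖v‖ ≤ d0 →
      cpt x (φ x + y x r + v) ∈ A := by
    intro x hx r hr v hv
    refine hroom x hx r hr 0 (by simp) _ ?_
    exact lt_of_le_of_lt (le_trans (cptN x (φ x + y x r) v) hv) hd0d
  set θ : ℕ → ℝ := fun n => 1 / ((n : ℝ) + 1) with hθd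
  have hθ : ∀ n, 0 < θ n := fun n => by
    simp only [hθd]
    positivity
  have hθ1 : ∀ n, θ n ≤ 1 := fun n => by
    simp only [hθd]
    rw [div_le_one (by positivity)]
    have : (0 : ℝ) ≤ n := Nat.cast_nonneg n
    linarith
  have hst := fun n => step h1 h2 h3 h4 h5 h6 h8 hB hR hRR hRs hR4 hd0 hd0R hd' (hθ n) (hθ1 n)
  choose M0 hK hM0 using hst
  obtain ⟨V, -, ψ, hψ, hV⟩ := (isCompact_closedBall (0 : Ek k)
    (9 * C * (C + 1) ^ 2 * R ^ 2 + 2 * C * R + R)).tendsto_subseq (x := M0)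
    (fun n => by simpa using hK n)
  refine ⟨V, d0 / 100, by linarith, ?_⟩
  intro τ hτ
  have e1 : ∀ᶠ n in atTop, dist ((M0 ∘ ψ) n) V < d0 / 100 :=
    (Metric.tendsto_nhds.1 hV) _ (by linarith)
  have e2 : ∀ᶠ n in atTop, θ (ψ n) < τ := by
    have h := (tendsto_one_div_add_atTop_nhds_zero_nat (𝕜 := ℝ)).comp hψ.tendsto_atTop
    exact h.eventually (gt_mem_nhds hτ)
  obtain ⟨n, hn1, hn2⟩ := (e1.and e2).exists
  refine ⟨θ (ψ n), ⟨hθ _, hn2⟩, ?_⟩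
  intro v hv
  refine hM0 (ψ n) v ?_
  have hv' : dist v V < d0 / 100 := by simpa using hv
  have h3 : dist v (M0 (ψ n)) ≤ dist v V + dist V (M0 (ψ n)) := dist_triangle _ _ _
  have h4' : dist V (M0 (ψ n)) < d0 / 100 := by
    rw [dist_comm]
    exact hn1
  rw [← dist_eq_norm]
  linarith

end KV
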