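import Pool.Agent.Lib.KV.SpecM

/-!
# KV (MP_64edc4_ag), M/Bdy: the boundary values of the discs are in `A`, the discs are in `W`
-/

set_option autoImplicit false

open Set Filter Topology Metric

namespace KV

open KP

namespace BdyAux

theorem comp_le {k : ℕ} (v : Ek k) (j : Fin k) : |v j| ≤ ‖v‖ := by
  have := PiLp.norm_apply_le v j
  rwa [Real.norm_eq_abs] at this

/-- Numerical facts about the radii. -/
theorem num {k : ℕ} {ρ1 ρ2 C R : ℝ} (hC : 1 ≤ C) (hR : 0 < R)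
    (h : 100 * (k + 1) * (C + 1) * R ≤ min ρ1 ρ2) :
    12 * (k + 1) * (C + 1) * R ≤ ρ1 ∧
      12 * (k + 1) * (C + 1) * R + R / 2 + (1 / 40 * (12 * (k + 1) * (C + 1) * R) + C * R + R)
        < ρ2 := by
  have h1 := h.trans (min_le_left _ _)
  have h2 := h.trans (min_le_right _ _)
  have hk : (0 : ℝ) ≤ k := Nat.cast_nonneg k
  have hp : 0 < (C + 1) * R := by positivity
  have hP : (C + 1) * R ≤ (k + 1) * (C + 1) * R := by nlinarith
  have hP0 : 0 < (k + 1) * (C + 1) * R := by nlinarith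
  constructor
  · nlinarith
  · nlinarith

/-- The height. -/
theorem lipTh {k : ℕ} {φ : Ek k → Ek k} {y : Ek k → ℝ → Ek k} {R1 C R θ ε τ : ℝ} {η : Ek k}
    (hC : 1 ≤ C) (hR : 0 < R) (hRR : R < R1) (hθ : 0 < θ) (hε : 0 < ε) (hεR : ε ≤ R)
    (hτ : τ ∈ Icc (0 : ℝ) 1) (hη : ‖η‖ ≤ R)
    (lr : ∀ x, ∀ r ∈ Ioo (0 : ℝ) R1, ∀ r' ∈ Ioo (0 : ℝ) R1, ‖y x r - y x r'‖ ≤ C * |r - r'|)
    (hI : ∀ t, ε + τ * (R - ε) * tn θ t ∈ Icc ε R)
    (ht : ∀ t t', |tn θ t - tn θ t'| ≤ |t - t'| / θ)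
    (ht2 : ∀ t t', |tn (θ / 2) t - tn (θ / 2) t'| ≤ |t - t'| / (θ / 2)) (x : Ek k) (s s' : ℝ) :
    ‖Th φ y R θ ε τ η x s - Th φ y R θ ε τ η x s'‖ ≤ (C * R + 2 * R) / θ * |s - s'| := by
  have he : Th φ y R θ ε τ η x s - Th φ y R θ ε τ η x s' =
      (y x (ε + τ * (R - ε) * tn θ s) - y x (ε + τ * (R - ε) * tn θ s')) +
        (tn (θ / 2) s - tn (θ / 2) s') • η := by
    simp only [Th, sub_smul]; abel
  rw [he]
  have hin : ∀ t, ε + τ * (R - ε) * tn θ t ∈ Ioo (0 : ℝ) R1 := fun t =>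
    ⟨hε.trans_le (hI t).1, (hI t).2.trans_lt hRR⟩
  have h1 := lr x _ (hin s) _ (hin s')
  have h2 : |ε + τ * (R - ε) * tn θ s - (ε + τ * (R - ε) * tn θ s')| ≤ R * (|s - s'| / θ) := by
    have e1 : ε + τ * (R - ε) * tn θ s - (ε + τ * (R - ε) * tn θ s') =
        (τ * (R - ε)) * (tn θ s - tn θ s') := by ring
    rw [e1, abs_mul]
    have h3 : |τ * (R - ε)| ≤ R := by
      rw [abs_of_nonneg (mul_nonneg hτ.1 (by linarith))]
      nlinarith [hτ.1, hτ.2]
    exact mul_le_mul h3 (ht s s') (abs_nonneg _) hR.le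
  have h4 : ‖(tn (θ / 2) s - tn (θ / 2) s') • η‖ ≤ |s - s'| / (θ / 2) * R := by
    rw [norm_smul, Real.norm_eq_abs]
    exact mul_le_mul (ht2 s s') hη (norm_nonneg _) (by positivity)
  calc _ ≤ _ := norm_add_le _ _
    _ ≤ C * (R * (|s - s'| / θ)) + |s - s'| / (θ / 2) * R := by
        refine add_le_add (h1.trans ?_) h4
        exact mul_le_mul_of_nonneg_left h2 (by linarith)
    _ = (C * R + 2 * R) / θ * |s - s'| := by field_simp

theorem cont_aux {k : ℕ} {f : ℂ → Cn k}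
    (h : ContinuousOn (fun q : ℝ × ℂ => f q.2) (univ ×ˢ closedBall (0 : ℂ) 1)) :
    ContinuousOn f (closedBall (0 : ℂ) 1) := by
  have hm : ContinuousOn (fun z : ℂ => ((0 : ℝ), z)) (closedBall (0 : ℂ) 1) := by fun_prop
  exact h.comp hm (fun z hz => ⟨mem_univ _, hz⟩)

theorem maxp {k : ℕ} {f : ℂ → Cn k} {w : Cn k} {B : ℝ} (hB : 0 ≤ B)
    (hd : DifferentiableOn ℂ f (ball (0 : ℂ) 1)) (hc : ContinuousOn f (closedBall (0 : ℂ) 1))
    (hb : ∀ z : ℂ, ‖z‖ = 1 → ∀ j, ‖f z j - w j‖ ≤ B) :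
    ∀ ζ ∈ closedBall (0 : ℂ) 1, ‖f ζ - w‖ ≤ B := by
  intro ζ hζ
  rw [pi_norm_le_iff_of_nonneg hB]
  intro j
  have hcj : ContinuousOn (fun z => f z j - w j) (closedBall (0 : ℂ) 1) :=
    ((continuousOn_pi.1 hc) j).sub continuousOn_const
  have hdj : DiffContOnCl ℂ (fun z => f z j - w j) (ball (0 : ℂ) 1) := by
    refine ⟨((differentiableOn_pi.1 hd) j).sub_const _, ?_⟩
    rw [closure_ball (0 : ℂ) one_ne_zero]; exact hcj
  refine Complex.norm_le_of_forall_mem_frontier_norm_le isBounded_ball hdj ?_ ?_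
  · intro z hz
    rw [frontier_ball (0 : ℂ) one_ne_zero, mem_sphere, dist_zero_right] at hz
    exact hb z hz j
  · rw [closure_ball (0 : ℂ) one_ne_zero]; exact hζ

end BdyAux

open BdyAux in
theorem tBdy (h1 : S_Tn) (h2 : S_ThP) (h3 : S_Est) (h4 : S_CTp) (h5 : S_Room) (h6 : S_DscC) :
    S_Bdy := by
  intro k A x0 φ y ρ1 R1 ρ2 C R θ ε d0 hB hRg hd0 hd0R hmem
  obtain ⟨hI, hLip, hPer, hCont⟩ := h2 k A x0 φ y ρ1 R1 ρ2 C R θ ε hB hRg
  have hR := hRg.hR
  have hθ := hRg.hθ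
  have hε := hRg.hε
  have hεR : ε ≤ R := by
    have : R * θ ≤ R := by nlinarith [hRg.hθ1]
    exact hRg.hεR.trans this
  obtain ⟨hn1, hn2⟩ := num (k := k) hB.hC hR hRg.hRs
  have hTn := h1 θ hθ hRg.hθ1
  have hTn2 := h1 (θ / 2) (by linarith) (by linarith [hRg.hθ1])
  -- rooms
  obtain ⟨d1, hd1, hr1⟩ := h5 k A x0 φ y ρ1 R1 ρ2 C hB ε R 0 hε hRg.hRR (le_refl _)
    (fun x hx r hr v hv => by
      have hv0 : v = 0 := norm_le_zero_iff.1 hv
      rw [hv0, add_zero]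
      exact hB.mem x hx r ⟨hε.trans_le hr.1, hr.2.trans_lt hRg.hRR⟩)
  obtain ⟨d2, hd2, hr2⟩ := h5 k A x0 φ y ρ1 R1 ρ2 C hB (R / 2) R (d0 / 2) (by linarith) hRg.hRR
    (by linarith) (fun x hx r hr v hv => hmem x hx r hr v (hv.trans (by linarith)))
  set d := min (min d1 d2) R with hd
  have hdpos : 0 < d := lt_min (lt_min hd1 hd2) hR
  have hdd1 : d ≤ d1 := (min_le_left _ _).trans (min_le_left _ _)
  have hdd2 : d ≤ d2 := (min_le_left _ _).trans (min_le_right _ _)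
  have hdR : d ≤ R := min_le_right _ _
  set E := 12 * (k + 1) * (C + 1) * R with hE
  set M1 := 1 / 40 * E + C * R + R with hM1
  set K1 := 1 / 20 * (9 * (k + 1) * (C + 1) * R / Real.sqrt θ) with hK1
  set K2 := (C * R + 2 * R) / θ with hK2
  have hC0 : 0 ≤ C := by linarith [hB.hC]
  have hK1n : 0 ≤ K1 := by positivity
  have hK2n : 0 ≤ K2 := by positivity
  obtain ⟨δ, hδ0, hδ1, hδ⟩ : ∃ δ : ℝ, 0 < δ ∧ δ ≤ 1 ∧ (K1 + K2) * Real.sqrt δ ≤ d / 4 := by
    have hq : 0 < d / 4 / (K1 + K2 + 1) := by positivity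
    refine ⟨min 1 ((d / 4 / (K1 + K2 + 1)) ^ 2), by positivity, min_le_left _ _, ?_⟩
    have h7 : Real.sqrt (min 1 ((d / 4 / (K1 + K2 + 1)) ^ 2)) ≤ d / 4 / (K1 + K2 + 1) := by
      calc _ ≤ Real.sqrt ((d / 4 / (K1 + K2 + 1)) ^ 2) := Real.sqrt_le_sqrt (min_le_right _ _)
        _ = _ := Real.sqrt_sq hq.le
    calc (K1 + K2) * Real.sqrt (min 1 ((d / 4 / (K1 + K2 + 1)) ^ 2))
        ≤ (K1 + K2 + 1) * (d / 4 / (K1 + K2 + 1)) :=
          mul_le_mul (by linarith) h7 (Real.sqrt_nonneg _) (by positivity)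
      _ = d / 4 := by field_simp
  obtain ⟨ρ0, hρ00, hρ01, hρ0⟩ := h4 (‖φ x0‖ + M1) δ (d / 4) hδ0 (by linarith)
  refine ⟨ρ0, hρ00, hρ01, ?_⟩
  intro ρ hρ τ hτ η hη hor x hx
  have hρn : 0 ≤ ρ := hρ00.trans hρ.1.le
  have hηR : ‖η‖ ≤ R := hη.trans (by linarith)
  have hRgτ : Rg k ρ1 R1 ρ2 C R θ ε τ :=
    ⟨hRg.hR, hRg.hRR, hRg.hRs, hRg.hθ, hRg.hθ1, hRg.hε, hRg.hεR, hτ.1, hτ.2⟩
  obtain ⟨-, he2, he3⟩ := h3 k A x0 φ y ρ1 R1 ρ2 C R θ ε τ hB hRgτ η hηR ρ hρn hρ.2 x hx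
  have hxb : ∀ t, x t ∈ closedBall x0 ρ1 := fun t => by
    rw [mem_closedBall, dist_eq_norm]
    exact (he2 t).trans hn1
  set u : ℝ → Ek k := fun s => Th φ y R θ ε τ η (x s) s with hu
  -- periodicity, continuity
  have hTc : Continuous (fun q : Ek k × ℝ => Th φ y R θ ε τ η q.1 q.2) := by
    have hm : Continuous (fun q : Ek k × ℝ => ((τ, η, q.1, q.2) : ℝ × Ek k × Ek k × ℝ)) :=
      continuous_const.prodMk (continuous_const.prodMk continuous_id)
    exact hCont.comp_continuous hm (fun q => hτ)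
  have huc : Continuous u := hTc.comp (hx.1.1.prodMk continuous_id)
  have hup : Function.Periodic u (2 * Real.pi) := by
    intro s
    show Th φ y R θ ε τ η (x (s + 2 * Real.pi)) (s + 2 * Real.pi) = Th φ y R θ ε τ η (x s) s
    rw [hx.1.2 s, hPer τ η (x s) s]
  have htn01 : ∀ t, |tn (θ / 2) t| ≤ 1 := fun t => by
    rw [abs_of_nonneg (hTn2.2.1 t).1]; exact (hTn2.2.1 t).2
  -- bound of u
  have hub : ∀ s, ‖u s - φ x0‖ ≤ M1 := by
    intro s
    have hh := hI τ hτ s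
    have e1 : u s - φ x0 = (φ (x s) - φ x0) + y (x s) (ε + τ * (R - ε) * tn θ s) +
        tn (θ / 2) s • η := by
      simp only [hu, Th]; abel
    rw [e1]
    have a1 : ‖φ (x s) - φ x0‖ ≤ 1 / 40 * E := (hB.lφ _ _).trans
      (mul_le_mul_of_nonneg_left (he2 s) (by norm_num))
    have a2 : ‖y (x s) (ε + τ * (R - ε) * tn θ s)‖ ≤ C * R := by
      refine (hB.by' _ _ ⟨hε.trans_le hh.1, hh.2.trans_lt hRg.hRR⟩).trans ?_
      exact mul_le_mul_of_nonneg_left hh.2 hC0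
    have a3 : ‖tn (θ / 2) s • η‖ ≤ R := by
      rw [norm_smul, Real.norm_eq_abs]
      calc |tn (θ / 2) s| * ‖η‖ ≤ 1 * R := mul_le_mul (htn01 s) hηR (norm_nonneg _) zero_le_one
        _ = R := one_mul _
    calc _ ≤ _ := norm_add₃_le
      _ ≤ _ := add_le_add (add_le_add a1 a2) a3
  have hubM : ∀ s, ‖u s‖ ≤ ‖φ x0‖ + M1 := by
    intro s
    have : u s = φ x0 + (u s - φ x0) := by abel
    rw [this]
    exact (norm_add_le _ _).trans (by linarith [hub s])
  -- modulus of continuity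
  have humod : ∀ s s', |s - s'| ≤ δ → ‖u s - u s'‖ ≤ d / 4 := by
    intro s s' hss
    have hs1 : |s - s'| ≤ 1 := hss.trans hδ1
    have e1 : u s - u s' = (Th φ y R θ ε τ η (x s) s - Th φ y R θ ε τ η (x s') s) +
        (Th φ y R θ ε τ η (x s') s - Th φ y R θ ε τ η (x s') s') := by
      simp only [hu]; abel
    rw [e1]
    have a1 := hLip τ hτ η (x s) (x s') s
    have a2 := he3 s s' hs1
    have a3 := lipTh (φ := φ) hB.hC hR hRg.hRR hθ hε hεR hτ hηR hB.lr (hI τ hτ) hTn.2.2.2.2.2.2.1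
      hTn2.2.2.2.2.2.2.1 (x s') s s'
    have a4 : |s - s'| ≤ Real.sqrt |s - s'| := by
      have h0 := abs_nonneg (s - s')
      have : |s - s'| * |s - s'| ≤ |s - s'| := by nlinarith
      calc |s - s'| = Real.sqrt (|s - s'| * |s - s'|) := (Real.sqrt_mul_self h0).symm
        _ ≤ _ := Real.sqrt_le_sqrt this
    have a5 : Real.sqrt |s - s'| ≤ Real.sqrt δ := Real.sqrt_le_sqrt hss
    have a6 : ‖Th φ y R θ ε τ η (x s) s - Th φ y R θ ε τ η (x s') s‖ ≤
        K1 * Real.sqrt |s - s'| := by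
      calc _ ≤ _ := a1
        _ ≤ 1 / 20 * (9 * (k + 1) * (C + 1) * R / Real.sqrt θ * Real.sqrt |s - s'|) :=
            mul_le_mul_of_nonneg_left a2 (by norm_num)
        _ = K1 * Real.sqrt |s - s'| := by rw [hK1]; ring
    have a7 : ‖Th φ y R θ ε τ η (x s') s - Th φ y R θ ε τ η (x s') s'‖ ≤
        K2 * Real.sqrt |s - s'| := a3.trans (mul_le_mul_of_nonneg_left a4 hK2n)
    calc _ ≤ _ := norm_add_le _ _
      _ ≤ K1 * Real.sqrt |s - s'| + K2 * Real.sqrt |s - s'| := add_le_add a6 a7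
      _ = (K1 + K2) * Real.sqrt |s - s'| := by ring
      _ ≤ (K1 + K2) * Real.sqrt δ := mul_le_mul_of_nonneg_left a5 (by linarith)
      _ ≤ d / 4 := hδ
  -- approximation of the boundary values
  have happ : ∀ (j : Fin k) (t : ℝ),
      |(cT (fun s => u s j) (ρ * Complex.exp (t * Complex.I))).re - u t j| ≤ d / 2 := by
    intro j t
    have hv : PC (fun s => u s j) := by
      refine ⟨?_, fun s => ?_⟩
      · exact (EuclideanSpace.proj (𝕜 := ℝ) j).continuous.comp huc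
      · show u (s + 2 * Real.pi) j = u s j
        rw [hup s]
    have := hρ0 ρ hρ (fun s => u s j) hv (fun s => (comp_le _ _).trans (hubM s))
      (fun s s' hss => by
        have h8 := (comp_le (u s - u s') j).trans (humod s s' hss)
        simpa using h8) t
    linarith
  obtain ⟨hc1, hc2⟩ := h6 k ρ x0 (fun _ => u) hρn hρ.2 (huc.comp continuous_snd) (fun _ => hup)
  obtain ⟨hc3, -, hc5⟩ := hc2 0
  have hbv : ∀ t : ℝ, dsc ρ x0 u (Complex.exp (t * Complex.I)) = fun j =>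
      ((x t j : ℝ) : ℂ) + ((cT (fun s => u s j) (ρ * Complex.exp (t * Complex.I))).re : ℂ) *
        Complex.I := by
    intro t
    rw [hc5 t]
    funext j
    rw [← hx.2 t]
  have hclose : ∀ t : ℝ, ‖dsc ρ x0 u (Complex.exp (t * Complex.I)) - cpt (x t) (u t)‖ < d := by
    intro t
    refine lt_of_le_of_lt ?_ (by linarith : d / 2 < d)
    rw [pi_norm_le_iff_of_nonneg (by linarith)]
    intro j
    rw [hbv t]
    have e1 : ((fun j => ((x t j : ℝ) : ℂ) +
        ((cT (fun s => u s j) (ρ * Complex.exp (t * Complex.I))).re : ℂ) * Complex.I) -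
          cpt (x t) (u t)) j =
        (((cT (fun s => u s j) (ρ * Complex.exp (t * Complex.I))).re - u t j : ℝ) : ℂ) *
          Complex.I := by
      simp only [Pi.sub_apply, cpt]
      push_cast
      ring
    rw [e1, norm_mul, Complex.norm_I, mul_one, Complex.norm_real, Real.norm_eq_abs]
    exact happ j t
  have hexp : ∀ ζ : ℂ, ‖ζ‖ = 1 → ∃ t : ℝ, Complex.exp (t * Complex.I) = ζ := by
    intro ζ hζ
    refine ⟨Complex.arg ζ, ?_⟩
    have := Complex.norm_mul_exp_arg_mul_I ζ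
    rw [hζ] at this
    simpa using this
  refine ⟨?_, ?_⟩
  · -- boundary values in A
    intro ζ hζ
    obtain ⟨t, rfl⟩ := hexp ζ hζ
    have hq := hclose t
    have hh := hI τ hτ t
    have hroom1 : tn (θ / 2) t • η = 0 →
        dsc ρ x0 u (Complex.exp (t * Complex.I)) ∈ A := by
      intro h0
      refine hr1 (x t) (hxb t) (ε + τ * (R - ε) * tn θ t) hh 0 (by simp) _ ?_
      have e1 : φ (x t) + y (x t) (ε + τ * (R - ε) * tn θ t) + 0 = u t := by
        simp only [hu, Th, h0]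
      rw [e1]
      exact hq.trans_le hdd1
    by_cases h0 : tn (θ / 2) t • η = 0
    · exact hroom1 h0
    · have hη0 : η ≠ 0 := fun h => h0 (by rw [h, smul_zero])
      have hτ1 : τ = 1 := hor.resolve_left hη0
      have ht0 : tn (θ / 2) t ≠ 0 := fun h => h0 (by rw [h, zero_smul])
      have htp : 0 < tn (θ / 2) t := lt_of_le_of_ne (hTn2.2.1 t).1 (Ne.symm ht0)
      have hhalf : 1 / 2 ≤ tn θ t := hTn.2.2.2.2.2.2.2.2 t htp
      refine hr2 (x t) (hxb t) (ε + τ * (R - ε) * tn θ t) ⟨?_, hh.2⟩ (tn (θ / 2) t • η) ?_ _ ?_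
      · rw [hτ1, one_mul]
        nlinarith
      · rw [norm_smul, Real.norm_eq_abs]
        calc |tn (θ / 2) t| * ‖η‖ ≤ 1 * (d0 / 2) :=
              mul_le_mul (htn01 t) hη (norm_nonneg _) zero_le_one
          _ = d0 / 2 := one_mul _
      · exact hq.trans_le hdd2
  · -- the disc is in W
    have hcirc : ∀ t : ℝ, ∀ j, ‖dsc ρ x0 u (Complex.exp (t * Complex.I)) j -
        cpt x0 (φ x0) j‖ ≤ E + R / 2 + M1 := by
      intro t j
      rw [hbv t]
      have e1 : ((x t j : ℝ) : ℂ) +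
          ((cT (fun s => u s j) (ρ * Complex.exp (t * Complex.I))).re : ℂ) * Complex.I -
            cpt x0 (φ x0) j =
          (((x t - x0) j : ℝ) : ℂ) +
          ((((cT (fun s => u s j) (ρ * Complex.exp (t * Complex.I))).re - u t j) +
            (u t - φ x0) j : ℝ) : ℂ) * Complex.I := by
        simp only [cpt, PiLp.sub_apply]
        push_cast
        ring
      rw [e1]
      refine (norm_add_le _ _).trans ?_
      rw [norm_mul, Complex.norm_I, mul_one, Complex.norm_real, Complex.norm_real,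
        Real.norm_eq_abs, Real.norm_eq_abs]
      have b1 := (comp_le (x t - x0) j).trans (he2 t)
      have b2 := happ j t
      have b3 := (comp_le (u t - φ x0) j).trans (hub t)
      have b4 := abs_add_le ((cT (fun s => u s j) (ρ * Complex.exp (t * Complex.I))).re - u t j)
        ((u t - φ x0) j)
      linarith
    intro ζ hζ
    rw [mem_ball, dist_eq_norm]
    refine lt_of_le_of_lt ?_ hn2
    have hB0 : 0 ≤ E + R / 2 + M1 := by
      have : 0 ≤ E := by positivity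
      positivity
    refine maxp hB0 hc3 (cont_aux hc1) (fun z hz j => ?_) ζ hζ
    obtain ⟨t, rfl⟩ := hexp z hz
    exact hcirc t j

end KV
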