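import Pool.Agent.Lib.KV.SpecM

set_option autoImplicit false

open Set Filter Topology Metric

namespace KV

private lemma bis_sub {F : Type} [NormedAddCommGroup F] {u v : ℝ → F} (hu : PC u) (hv : PC v) :
    PC (fun s => u s - v s) := by
  refine ⟨hu.1.sub hv.1, fun s => ?_⟩
  have e1 := hu.2 s
  have e2 := hv.2 s
  simp only at e1 e2 ⊢
  rw [e1, e2]

private lemma bis_quarter {F : Type} [NormedAddCommGroup F] [NormedSpace ℝ F] (h1 : S_NN)
    {u v : ℝ → F} (hu : PC u) (hv : PC v) (h : ∀ s, ‖u s‖ ≤ 1 / 4 * ‖v s‖) :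
    N2 u ≤ 1 / 4 * N2 v := by
  have hc : PC (fun s => (1 / 4 : ℝ) • v s) := by
    refine ⟨hv.1.const_smul (1 / 4 : ℝ), fun s => ?_⟩
    change (1 / 4 : ℝ) • v (s + 2 * Real.pi) = (1 / 4 : ℝ) • v s
    rw [hv.2 s]
  have h2 := (h1 _ u _ hu hc).2.1 (fun s => by
    rw [norm_smul, Real.norm_eq_abs, abs_of_pos (by norm_num : (0 : ℝ) < 1 / 4)]
    exact h s)
  refine h2.trans (le_of_eq ?_)
  unfold N2 mn
  have h3 : (fun s => ‖(1 / 4 : ℝ) • v s‖ ^ 2) = fun s => (1 / 4) ^ 2 * ‖v s‖ ^ 2 := by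
    funext s
    rw [norm_smul, mul_pow, Real.norm_eq_abs, sq_abs]
  rw [h3, intervalIntegral.integral_const_mul, smul_eq_mul, smul_eq_mul, mul_left_comm,
    Real.sqrt_mul (sq_nonneg _), Real.sqrt_sq (by norm_num)]

theorem tBis (h1 : S_NN) (h2 : S_QQ) : S_Bis := by
  intro k ρ x0 T hρ hρ1 hT hTp hTl
  have hTP : ∀ x : ℝ → Ek k, PC x → PC (fun s => T (x s) s) := by
    intro x hx
    refine ⟨hT.comp (hx.1.prodMk continuous_id), fun s => ?_⟩
    change T (x (s + 2 * Real.pi)) (s + 2 * Real.pi) = T (x s) s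
    rw [hx.2 s]
    exact hTp (x s) s
  set K : ℝ := k * (2 / (1 - ρ)) with hK
  have hK0 : 0 ≤ K := by
    rw [hK]
    have : 0 < 1 - ρ := by linarith
    positivity
  let St : (ℝ → Ek k) → ℝ → Ek k := fun x t => x0 - Qo ρ (fun s => T (x s) s) t
  have hSt : ∀ x : ℝ → Ek k, PC x → PC (St x) := by
    intro x hx
    have hq := (h2 k ρ hρ hρ1 _ (hTP x hx)).1
    refine ⟨continuous_const.sub hq.1, fun s => ?_⟩
    change x0 - Qo ρ (fun s => T (x s) s) (s + 2 * Real.pi) = x0 - Qo ρ (fun s => T (x s) s) s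
    rw [hq.2 s]
  -- differences
  have hdif : ∀ x x' : ℝ → Ek k, PC x → PC x' → ∀ t,
      St x t - St x' t = -Qo ρ (fun s => T (x s) s - T (x' s) s) t := by
    intro x x' hx hx' t
    rw [(h2 k ρ hρ hρ1 _ (hTP x hx)).2.2.2.1 _ (hTP x' hx') t]
    simp only [St]
    abel
  have hN : ∀ x x' : ℝ → Ek k, PC x → PC x' →
      N2 (fun s => T (x s) s - T (x' s) s) ≤ 1 / 4 * N2 (fun s => x s - x' s) := by
    intro x x' hx hx'
    exact bis_quarter h1 (bis_sub (hTP x hx) (hTP x' hx')) (bis_sub hx hx')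
      fun s => hTl _ _ _
  have hNS : ∀ x x' : ℝ → Ek k, PC x → PC x' →
      N2 (fun s => St x s - St x' s) ≤ 1 / 4 * N2 (fun s => x s - x' s) := by
    intro x x' hx hx'
    have hd := bis_sub (hTP x hx) (hTP x' hx')
    have e1 := (h2 k ρ hρ hρ1 _ hd).2.2.1 0
    simp only [sub_zero] at e1
    have e2 : N2 (fun s => St x s - St x' s) = N2 (Qo ρ (fun s => T (x s) s - T (x' s) s)) := by
      unfold N2
      congr 2
      funext s
      change ‖St x s - St x' s‖ ^ 2 = _
      rw [hdif x x' hx hx' s, norm_neg]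
    rw [e2]
    exact e1.trans (hN x x' hx hx')
  have hPS : ∀ x x' : ℝ → Ek k, PC x → PC x' → ∀ t,
      ‖St x t - St x' t‖ ≤ K * (1 / 4 * N2 (fun s => x s - x' s)) := by
    intro x x' hx hx' t
    have hd := bis_sub (hTP x hx) (hTP x' hx')
    rw [hdif x x' hx hx' t, norm_neg]
    exact ((h2 k ρ hρ hρ1 _ hd).2.2.2.2.1 t).trans
      (mul_le_mul_of_nonneg_left (hN x x' hx hx') hK0)
  -- the iteration
  let X : ℕ → ℝ → Ek k := fun n => St^[n] (fun _ => x0)
  have hX1 : ∀ n, X (n + 1) = St (X n) := fun n => Function.iterate_succ_apply' St n _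
  have hXP : ∀ n, PC (X n) := by
    intro n
    induction n with
    | zero => exact ⟨continuous_const, fun s => rfl⟩
    | succ n ih =>
      rw [hX1]
      exact hSt _ ih
  set C : ℝ := N2 (fun s => X 1 s - X 0 s) with hC
  have hgeo : ∀ n, N2 (fun s => X (n + 1) s - X n s) ≤ C * (1 / 4) ^ n := by
    intro n
    induction n with
    | zero => simp [hC]
    | succ n ih =>
      have := hNS (X (n + 1)) (X n) (hXP _) (hXP _)
      rw [← hX1, ← hX1] at this
      calc N2 (fun s => X (n + 1 + 1) s - X (n + 1) s) ≤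
          1 / 4 * N2 (fun s => X (n + 1) s - X n s) := this
        _ ≤ 1 / 4 * (C * (1 / 4) ^ n) := by linarith
        _ = C * (1 / 4) ^ (n + 1) := by ring
  have hpt : ∀ n t, dist (X (n + 1) t) (X (n + 1 + 1) t) ≤ K * C * (1 / 4) ^ n := by
    intro n t
    rw [dist_comm, dist_eq_norm]
    have := hPS (X (n + 1)) (X n) (hXP _) (hXP _) t
    rw [← hX1, ← hX1] at this
    refine this.trans ?_
    have h0 : 0 ≤ C * (1 / 4) ^ n := le_trans (Real.sqrt_nonneg _) (hgeo n)
    have h5 := hgeo n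
    have h6 : 1 / 4 * N2 (fun s => X (n + 1) s - X n s) ≤ C * (1 / 4) ^ n := by linarith
    calc K * (1 / 4 * N2 (fun s => X (n + 1) s - X n s)) ≤ K * (C * (1 / 4) ^ n) :=
          mul_le_mul_of_nonneg_left h6 hK0
      _ = K * C * (1 / 4) ^ n := by ring
  have hlim : ∀ t, ∃ a, Tendsto (fun n => X (n + 1) t) atTop (𝓝 a) := fun t =>
    cauchySeq_tendsto_of_complete
      (cauchySeq_of_le_geometric (1 / 4) (K * C) (by norm_num) fun n => hpt n t)
  choose x hx using hlim
  have hbd : ∀ n t, dist (X (n + 1) t) (x t) ≤ K * C * (1 / 4) ^ n / (1 - 1 / 4) := fun n t =>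
    dist_le_of_le_geometric_of_tendsto (1 / 4) (K * C) (by norm_num) (fun n => hpt n t) (hx t) n
  have hpow : Tendsto (fun n : ℕ => K * C * (1 / 4 : ℝ) ^ n / (1 - 1 / 4)) atTop (𝓝 0) := by
    have h3 : Tendsto (fun n : ℕ => (1 / 4 : ℝ) ^ n) atTop (𝓝 0) :=
      tendsto_pow_atTop_nhds_zero_of_lt_one (by norm_num) (by norm_num)
    have h4 := (h3.const_mul (K * C)).div_const (1 - 1 / 4)
    simpa using h4
  have hunif : TendstoUniformly (fun n t => X (n + 1) t) x atTop := by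
    rw [Metric.tendstoUniformly_iff]
    intro ε hε
    filter_upwards [(tendsto_order.1 hpow).2 ε hε] with n hn t
    rw [dist_comm]
    exact (hbd n t).trans_lt hn
  have hxP : PC x := by
    refine ⟨hunif.continuous (Frequently.of_forall fun n => (hXP (n + 1)).1), fun t => ?_⟩
    have e1 := hx (t + 2 * Real.pi)
    have e2 : (fun n => X (n + 1) (t + 2 * Real.pi)) = fun n => X (n + 1) t := by
      funext n
      exact (hXP (n + 1)).2 t
    rw [e2] at e1
    exact tendsto_nhds_unique e1 (hx t)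
  refine ⟨x, hxP, fun t => ?_⟩
  -- the equation
  have hlim2 : Tendsto (fun n => X (n + 1 + 1) t) atTop (𝓝 (St x t)) := by
    rw [tendsto_iff_dist_tendsto_zero]
    have hK4 : Tendsto (fun n : ℕ => K * (1 / 4 * (K * C * (1 / 4 : ℝ) ^ n / (1 - 1 / 4)))) atTop
        (𝓝 0) := by
      have := (hpow.const_mul (1 / 4)).const_mul K
      simpa using this
    refine squeeze_zero (fun _ => dist_nonneg) (fun n => ?_) hK4
    rw [dist_eq_norm, hX1 (n + 1)]
    refine (hPS (X (n + 1)) x (hXP _) hxP t).trans ?_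
    apply mul_le_mul_of_nonneg_left _ hK0
    apply mul_le_mul_of_nonneg_left _ (by norm_num)
    have hb0 : 0 ≤ K * C * (1 / 4 : ℝ) ^ n / (1 - 1 / 4) := le_trans dist_nonneg (hbd n 0)
    have hd := bis_sub (hXP (n + 1)) hxP
    refine (h1 _ _ _ hd hd).2.2.2.2.2.2.2 _ hb0 fun s => ?_
    rw [← dist_eq_norm]
    exact hbd n s
  have hlim3 : Tendsto (fun n => X (n + 1 + 1) t) atTop (𝓝 (x t)) :=
    (hx t).comp (tendsto_add_atTop_nat 1)
  exact tendsto_nhds_unique hlim3 hlim2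

end KV
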