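import Pool.Agent.Lib.KV.SpecM

set_option autoImplicit false

open Set Filter Topology Metric

namespace KV

private lemma bisU_smul {F : Type} [NormedAddCommGroup F] [NormedSpace ℝ F] (a : ℝ) (u : ℝ → F) :
    N2 (fun s => a • u s) = |a| * N2 u := by
  unfold N2 mn
  have h1 : (fun s => ‖a • u s‖ ^ 2) = fun s => a ^ 2 * ‖u s‖ ^ 2 := by
    funext s
    rw [norm_smul, mul_pow, Real.norm_eq_abs, sq_abs]
  rw [h1, intervalIntegral.integral_const_mul, smul_eq_mul, smul_eq_mul, mul_left_comm,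
    Real.sqrt_mul (sq_nonneg a), Real.sqrt_sq_eq_abs]

private lemma bisU_norm {F : Type} [NormedAddCommGroup F] [NormedSpace ℝ F] (u v : ℝ → F)
    (h : ∀ s, ‖u s‖ = ‖v s‖) : N2 u = N2 v := by
  unfold N2
  have : (fun s => ‖u s‖ ^ 2) = fun s => ‖v s‖ ^ 2 := by
    funext s
    rw [h s]
  rw [this]

theorem tBisU (h1 : S_NN) (h2 : S_QQ) : S_BisU := by
  intro k ρ x0 T hρ hρ1 hT hTp hTl x x' u' hx hx' hu' hxu c
  have hPx := hx.1
  have hu : PC (fun s => T (x s) s) := by
    refine ⟨hT.comp (hPx.1.prodMk continuous_id), fun s => ?_⟩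
    change T (x (s + 2 * Real.pi)) (s + 2 * Real.pi) = T (x s) s
    rw [hPx.2 s]
    exact hTp (x s) s
  have hTx' : PC (fun s => T (x' s) s) := by
    refine ⟨hT.comp (hx'.1.prodMk continuous_id), fun s => ?_⟩
    change T (x' (s + 2 * Real.pi)) (s + 2 * Real.pi) = T (x' s) s
    rw [hx'.2 s]
    exact hTp (x' s) s
  have hdif : ∀ t, x t - x' t = -Qo ρ (fun s => T (x s) s - u' s) t := by
    intro t
    rw [(h2 k ρ hρ hρ1 _ hu).2.2.2.1 u' hu' t, hx.2 t, hxu t]
    abel
  have hud : PC (fun s => T (x s) s - u' s) := by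
    refine ⟨hu.1.sub hu'.1, fun s => ?_⟩
    have e1 := hu.2 s
    have e2 := hu'.2 s
    simp only at e1 e2 ⊢
    rw [e1, e2]
  have e1 : N2 (fun s => x s - x' s) ≤ N2 (fun s => (T (x s) s - u' s) - c) := by
    rw [bisU_norm (fun s => x s - x' s) (Qo ρ (fun s => T (x s) s - u' s)) (fun s => by
      rw [hdif s, norm_neg])]
    exact (h2 k ρ hρ hρ1 _ hud).2.2.1 c
  have hA : PC (fun s => T (x s) s - T (x' s) s) := by
    refine ⟨hu.1.sub hTx'.1, fun s => ?_⟩
    have e1 := hu.2 s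
    have e2 := hTx'.2 s
    simp only at e1 e2 ⊢
    rw [e1, e2]
  have hB : PC (fun s => T (x' s) s - u' s - c) := by
    refine ⟨(hTx'.1.sub hu'.1).sub continuous_const, fun s => ?_⟩
    have e1 := hTx'.2 s
    have e2 := hu'.2 s
    simp only at e1 e2 ⊢
    rw [e1, e2]
  have hxc : Continuous fun s => x s - x' s := hPx.1.sub hx'.1
  have hxx : PC (fun s => (1 / 4 : ℝ) • (x s - x' s)) := by
    refine ⟨hxc.const_smul (1 / 4 : ℝ), fun s => ?_⟩
    have e1 := hPx.2 s
    have e2 := hx'.2 s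
    simp only at e1 e2 ⊢
    rw [e1, e2]
  have e2 : N2 (fun s => (T (x s) s - u' s) - c) ≤ N2 (fun s => T (x s) s - T (x' s) s) +
      N2 (fun s => T (x' s) s - u' s - c) := by
    have : (fun s => (T (x s) s - u' s) - c) =
        fun s => (T (x s) s - T (x' s) s) + (T (x' s) s - u' s - c) := by
      funext s
      abel
    rw [this]
    exact (h1 _ _ _ hA hB).1
  have e3 : N2 (fun s => T (x s) s - T (x' s) s) ≤ 1 / 4 * N2 (fun s => x s - x' s) := by
    have := (h1 _ _ _ hA hxx).2.1 (fun s => by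
      rw [norm_smul, Real.norm_eq_abs, abs_of_pos (by norm_num : (0 : ℝ) < 1 / 4)]
      exact hTl _ _ _)
    rwa [bisU_smul, abs_of_pos (by norm_num : (0 : ℝ) < 1 / 4)] at this
  linarith

end KV
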