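import Pool.Agent.Lib.KV.SpecM

set_option autoImplicit false

open Set Filter Topology Metric

namespace KV

namespace CT2Aux

/-- mean of a holomorphic function over a circle of radius `ρ < 1` -/
theorem mean_hol {F : ℂ → ℂ} (hF : DifferentiableOn ℂ F (ball 0 1)) {ρ : ℝ} (h0 : 0 ≤ ρ)
    (h1 : ρ < 1) : mn (fun t : ℝ => F (ρ * Complex.exp (t * Complex.I))) = F 0 := by
  have hsub : closedBall (0 : ℂ) |ρ| ⊆ ball 0 1 := by
    rw [abs_of_nonneg h0]
    exact closedBall_subset_ball h1
  have h := circleAverage_of_differentiable_on_off_countable (f := F) (c := 0) (R := ρ)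
    (s := ∅) countable_empty (hF.continuousOn.mono hsub) (by
      intro z hz
      have hz' : z ∈ ball (0 : ℂ) 1 := hsub (ball_subset_closedBall hz.1)
      exact (hF z hz').differentiableAt (isOpen_ball.mem_nhds hz'))
  rw [← h]
  simp only [Real.circleAverage, mn, circleMap, zero_add]

theorem norm_pt {ρ : ℝ} (h0 : 0 ≤ ρ) (t : ℝ) : ‖(ρ : ℂ) * Complex.exp (t * Complex.I)‖ = ρ := by
  rw [norm_mul, Complex.norm_exp_ofReal_mul_I, mul_one, Complex.norm_real, Real.norm_eq_abs,
    abs_of_nonneg h0]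

theorem mn_re {f : ℝ → ℂ} (hf : Continuous f) : (mn f).re = mn (fun s => (f s).re) := by
  have h := Complex.reCLM.intervalIntegral_comp_comm
    (hf.intervalIntegrable (μ := MeasureTheory.volume) 0 (2 * Real.pi))
  simp only [mn, Complex.reCLM_apply] at h ⊢
  rw [h, Complex.real_smul, Complex.re_ofReal_mul, smul_eq_mul]

theorem mn_mono {f g : ℝ → ℝ} (hf : Continuous f) (hg : Continuous g) (h : ∀ s, f s ≤ g s) :
    mn f ≤ mn g := by
  have hp : 0 ≤ 2 * Real.pi := by positivity
  simp only [mn, smul_eq_mul]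
  apply mul_le_mul_of_nonneg_left _ (by positivity)
  exact intervalIntegral.integral_mono_on hp (hf.intervalIntegrable _ _)
    (hg.intervalIntegrable _ _) (fun x _ => h x)

theorem den_ne {ζ : ℂ} (hζ : ‖ζ‖ < 1) (s : ℝ) : Complex.exp (s * Complex.I) - ζ ≠ 0 := by
  intro h
  have h1 : Complex.exp (s * Complex.I) = ζ := sub_eq_zero.mp h
  have h2 : ‖Complex.exp (s * Complex.I)‖ = 1 := Complex.norm_exp_ofReal_mul_I s
  rw [h1] at h2
  linarith

theorem cont_ker {ζ : ℂ} (hζ : ‖ζ‖ < 1) : Continuous (fun s : ℝ =>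
    (Complex.exp (s * Complex.I) + ζ) / (Complex.exp (s * Complex.I) - ζ)) := by
  apply Continuous.div
  · fun_prop
  · fun_prop
  · exact fun s => den_ne hζ s

theorem ker_nonneg {ζ : ℂ} (hζ : ‖ζ‖ < 1) (s : ℝ) :
    0 ≤ ((Complex.exp (s * Complex.I) + ζ) / (Complex.exp (s * Complex.I) - ζ)).re := by
  rw [Complex.div_re, ← add_div]
  apply div_nonneg _ (Complex.normSq_nonneg _)
  have h2 : Complex.normSq (Complex.exp (s * Complex.I)) = 1 := by
    rw [Complex.normSq_eq_norm_sq, Complex.norm_exp_ofReal_mul_I, one_pow]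
  have h3 : Complex.normSq ζ ≤ 1 := by
    rw [Complex.normSq_eq_norm_sq]
    exact pow_le_one₀ (norm_nonneg _) hζ.le
  rw [Complex.normSq_apply] at h2 h3
  simp only [Complex.add_re, Complex.add_im, Complex.sub_re, Complex.sub_im]
  nlinarith

theorem cT_re {v : ℝ → ℝ} (hv : Continuous v) {ζ : ℂ} (hζ : ‖ζ‖ < 1) :
    (cT v ζ).re = mn (fun s => ((Complex.exp (s * Complex.I) + ζ) /
      (Complex.exp (s * Complex.I) - ζ)).re * v s) := by
  have hc : Continuous (fun s : ℝ => (Complex.exp (s * Complex.I) + ζ) /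
      (Complex.exp (s * Complex.I) - ζ) * (v s : ℂ)) :=
    (cont_ker hζ).mul (Complex.continuous_ofReal.comp hv)
  rw [cT, mn_re hc]
  congr 1
  funext s
  rw [Complex.re_mul_ofReal]

/-- the pointwise inequality of Jensen -/
theorem jensen (h2 : S_CTc) {v : ℝ → ℝ} (hv : Continuous v) {ζ : ℂ} (hζ : ‖ζ‖ < 1) :
    (cT v ζ).re ^ 2 ≤ (cT (fun s => v s ^ 2) ζ).re := by
  set P : ℝ → ℝ := fun s => ((Complex.exp (s * Complex.I) + ζ) /
      (Complex.exp (s * Complex.I) - ζ)).re with hP
  have hPc : Continuous P := Complex.continuous_re.comp (cont_ker hζ)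
  have e1 : (cT v ζ).re = mn (fun s => P s * v s) := cT_re hv hζ
  have e2 : (cT (fun s => v s ^ 2) ζ).re = mn (fun s => P s * v s ^ 2) := cT_re (hv.pow 2) hζ
  have e0 : mn (fun s => P s) = 1 := by
    have := cT_re (v := fun _ => (1 : ℝ)) continuous_const hζ
    rw [h2 1 ζ hζ] at this
    simp only [Complex.ofReal_one, Complex.one_re, mul_one] at this
    exact this.symm
  set m : ℝ := (cT v ζ).re with hm
  have h3 : (0 : ℝ) ≤ mn (fun s => P s * (v s - m) ^ 2) := by
    simp only [mn, smul_eq_mul]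
    apply mul_nonneg (by positivity)
    apply intervalIntegral.integral_nonneg (by positivity)
    intro s _
    exact mul_nonneg (ker_nonneg hζ s) (sq_nonneg _)
  have h4 : mn (fun s => P s * (v s - m) ^ 2) =
      mn (fun s => P s * v s ^ 2) - 2 * m * mn (fun s => P s * v s) + m ^ 2 * mn (fun s => P s) := by
    simp only [mn, smul_eq_mul]
    have i1 : IntervalIntegrable (fun s => P s * v s ^ 2) MeasureTheory.volume 0 (2 * Real.pi) :=
      (hPc.mul (hv.pow 2)).intervalIntegrable _ _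
    have i2 : IntervalIntegrable (fun s => (2 * m) * (P s * v s)) MeasureTheory.volume 0
        (2 * Real.pi) := (continuous_const.mul (hPc.mul hv)).intervalIntegrable _ _
    have i3 : IntervalIntegrable (fun s => m ^ 2 * P s) MeasureTheory.volume 0
        (2 * Real.pi) := (continuous_const.mul hPc).intervalIntegrable _ _
    have e : (fun s => P s * (v s - m) ^ 2) =
        fun s => (P s * v s ^ 2 - (2 * m) * (P s * v s)) + m ^ 2 * P s := by
      funext s
      ring
    rw [e, intervalIntegral.integral_add (i1.sub i2) i3, intervalIntegral.integral_sub i1 i2,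
      intervalIntegral.integral_const_mul, intervalIntegral.integral_const_mul]
    ring
  rw [e2]
  rw [h4, e0, ← e1] at h3
  nlinarith

theorem main (h1 : S_CTa) (h2 : S_CTc) {v : ℝ → ℝ} (hv : PC v) {ρ : ℝ} (hρ0 : 0 ≤ ρ)
    (hρ1 : ρ < 1) :
    mn (fun t : ℝ => (cT v (ρ * Complex.exp (t * Complex.I))).im ^ 2) ≤
      mn (fun t : ℝ => v t ^ 2) := by
  have hv2 : PC (fun s => v s ^ 2) := by
    refine ⟨hv.1.pow 2, ?_⟩
    intro s
    show v (s + 2 * Real.pi) ^ 2 = v s ^ 2
    rw [hv.2 s]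
  obtain ⟨hF, hF0⟩ := h1 v hv
  obtain ⟨hG, hG0⟩ := h1 _ hv2
  have hnt : ∀ t : ℝ, ‖(ρ : ℂ) * Complex.exp (t * Complex.I)‖ < 1 := by
    intro t
    rw [norm_pt hρ0]
    exact hρ1
  have hcF : Continuous (fun t : ℝ => cT v (ρ * Complex.exp (t * Complex.I))) := by
    apply hF.continuousOn.comp_continuous (by fun_prop)
    intro t
    rw [mem_ball_zero_iff]
    exact hnt t
  have hcG : Continuous (fun t : ℝ => cT (fun s => v s ^ 2) (ρ * Complex.exp (t * Complex.I))) := by
    apply hG.continuousOn.comp_continuous (by fun_prop)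
    intro t
    rw [mem_ball_zero_iff]
    exact hnt t
  have hF2 : mn (fun t : ℝ => (cT v (ρ * Complex.exp (t * Complex.I))) ^ 2) = (cT v 0) ^ 2 :=
    mean_hol (F := fun z => cT v z ^ 2) (hF.pow 2) hρ0 hρ1
  have hG2 := mean_hol hG hρ0 hρ1
  have e1 : mn (fun t : ℝ => ((cT v (ρ * Complex.exp (t * Complex.I))) ^ 2).re) = (mn v) ^ 2 := by
    have hcF2 : Continuous (fun t : ℝ => (cT v (ρ * Complex.exp (t * Complex.I))) ^ 2) :=
      hcF.pow 2
    rw [← mn_re hcF2, hF2, hF0, ← Complex.ofReal_pow, Complex.ofReal_re]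
  have e2 : mn (fun t : ℝ => (cT (fun s => v s ^ 2) (ρ * Complex.exp (t * Complex.I))).re) =
      mn (fun s => v s ^ 2) := by
    rw [← mn_re hcG, hG2, hG0, Complex.ofReal_re]
  have e3 : mn (fun t : ℝ => (cT v (ρ * Complex.exp (t * Complex.I))).im ^ 2) =
      mn (fun t : ℝ => (cT v (ρ * Complex.exp (t * Complex.I))).re ^ 2) - (mn v) ^ 2 := by
    rw [← e1]
    simp only [mn, smul_eq_mul]
    rw [← mul_sub, ← intervalIntegral.integral_sub]
    · congr 2
      funext t
      simp only [sq, Complex.mul_re]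
      ring
    · exact ((Complex.continuous_re.comp hcF).pow 2).intervalIntegrable _ _
    · exact (Complex.continuous_re.comp (hcF.pow 2)).intervalIntegrable _ _
  rw [e3]
  have e4 : mn (fun t : ℝ => (cT v (ρ * Complex.exp (t * Complex.I))).re ^ 2) ≤
      mn (fun s => v s ^ 2) := by
    rw [← e2]
    apply mn_mono ((Complex.continuous_re.comp hcF).pow 2) (Complex.continuous_re.comp hcG)
    intro t
    exact jensen h2 hv.1 (hnt t)
  have := sq_nonneg (mn v)
  linarith

end CT2Aux

theorem tCT2 (h1 : S_CTa) (h2 : S_CTc) : S_CT2 := by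
  intro v hv ρ hρ0 hρ1
  unfold N2
  apply Real.sqrt_le_sqrt
  simp only [Real.norm_eq_abs, sq_abs]
  exact CT2Aux.main h1 h2 hv hρ0 hρ1

end KV
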