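import Pool.Agent.Lib.KV.SpecM

set_option autoImplicit false

open Set Filter Topology Metric

namespace KV

open KP

theorem tCTa : S_CTa := by
  intro v hv
  obtain ⟨hvc, hvp⟩ := hv
  have hpi : (Real.pi : ℂ) ≠ 0 := by exact_mod_cast Real.pi_ne_zero
  have harg : ∀ θ : ℝ, v (circleMap 0 1 θ).arg = v θ := by
    intro θ
    have e1 : circleMap 0 1 θ = Complex.exp (θ * Complex.I) := by simp [circleMap]
    rw [e1, Complex.arg_exp_mul_I, toIocMod]
    have := hvp.sub_zsmul_eq (x := θ) (toIocDiv Real.two_pi_pos (-Real.pi) θ)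
    simpa using this
  have hci : CircleIntegrable (fun z : ℂ => ((v z.arg : ℝ) : ℂ)) 0 ((1 : NNReal) : ℝ) := by
    have hc : Continuous (fun θ : ℝ => ((v θ : ℝ) : ℂ)) := Complex.continuous_ofReal.comp hvc
    have := hc.intervalIntegrable (μ := MeasureTheory.volume) 0 (2 * Real.pi)
    unfold CircleIntegrable
    simpa [harg] using this
  have hps := hasFPowerSeriesOn_cauchy_integral (c := (0 : ℂ)) (R := (1 : NNReal)) hci one_pos
  have hvi : IntervalIntegrable (fun s : ℝ => ((v s : ℝ) : ℂ)) MeasureTheory.volume 0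
      (2 * Real.pi) := (Complex.continuous_ofReal.comp hvc).intervalIntegrable _ _
  have hkey : ∀ ζ ∈ ball (0 : ℂ) 1, cT v ζ =
      2 * ((2 * Real.pi * Complex.I : ℂ)⁻¹ •
        ∮ z in C(0, ((1 : NNReal) : ℝ)), (z - ζ)⁻¹ • ((v z.arg : ℝ) : ℂ)) - ((mn v : ℝ) : ℂ) := by
    intro ζ hζ
    have hne : ∀ θ : ℝ, Complex.exp (θ * Complex.I) - ζ ≠ 0 := by
      intro θ h
      have h2 : Complex.exp (θ * Complex.I) = ζ := sub_eq_zero.mp h
      have h3 : ‖Complex.exp (θ * Complex.I)‖ = 1 := Complex.norm_exp_ofReal_mul_I θ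
      rw [h2] at h3
      have h4 : ‖ζ‖ < 1 := by simpa using hζ
      linarith
    have hec : Continuous (fun s : ℝ => Complex.exp (s * Complex.I)) := by fun_prop
    have hc1 : Continuous (fun s : ℝ => 2 * Complex.exp (s * Complex.I) *
        (Complex.exp (s * Complex.I) - ζ)⁻¹ * (v s : ℂ)) :=
      (((continuous_const.mul hec).mul ((hec.sub continuous_const).inv₀ hne))).mul
        (Complex.continuous_ofReal.comp hvc)
    have h1 : (∫ s in (0 : ℝ)..(2 * Real.pi),
        (Complex.exp (s * Complex.I) + ζ) / (Complex.exp (s * Complex.I) - ζ) * (v s : ℂ)) =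
        (∫ s in (0 : ℝ)..(2 * Real.pi), 2 * Complex.exp (s * Complex.I) *
        (Complex.exp (s * Complex.I) - ζ)⁻¹ * (v s : ℂ)) -
        ∫ s in (0 : ℝ)..(2 * Real.pi), ((v s : ℝ) : ℂ) := by
      rw [← intervalIntegral.integral_sub (hc1.intervalIntegrable _ _) hvi]
      apply intervalIntegral.integral_congr
      intro θ _
      have n1 := hne θ
      simp only
      field_simp
      ring
    have h2 : (∮ z in C(0, ((1 : NNReal) : ℝ)), (z - ζ)⁻¹ • ((v z.arg : ℝ) : ℂ)) =
        (Complex.I / 2) * ∫ s in (0 : ℝ)..(2 * Real.pi), 2 * Complex.exp (s * Complex.I) *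
        (Complex.exp (s * Complex.I) - ζ)⁻¹ * (v s : ℂ) := by
      unfold circleIntegral
      rw [← intervalIntegral.integral_const_mul]
      apply intervalIntegral.integral_congr
      intro θ _
      have e1 : circleMap 0 1 θ = Complex.exp (θ * Complex.I) := by simp [circleMap]
      have e2 := harg θ
      rw [e1] at e2
      simp only [NNReal.coe_one, deriv_circleMap, smul_eq_mul, e1, e2]
      ring
    have h3 : (∫ s in (0 : ℝ)..(2 * Real.pi), ((v s : ℝ) : ℂ)) =
        ((∫ s in (0 : ℝ)..(2 * Real.pi), v s : ℝ) : ℂ) := intervalIntegral.integral_ofReal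
    unfold cT mn
    rw [h1, h2, h3]
    generalize (∫ s in (0 : ℝ)..(2 * Real.pi), 2 * Complex.exp (s * Complex.I) *
        (Complex.exp (s * Complex.I) - ζ)⁻¹ * (v s : ℂ)) = J
    generalize (∫ s in (0 : ℝ)..(2 * Real.pi), v s) = K
    simp only [Complex.real_smul, smul_eq_mul]
    push_cast
    field_simp
  refine ⟨?_, ?_⟩
  · have hd := hps.differentiableOn
    have hb : Metric.eball (0 : ℂ) ((1 : NNReal) : ENNReal) = ball (0 : ℂ) 1 := by
      rw [Metric.eball_coe]; simp
    rw [hb] at hd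
    exact ((hd.const_mul 2).sub_const _).congr hkey
  · unfold cT mn
    have h3 : (∫ s in (0 : ℝ)..(2 * Real.pi), ((v s : ℝ) : ℂ)) =
        ((∫ s in (0 : ℝ)..(2 * Real.pi), v s : ℝ) : ℂ) := intervalIntegral.integral_ofReal
    simp only [add_zero, sub_zero, div_self (Complex.exp_ne_zero _), one_mul, h3]
    simp [Complex.real_smul, smul_eq_mul]

end KV
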