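import Pool.Agent.Lib.KV.SpecM

/-!
# KV, block M, module CTb: a bound for the Schwarz integral
-/

set_option autoImplicit false

open Set Filter Topology Metric

namespace KV

open KP

private theorem ctbKer (ζ : ℂ) (hζ : ‖ζ‖ < 1) (s : ℝ) :
    ‖(Complex.exp (s * Complex.I) + ζ) / (Complex.exp (s * Complex.I) - ζ)‖ ≤
      2 / (1 - ‖ζ‖) := by
  have h1 : ‖Complex.exp (s * Complex.I)‖ = 1 := Complex.norm_exp_ofReal_mul_I s
  have h2 : 1 - ‖ζ‖ ≤ ‖Complex.exp (s * Complex.I) - ζ‖ := by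
    have := norm_sub_norm_le (Complex.exp (s * Complex.I)) ζ
    rw [h1] at this
    exact this
  have h3 : ‖Complex.exp (s * Complex.I) + ζ‖ ≤ 2 := by
    have := norm_add_le (Complex.exp (s * Complex.I)) ζ
    rw [h1] at this
    linarith
  rw [norm_div]
  exact div_le_div₀ (by norm_num) h3 (by linarith) h2

theorem tCTb (h1 : S_NN) : S_CTb := by
  intro v hv ζ hζ
  have hc : Continuous v := hv.1
  have habs : PC (fun s => |v s|) := ⟨hc.abs, fun s => by simp only [hv.2 s]⟩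
  have h2 : ‖mn (fun s => |v s|)‖ ≤ N2 (fun s => |v s|) :=
    (h1 ℝ (fun s => |v s|) (fun s => |v s|) habs habs).2.2.2.1
  have h3 : N2 (fun s => |v s|) = N2 v := by
    rw [N2, N2]
    congr 2
    funext s
    rw [Real.norm_eq_abs, abs_abs, Real.norm_eq_abs]
  have h4 : mn (fun s => |v s|) ≤ N2 v := by
    rw [← h3]
    exact (le_abs_self _).trans h2
  have hC : 0 ≤ 2 / (1 - ‖ζ‖) := div_nonneg (by norm_num) (by linarith)
  have hpi : 0 ≤ 2 * Real.pi := by positivity
  have h5 : ‖∫ s in (0 : ℝ)..(2 * Real.pi), (Complex.exp (s * Complex.I) + ζ) /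
      (Complex.exp (s * Complex.I) - ζ) * (v s : ℂ)‖ ≤
      ∫ s in (0 : ℝ)..(2 * Real.pi), 2 / (1 - ‖ζ‖) * |v s| := by
    refine intervalIntegral.norm_integral_le_of_norm_le hpi ?_ ?_
    · refine Filter.Eventually.of_forall fun s _ => ?_
      rw [norm_mul, Complex.norm_real, Real.norm_eq_abs]
      exact mul_le_mul_of_nonneg_right (ctbKer ζ hζ s) (abs_nonneg _)
    · exact (continuous_const.mul hc.abs).intervalIntegrable _ _
  calc ‖cT v ζ‖ = (2 * Real.pi)⁻¹ * ‖∫ s in (0 : ℝ)..(2 * Real.pi),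
        (Complex.exp (s * Complex.I) + ζ) / (Complex.exp (s * Complex.I) - ζ) * (v s : ℂ)‖ := by
        rw [cT, mn, norm_smul, Real.norm_of_nonneg (by positivity)]
    _ ≤ (2 * Real.pi)⁻¹ * ∫ s in (0 : ℝ)..(2 * Real.pi), 2 / (1 - ‖ζ‖) * |v s| :=
        mul_le_mul_of_nonneg_left h5 (by positivity)
    _ = 2 / (1 - ‖ζ‖) * mn (fun s => |v s|) := by
        rw [intervalIntegral.integral_const_mul, mn, smul_eq_mul]
        ring
    _ ≤ 2 / (1 - ‖ζ‖) * N2 v := mul_le_mul_of_nonneg_left h4 hC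

end KV
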