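import Pool.Agent.Lib.KV.SpecM

set_option autoImplicit false

open Set Filter Topology Metric

namespace KV

open KP

theorem tCTc : S_CTc := by
  intro c ζ hζ
  have hζ' : ζ ∈ ball (0 : ℂ) 1 := by simpa using hζ
  have h0' : (0 : ℂ) ∈ ball (0 : ℂ) 1 := by simp
  have hne : ∀ (w : ℂ), w ∈ ball (0 : ℂ) 1 → ∀ θ : ℝ, circleMap 0 1 θ - w ≠ 0 := by
    intro w hw θ h
    have h2 : circleMap 0 1 θ = w := sub_eq_zero.mp h
    have h3 : ‖circleMap 0 1 θ‖ = 1 := by simp [circleMap]
    rw [h2] at h3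
    have h4 : ‖w‖ < 1 := by simpa using hw
    linarith
  have hint : ∀ (w : ℂ), w ∈ ball (0 : ℂ) 1 →
      CircleIntegrable (fun z : ℂ => (z - w)⁻¹) 0 1 := by
    intro w hw
    have hc : Continuous (fun θ : ℝ => (circleMap 0 1 θ - w)⁻¹) :=
      ((continuous_circleMap 0 1).sub continuous_const).inv₀ (hne w hw)
    exact hc.intervalIntegrable 0 (2 * Real.pi)
  have h1 : (∮ z in C(0, 1), (2 * (z - ζ)⁻¹ - (z - 0)⁻¹)) = 2 * Real.pi * Complex.I := by
    have ha : CircleIntegrable (fun z : ℂ => 2 * (z - ζ)⁻¹) 0 1 := by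
      have := (hint ζ hζ').const_smul (a := (2 : ℂ))
      simpa [Pi.smul_def, smul_eq_mul] using this
    rw [circleIntegral.integral_sub ha (hint 0 h0'), circleIntegral.integral_const_mul,
      circleIntegral.integral_sub_inv_of_mem_ball hζ',
      circleIntegral.integral_sub_inv_of_mem_ball h0']
    ring
  have h2 : (∫ s in (0 : ℝ)..(2 * Real.pi),
      (Complex.exp (s * Complex.I) + ζ) / (Complex.exp (s * Complex.I) - ζ) * (c : ℂ)) =
      (c / Complex.I) * ∮ z in C(0, 1), (2 * (z - ζ)⁻¹ - (z - 0)⁻¹) := by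
    unfold circleIntegral
    rw [← intervalIntegral.integral_const_mul]
    apply intervalIntegral.integral_congr
    intro θ _
    have e1 : circleMap 0 1 θ = Complex.exp (θ * Complex.I) := by simp [circleMap]
    have n1 := hne ζ hζ' θ
    have n0 := hne 0 h0' θ
    rw [e1] at n1 n0
    simp only [deriv_circleMap, smul_eq_mul, e1]
    rw [sub_zero] at n0 ⊢
    field_simp
    ring
  unfold cT mn
  rw [h2, h1, Complex.real_smul]
  have hpi : (Real.pi : ℂ) ≠ 0 := by exact_mod_cast Real.pi_ne_zero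
  push_cast
  field_simp

end KV
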