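import Pool.Agent.Lib.KV.SpecM

set_option autoImplicit false

open Set Filter Topology Metric

namespace KV

/-- **CTl.** The Schwarz integral is linear. -/
theorem tCTl : S_CTl := by
  intro v w hv hw a b ζ hζ
  have hne : ∀ s : ℝ, Complex.exp (s * Complex.I) - ζ ≠ 0 := by
    intro s h
    have h1 : ζ = Complex.exp (s * Complex.I) := (sub_eq_zero.1 h).symm
    rw [h1, Complex.norm_exp_ofReal_mul_I] at hζ
    exact lt_irrefl _ hζ
  have hker : Continuous fun s : ℝ =>
      (Complex.exp (s * Complex.I) + ζ) / (Complex.exp (s * Complex.I) - ζ) := by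
    refine Continuous.div ?_ ?_ hne
    · fun_prop
    · fun_prop
  have hiv : IntervalIntegrable (fun s : ℝ =>
      (Complex.exp (s * Complex.I) + ζ) / (Complex.exp (s * Complex.I) - ζ) * (v s : ℂ))
      MeasureTheory.volume 0 (2 * Real.pi) :=
    (hker.mul (Complex.continuous_ofReal.comp hv.1)).intervalIntegrable _ _
  have hiw : IntervalIntegrable (fun s : ℝ =>
      (Complex.exp (s * Complex.I) + ζ) / (Complex.exp (s * Complex.I) - ζ) * (w s : ℂ))
      MeasureTheory.volume 0 (2 * Real.pi) :=
    (hker.mul (Complex.continuous_ofReal.comp hw.1)).intervalIntegrable _ _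
  unfold cT mn
  have h1 : (fun s : ℝ => (Complex.exp (s * Complex.I) + ζ) / (Complex.exp (s * Complex.I) - ζ) *
      ((a * v s + b * w s : ℝ) : ℂ)) = fun s : ℝ =>
      (a : ℂ) * ((Complex.exp (s * Complex.I) + ζ) / (Complex.exp (s * Complex.I) - ζ) *
        (v s : ℂ)) +
      (b : ℂ) * ((Complex.exp (s * Complex.I) + ζ) / (Complex.exp (s * Complex.I) - ζ) *
        (w s : ℂ)) := by
    funext s
    push_cast
    ring
  rw [h1, intervalIntegral.integral_add (hiv.const_mul _) (hiw.const_mul _),
    intervalIntegral.integral_const_mul, intervalIntegral.integral_const_mul, smul_add,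
    mul_smul_comm, mul_smul_comm]

end KV
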