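import Pool.Agent.Lib.KV.SpecM

/-!
# KV, block M, module CTp: uniform approximation by the Poisson integral
-/

set_option autoImplicit false

open Set Filter Topology Metric

namespace KV

open KP

/-- The kernel. -/
private noncomputable def ctpK (ρ : ℝ) (s : ℝ) : ℂ :=
  (Complex.exp (s * Complex.I) + ρ) / (Complex.exp (s * Complex.I) - ρ)

private theorem ctpNe {ρ : ℝ} (h0 : 0 ≤ ρ) (h1 : ρ < 1) (s : ℝ) :
    Complex.exp (s * Complex.I) - ρ ≠ 0 := by
  intro h
  have h2 := congrArg norm (sub_eq_zero.1 h)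
  rw [Complex.norm_exp_ofReal_mul_I, Complex.norm_real, Real.norm_eq_abs, abs_of_nonneg h0] at h2
  linarith

private theorem ctpCont {ρ : ℝ} (h0 : 0 ≤ ρ) (h1 : ρ < 1) : Continuous (ctpK ρ) := by
  unfold ctpK
  exact Continuous.div (by fun_prop) (by fun_prop) (ctpNe h0 h1)

private theorem ctpNsq (ρ s : ℝ) : Complex.normSq (Complex.exp (s * Complex.I) - ρ) =
    1 - 2 * ρ * Real.cos s + ρ ^ 2 := by
  have e1 := Complex.exp_ofReal_mul_I_re s
  have e2 := Complex.exp_ofReal_mul_I_im s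
  rw [Complex.normSq_apply, Complex.sub_re, Complex.sub_im, e1, e2, Complex.ofReal_re,
    Complex.ofReal_im]
  have := Real.sin_sq_add_cos_sq s
  nlinarith

private theorem ctpRe (ρ s : ℝ) :
    (ctpK ρ s).re = (1 - ρ ^ 2) / (1 - 2 * ρ * Real.cos s + ρ ^ 2) := by
  have e1 := Complex.exp_ofReal_mul_I_re s
  have e2 := Complex.exp_ofReal_mul_I_im s
  rw [ctpK, Complex.div_re, ctpNsq, ← add_div]
  congr 1
  rw [Complex.sub_re, Complex.sub_im, Complex.add_re, Complex.add_im, e1, e2, Complex.ofReal_re,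
    Complex.ofReal_im]
  have := Real.sin_sq_add_cos_sq s
  nlinarith

private theorem ctpMnRe {u : ℝ → ℂ} (hu : Continuous u) : (mn u).re = mn (fun s => (u s).re) := by
  rw [mn, mn, Complex.smul_re]
  congr 1
  exact (Complex.reCLM.intervalIntegral_comp_comm (hu.intervalIntegrable _ _)).symm

private theorem ctpOne (hc : S_CTc) {ρ : ℝ} (h0 : 0 ≤ ρ) (h1 : ρ < 1) :
    mn (fun s => (ctpK ρ s).re) = 1 := by
  rw [← ctpMnRe (ctpCont h0 h1)]
  have h2 := hc 1 ρ (by rw [Complex.norm_real, Real.norm_eq_abs, abs_of_nonneg h0]; exact h1)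
  have h3 : cT (fun _ => 1) (ρ : ℂ) = mn (ctpK ρ) := by
    rw [cT]
    congr 1
    funext s
    rw [ctpK, Complex.ofReal_one, mul_one]
  rw [← h3, h2]
  simp

/-- The pointwise bound. -/
private theorem ctpPt {δ' ω M ρ κ : ℝ} (hδ : 0 < δ') (hω : 0 ≤ ω)
    (hM : 0 ≤ M) (hκ : κ = 1 - Real.cos δ') (hκ0 : 0 < κ) (h0 : 1 / 2 ≤ ρ) (h1 : ρ < 1)
    {w : ℝ → ℝ} (hw : Function.Periodic w (2 * Real.pi)) (hwM : ∀ s, |w s| ≤ M)
    (hwω : ∀ s, |s| ≤ δ' → |w s| ≤ ω) (s : ℝ) (hs : s ∈ Icc (0 : ℝ) (2 * Real.pi)) :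
    |(ctpK ρ s).re * w s| ≤ ω * (ctpK ρ s).re + M * ((1 - ρ ^ 2) / κ) := by
  have hρ0 : 0 ≤ ρ := by linarith
  have hpos : 0 < 1 - 2 * ρ * Real.cos s + ρ ^ 2 := by
    have := Real.cos_le_one s
    nlinarith
  have hnum : 0 ≤ 1 - ρ ^ 2 := by nlinarith
  have hP : 0 ≤ (ctpK ρ s).re := by
    rw [ctpRe]
    exact div_nonneg hnum hpos.le
  have hR : 0 ≤ M * ((1 - ρ ^ 2) / κ) := by positivity
  rw [abs_mul, abs_of_nonneg hP]
  by_cases hc : |w s| ≤ ω
  · have : (ctpK ρ s).re * |w s| ≤ ω * (ctpK ρ s).re := by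
      rw [mul_comm]
      exact mul_le_mul_of_nonneg_right hc hP
    linarith
  · have hs1 : δ' < s := by
      by_contra h
      push Not at h
      exact hc (hwω s (by rw [abs_of_nonneg hs.1]; exact h))
    have hs2 : s < 2 * Real.pi - δ' := by
      by_contra h
      push Not at h
      have h3 : |w (s - 2 * Real.pi)| ≤ ω := by
        refine hwω _ ?_
        rw [abs_le]
        constructor
        · linarith
        · linarith [hs.2]
      have h4 : w (s - 2 * Real.pi) = w s := by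
        have := hw (s - 2 * Real.pi)
        rw [sub_add_cancel] at this
        exact this.symm
      rw [h4] at h3
      exact hc h3
    have hcos : Real.cos s ≤ Real.cos δ' := by
      rcases le_total s Real.pi with h | h
      · exact Real.cos_le_cos_of_nonneg_of_le_pi hδ.le h hs1.le
      · have h3 : Real.cos s = Real.cos (2 * Real.pi - s) := by
          rw [Real.cos_two_pi_sub]
        rw [h3]
        exact Real.cos_le_cos_of_nonneg_of_le_pi hδ.le (by linarith) (by linarith)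
    have hden : κ ≤ 1 - 2 * ρ * Real.cos s + ρ ^ 2 := by
      have h3 : κ ≤ 1 - Real.cos s := by rw [hκ]; linarith
      have h4 : 0 ≤ 1 - Real.cos s := by linarith
      nlinarith [sq_nonneg (1 - ρ)]
    have hP' : (ctpK ρ s).re ≤ (1 - ρ ^ 2) / κ := by
      rw [ctpRe]
      exact div_le_div_of_nonneg_left hnum hκ0 hden
    have h5 : (ctpK ρ s).re * |w s| ≤ (1 - ρ ^ 2) / κ * M :=
      mul_le_mul hP' (hwM s) (abs_nonneg _) (hP.trans hP')
    have h6 : 0 ≤ ω * (ctpK ρ s).re := mul_nonneg hω hP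
    linarith

theorem tCTp (hc : S_CTc) (hl : S_CTl) (hr : S_CTr) : S_CTp := by
  intro M δ ω hδ hω
  set δ' : ℝ := min δ Real.pi with hδ'
  have hδ'0 : 0 < δ' := lt_min hδ Real.pi_pos
  have hδ'π : δ' ≤ Real.pi := min_le_right _ _
  set κ : ℝ := 1 - Real.cos δ' with hκ
  have hκ0 : 0 < κ := by
    have h1 : Real.cos δ' < Real.cos 0 :=
      Real.cos_lt_cos_of_nonneg_of_le_pi le_rfl hδ'π hδ'0
    rw [Real.cos_zero] at h1
    linarith
  refine ⟨max (1 / 2) (1 - ω * κ / (4 * |M| + 4)), le_max_of_le_left (by norm_num), ?_, ?_⟩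
  · refine max_lt (by norm_num) ?_
    have : 0 < ω * κ / (4 * |M| + 4) := by positivity
    linarith
  intro ρ hρ v hv hvM hmod t
  have hρ1 : 1 / 2 < ρ := (le_max_left _ _).trans_lt hρ.1
  have hρ2 : 1 - ω * κ / (4 * |M| + 4) < ρ := (le_max_right _ _).trans_lt hρ.1
  have hρ3 : ρ < 1 := hρ.2
  have hρ0 : 0 ≤ ρ := by linarith
  have hnρ : ‖(ρ : ℂ)‖ < 1 := by
    rw [Complex.norm_real, Real.norm_eq_abs, abs_of_nonneg hρ0]
    exact hρ3
  have hM0 : 0 ≤ M := (abs_nonneg _).trans (hvM 0)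
  -- the shifted function
  have hvt : PC (fun s => v (s + t)) := by
    refine ⟨hv.1.comp (continuous_add_const t), fun s => ?_⟩
    show v (s + 2 * Real.pi + t) = v (s + t)
    have : s + 2 * Real.pi + t = s + t + 2 * Real.pi := by ring
    rw [this, hv.2]
  have hcst : PC (fun _ : ℝ => v t) := ⟨continuous_const, fun _ => rfl⟩
  set w : ℝ → ℝ := fun s => 1 * v (s + t) + (-1) * v t with hw
  have hwc : Continuous w := (continuous_const.mul hvt.1).add continuous_const
  have hwp : Function.Periodic w (2 * Real.pi) := by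
    intro s
    rw [hw]
    simp only
    have := hvt.2 s
    simp only at this
    rw [this]
  have h1 : cT w (ρ : ℂ) = cT v (ρ * Complex.exp (t * Complex.I)) - v t := by
    have h2 := hl (fun s => v (s + t)) (fun _ => v t) hvt hcst 1 (-1) ρ hnρ
    have h3 := hr v hv t ρ hnρ
    have h4 := hc (v t) ρ hnρ
    rw [hw]
    rw [h2, h3, h4, mul_comm (Complex.exp (t * Complex.I))]
    push_cast
    ring
  have h2 : (cT v (ρ * Complex.exp (t * Complex.I))).re - v t = (cT w (ρ : ℂ)).re := by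
    rw [h1, Complex.sub_re, Complex.ofReal_re]
  rw [h2]
  have h3 : (cT w (ρ : ℂ)).re = mn (fun s => (ctpK ρ s).re * w s) := by
    have h4 : cT w (ρ : ℂ) = mn (fun s => ctpK ρ s * (w s : ℂ)) := rfl
    have h5 : Continuous fun s => ctpK ρ s * (w s : ℂ) :=
      (ctpCont hρ0 hρ3).mul (Complex.continuous_ofReal.comp hwc)
    rw [h4, ctpMnRe h5]
    congr 1
    funext s
    rw [Complex.re_mul_ofReal]
  rw [h3]
  have hpt := ctpPt (M := 2 * M) hδ'0 hω.le (by positivity) hκ hκ0 hρ1.le hρ3 hwp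
    (fun s => by
      rw [hw]
      simp only
      have e1 := abs_le.1 (hvM (s + t))
      have e2 := abs_le.1 (hvM t)
      rw [abs_le]
      constructor <;> linarith)
    (fun s hs => by
      have e1 := hmod (s + t) t (by
        rw [add_sub_cancel_right]
        exact hs.trans (min_le_left _ _))
      rw [hw]
      simp only
      have e2 : 1 * v (s + t) + (-1) * v t = v (s + t) - v t := by ring
      rw [e2]
      exact e1)
  have hrec : Continuous fun s => (ctpK ρ s).re := Complex.continuous_re.comp (ctpCont hρ0 hρ3)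
  have hpi : (0 : ℝ) ≤ 2 * Real.pi := by positivity
  have hpi0 : (2 * Real.pi) ≠ 0 := by positivity
  have h5 : |∫ s in (0 : ℝ)..(2 * Real.pi), (ctpK ρ s).re * w s| ≤
      ∫ s in (0 : ℝ)..(2 * Real.pi), (ω * (ctpK ρ s).re + 2 * M * ((1 - ρ ^ 2) / κ)) := by
    refine (intervalIntegral.abs_integral_le_integral_abs hpi).trans ?_
    refine intervalIntegral.integral_mono_on hpi ?_ ?_ hpt
    · exact (hrec.mul hwc).abs.intervalIntegrable _ _
    · exact ((continuous_const.mul hrec).add continuous_const).intervalIntegrable _ _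
  have h6 : ∫ s in (0 : ℝ)..(2 * Real.pi), (ω * (ctpK ρ s).re + 2 * M * ((1 - ρ ^ 2) / κ)) =
      ω * (∫ s in (0 : ℝ)..(2 * Real.pi), (ctpK ρ s).re) +
        (2 * Real.pi) * (2 * M * ((1 - ρ ^ 2) / κ)) := by
    have e1 : Continuous fun s => ω * (ctpK ρ s).re := continuous_const.mul hrec
    rw [intervalIntegral.integral_add (e1.intervalIntegrable _ _)
      (continuous_const.intervalIntegrable _ _), intervalIntegral.integral_const_mul,
      intervalIntegral.integral_const, smul_eq_mul, sub_zero]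
  have h7 := ctpOne hc hρ0 hρ3
  rw [mn, smul_eq_mul] at h7
  have h8 : 2 * M * ((1 - ρ ^ 2) / κ) ≤ ω := by
    have e1 : 1 - ρ ^ 2 ≤ 2 * (1 - ρ) := by nlinarith
    have e2 : (1 - ρ) * (4 * |M| + 4) ≤ ω * κ := by
      have e3 : 1 - ρ < ω * κ / (4 * |M| + 4) := by linarith
      have e4 : 0 < 4 * |M| + 4 := by positivity
      exact ((lt_div_iff₀ e4).1 e3).le
    rw [abs_of_nonneg hM0] at e2
    rw [← mul_div_assoc, div_le_iff₀ hκ0]
    have e5 : 0 ≤ 1 - ρ := by linarith
    nlinarith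
  rw [mn, smul_eq_mul, abs_mul, abs_of_nonneg (by positivity : (0:ℝ) ≤ (2 * Real.pi)⁻¹)]
  calc (2 * Real.pi)⁻¹ * |∫ s in (0 : ℝ)..(2 * Real.pi), (ctpK ρ s).re * w s|
      ≤ (2 * Real.pi)⁻¹ * (ω * (∫ s in (0 : ℝ)..(2 * Real.pi), (ctpK ρ s).re) +
        (2 * Real.pi) * (2 * M * ((1 - ρ ^ 2) / κ))) := by
        rw [← h6]
        exact mul_le_mul_of_nonneg_left h5 (by positivity)
    _ = ω * ((2 * Real.pi)⁻¹ * ∫ s in (0 : ℝ)..(2 * Real.pi), (ctpK ρ s).re) +
        2 * M * ((1 - ρ ^ 2) / κ) := by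
        field_simp
    _ ≤ ω * 1 + ω := by rw [h7]; linarith
    _ = 2 * ω := by ring

end KV
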