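import Pool.Agent.Lib.KV.SpecM

/-!
# KV, block M, module CTr: rotations
-/

set_option autoImplicit false

open Set Filter Topology Metric

namespace KV

open KP

theorem tCTr : S_CTr := by
  intro v hv a ζ hζ
  set K : ℝ → ℂ := fun s => (Complex.exp (s * Complex.I) + Complex.exp (a * Complex.I) * ζ) /
    (Complex.exp (s * Complex.I) - Complex.exp (a * Complex.I) * ζ) * (v s : ℂ) with hK
  have hper : Function.Periodic K (2 * Real.pi) := by
    intro s
    have h1 : Complex.exp (((s + 2 * Real.pi : ℝ) : ℂ) * Complex.I) =
        Complex.exp (s * Complex.I) := by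
      have h2 : ((s + 2 * Real.pi : ℝ) : ℂ) * Complex.I =
          s * Complex.I + 2 * Real.pi * Complex.I := by
        push_cast
        ring
      rw [h2]
      exact Complex.exp_periodic _
    rw [hK]
    simp only
    rw [h1, hv.2 s]
  have hshift : ∀ s : ℝ, (Complex.exp (s * Complex.I) + ζ) / (Complex.exp (s * Complex.I) - ζ) *
      (v (s + a) : ℂ) = K (s + a) := by
    intro s
    have h1 : Complex.exp (((s + a : ℝ) : ℂ) * Complex.I) =
        Complex.exp (a * Complex.I) * Complex.exp (s * Complex.I) := by
      rw [← Complex.exp_add]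
      congr 1
      push_cast
      ring
    rw [hK]
    simp only
    rw [h1, ← mul_add, ← mul_sub, mul_div_mul_left _ _ (Complex.exp_ne_zero _)]
  have h2 : ∫ s in (0 : ℝ)..(2 * Real.pi), K (s + a) = ∫ s in (0 : ℝ)..(2 * Real.pi), K s := by
    rw [intervalIntegral.integral_comp_add_right (fun s => K s) a, zero_add, add_comm (2 * Real.pi) a]
    have h3 := hper.intervalIntegral_add_eq a 0
    rw [zero_add] at h3
    exact h3
  show mn (fun s : ℝ => (Complex.exp (s * Complex.I) + ζ) / (Complex.exp (s * Complex.I) - ζ) *
      (v (s + a) : ℂ)) = mn K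
  rw [mn, mn, ← h2]
  congr 1
  exact intervalIntegral.integral_congr fun s _ => hshift s

end KV
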