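import Pool.Agent.Lib.KV.SpecM

set_option autoImplicit false

open Set Filter Topology Metric

namespace KV

theorem tCovB : S_CovB := by
  intro k κ e d M he heκ hd hM m hm
  have hκ : 0 < κ := lt_of_le_of_lt he heκ
  have h0 : (0 : Ek k) ∈ closedBall (0 : Ek k) d := mem_closedBall_self hd
  let T : Ek k → Ek k := fun η => η + κ⁻¹ • (m - M η)
  have hmaps : MapsTo T (closedBall (0 : Ek k) d) (closedBall (0 : Ek k) d) := by
    intro η hη
    rw [mem_closedBall_zero_iff] at hη ⊢
    have h1 : T η = κ⁻¹ • (-(M η - M 0 - κ • (η - 0)) + (m - M 0)) := by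
      have : -(M η - M 0 - κ • (η - 0)) + (m - M 0) = κ • η + (m - M η) := by
        rw [sub_zero]
        abel
      rw [this, smul_add, smul_smul, inv_mul_cancel₀ hκ.ne', one_smul]
    rw [h1, norm_smul, Real.norm_eq_abs, abs_of_pos (inv_pos.2 hκ)]
    have h2 := hM η (mem_closedBall_zero_iff.2 hη) 0 h0
    rw [sub_zero] at h2
    have h3 : ‖-(M η - M 0 - κ • (η - 0)) + (m - M 0)‖ ≤ e * d + (κ - e) * d := by
      refine (norm_add_le _ _).trans ?_
      rw [norm_neg, sub_zero]
      have : e * ‖η‖ ≤ e * d := mul_le_mul_of_nonneg_left hη he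
      linarith
    rw [inv_mul_le_iff₀ hκ]
    linarith
  have hlip : ∀ η ∈ closedBall (0 : Ek k) d, ∀ η' ∈ closedBall (0 : Ek k) d,
      dist (T η) (T η') ≤ e / κ * dist η η' := by
    intro η hη η' hη'
    rw [dist_eq_norm, dist_eq_norm]
    have h1 : T η - T η' = κ⁻¹ • (-(M η - M η' - κ • (η - η'))) := by
      have : -(M η - M η' - κ • (η - η')) = κ • (η - η') + ((m - M η) - (m - M η')) := by
        abel
      rw [this, smul_add, smul_smul, inv_mul_cancel₀ hκ.ne', one_smul, smul_sub]
      simp only [T]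
      abel
    rw [h1, norm_smul, Real.norm_eq_abs, abs_of_pos (inv_pos.2 hκ), norm_neg, div_mul_eq_mul_div,
      inv_mul_eq_div]
    exact div_le_div_of_nonneg_right (hM η hη η' hη') hκ.le
  have hcontr : ContractingWith ⟨e / κ, div_nonneg he hκ.le⟩
      (hmaps.restrict T (closedBall (0 : Ek k) d) (closedBall (0 : Ek k) d)) := by
    refine ⟨?_, ?_⟩
    · rw [← NNReal.coe_lt_coe]
      change e / κ < 1
      rw [div_lt_one hκ]
      exact heκ
    · apply LipschitzWith.of_dist_le_mul
      intro x y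
      exact hlip x.1 x.2 y.1 y.2
  obtain ⟨η, hη, hfix, -⟩ := ContractingWith.exists_fixedPoint'
    (isClosed_closedBall.isComplete) hmaps hcontr h0 (edist_ne_top _ _)
  refine ⟨η, hη, ?_⟩
  have h1 : η + κ⁻¹ • (m - M η) = η := hfix
  have h2 : κ⁻¹ • (m - M η) = 0 := by
    have := sub_eq_zero.2 h1
    rwa [add_sub_cancel_left] at this
  have h3 := (smul_eq_zero.1 h2).resolve_left (inv_ne_zero hκ.ne')
  exact (sub_eq_zero.1 h3).symm

end KV
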