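import Pool.Agent.Lib.KV.SpecM

/-!
# KV (MP_64edc4_ag), M/Dsc: the centres of the discs are in `A`
-/

set_option autoImplicit false

open Set Filter Topology Metric

namespace KV

open KP

namespace DscAux

theorem N2_zero {F : Type} [NormedAddCommGroup F] [NormedSpace ℝ F] :
    N2 (fun _ : ℝ => (0 : F)) = 0 := by
  simp [N2, mn]

theorem N2_nonneg {F : Type} [NormedAddCommGroup F] [NormedSpace ℝ F] (u : ℝ → F) :
    0 ≤ N2 u := Real.sqrt_nonneg _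

theorem pc_comp {k : ℕ} {T : Ek k → ℝ → Ek k} (hT : Continuous (fun p : Ek k × ℝ => T p.1 p.2))
    (hP : ∀ x, Function.Periodic (T x) (2 * Real.pi)) {x : ℝ → Ek k} (hx : PC x) :
    PC (fun s => T (x s) s) := by
  refine ⟨hT.comp (hx.1.prodMk continuous_id), fun s => ?_⟩
  show T (x (s + 2 * Real.pi)) (s + 2 * Real.pi) = T (x s) s
  rw [hx.2 s, hP (x s) s]

theorem uniq (h1 : S_NN) (h5 : S_BisU) {k : ℕ} {ρ : ℝ} {x0 : Ek k} {T : Ek k → ℝ → Ek k}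
    (hρ0 : 0 ≤ ρ) (hρ1 : ρ < 1) (hT : Continuous (fun p : Ek k × ℝ => T p.1 p.2))
    (hP : ∀ x, Function.Periodic (T x) (2 * Real.pi))
    (hL : ∀ x x' t, ‖T x t - T x' t‖ ≤ 1 / 4 * ‖x - x'‖) {x x' : ℝ → Ek k}
    (hx : Sol ρ x0 T x) (hx' : Sol ρ x0 T x') : x = x' := by
  have hu : PC (fun s => T (x' s) s) := pc_comp hT hP hx'.1
  have h := h5 k ρ x0 T hρ0 hρ1 hT hP hL x x' (fun s => T (x' s) s) hx hx'.1 hu hx'.2 0
  have h0 : (fun s : ℝ => T (x' s) s - T (x' s) s - (0 : Ek k)) = fun _ => 0 := by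
    funext s; simp
  rw [h0, N2_zero, mul_zero] at h
  have hd : PC (fun s => x s - x' s) := by
    refine ⟨hx.1.1.sub hx'.1.1, fun s => ?_⟩
    show x (s + 2 * Real.pi) - x' (s + 2 * Real.pi) = x s - x' s
    rw [hx.1.2 s, hx'.1.2 s]
  have hz := (h1 (Ek k) (fun s => x s - x' s) (fun s => x s - x' s) hd hd).2.2.1
    (le_antisymm h (N2_nonneg _))
  funext s
  exact sub_eq_zero.1 (hz s)

theorem step (h4 : S_Bis) (h6 : S_Fam) (h7 : S_ThP) (h8 : S_KPc) (h9 : S_DscC) {k : ℕ}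
    {A : Set (Cn k)} {x0 : Ek k} {φ : Ek k → Ek k} {y : Ek k → ℝ → Ek k}
    {ρ1 R1 ρ2 C R θ ε d0 : ℝ} (hB : BW A x0 φ y ρ1 R1 ρ2 C) (hR : Rg k ρ1 R1 ρ2 C R θ ε 1)
    {ρ : ℝ} (hρ0 : 0 ≤ ρ) (hρ1 : ρ < 1)
    (hb : ∀ τ ∈ Icc (0 : ℝ) 1, ∀ η : Ek k, ‖η‖ ≤ d0 / 2 →
      (η = 0 ∨ τ = 1) → ∀ x : ℝ → Ek k, Sol ρ x0 (Th φ y R θ ε τ η) x →
      (∀ ζ : ℂ, ‖ζ‖ = 1 → dsc ρ x0 (fun s => Th φ y R θ ε τ η (x s) s) ζ ∈ A) ∧
      MapsTo (dsc ρ x0 (fun s => Th φ y R θ ε τ η (x s) s)) (closedBall 0 1)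
        (ball (cpt x0 (φ x0)) ρ2))
    (τ : ℝ → ℝ) (η : ℝ → Ek k) (hτ : Continuous τ) (hη : Continuous η)
    (hτI : ∀ p, τ p ∈ Icc (0 : ℝ) 1) (hηd : ∀ p, ‖η p‖ ≤ d0 / 2)
    (hor : ∀ p, η p = 0 ∨ τ p = 1) :
    ∃ x : ℝ → ℝ → Ek k, (∀ p, Sol ρ x0 (Th φ y R θ ε (τ p) (η p)) (x p)) ∧
      (MapsTo (dsc ρ x0 (fun s => Th φ y R θ ε (τ 0) (η 0) (x 0 s) s)) (closedBall 0 1) A →
        MapsTo (dsc ρ x0 (fun s => Th φ y R θ ε (τ 1) (η 1) (x 1 s) s)) (closedBall 0 1) A) := by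
  obtain ⟨-, hLip, hPer, hCont⟩ := h7 k A x0 φ y ρ1 R1 ρ2 C R θ ε hB hR
  have hL : ∀ p x x' t, ‖Th φ y R θ ε (τ p) (η p) x t - Th φ y R θ ε (τ p) (η p) x' t‖ ≤
      1 / 4 * ‖x - x'‖ := by
    intro p x x' t
    have := hLip (τ p) (hτI p) (η p) x x' t
    have h0 := norm_nonneg (x - x')
    linarith
  have hC : Continuous (fun q : ℝ × Ek k × ℝ => Th φ y R θ ε (τ q.1) (η q.1) q.2.1 q.2.2) := by
    have hm : Continuous (fun q : ℝ × Ek k × ℝ => ((τ q.1, η q.1, q.2.1, q.2.2) :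
        ℝ × Ek k × Ek k × ℝ)) :=
      (hτ.comp continuous_fst).prodMk ((hη.comp continuous_fst).prodMk continuous_snd)
    exact hCont.comp_continuous hm (fun q => hτI q.1)
  have hC1 : ∀ p, Continuous (fun q : Ek k × ℝ => Th φ y R θ ε (τ p) (η p) q.1 q.2) := fun p =>
    hC.comp (continuous_const.prodMk continuous_id)
  have hex : ∀ p, ∃ x, Sol ρ x0 (Th φ y R θ ε (τ p) (η p)) x := fun p =>
    h4 k ρ x0 (Th φ y R θ ε (τ p) (η p)) hρ0 hρ1 (hC1 p) (fun x => hPer _ _ x) (hL p)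
  choose x hx using hex
  refine ⟨x, hx, fun hstart => ?_⟩
  have hxc : Continuous (fun q : ℝ × ℝ => x q.1 q.2) :=
    h6 k ρ x0 (fun p => Th φ y R θ ε (τ p) (η p)) hρ0 hρ1 hC (fun p x => hPer _ _ x) hL x hx
  have huc : Continuous (fun q : ℝ × ℝ => Th φ y R θ ε (τ q.1) (η q.1) (x q.1 q.2) q.2) :=
    hC.comp (continuous_fst.prodMk (hxc.prodMk continuous_snd))
  have hup : ∀ p, Function.Periodic (fun s => Th φ y R θ ε (τ p) (η p) (x p s) s)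
      (2 * Real.pi) := fun p => (pc_comp (hC1 p) (fun x => hPer _ _ x) (hx p).1).2
  obtain ⟨hd1, hd2⟩ := h9 k ρ x0 (fun p s => Th φ y R θ ε (τ p) (η p) (x p s) s) hρ0 hρ1 huc hup
  refine h8 k A (ball (cpt x0 (φ x0)) ρ2)
    (fun p => dsc ρ x0 (fun s => Th φ y R θ ε (τ p) (η p) (x p s) s)) hB.opn hB.tau
    (hd1.mono (prod_mono (subset_univ _) subset_rfl)) (fun p _ => (hd2 p).1) (fun p _ => ?_)
    (fun p _ => ?_) hstart 1 ⟨zero_le_one, le_refl _⟩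
  · exact (hb (τ p) (hτI p) (η p) (hηd p) (hor p) (x p) (hx p)).2
  · exact (hb (τ p) (hτI p) (η p) (hηd p) (hor p) (x p) (hx p)).1

end DscAux

open DscAux in
theorem tDsc (h1 : S_NN) (h2 : S_QQ) (h3 : S_CTc) (h4 : S_Bis) (h5 : S_BisU) (h6 : S_Fam)
    (h7 : S_ThP) (h8 : S_KPc) (h9 : S_DscC) (h10 : S_Bdy) : S_Dsc := by
  intro k A x0 φ y ρ1 R1 ρ2 C R θ ε d0 hB hR hd0 hd0R hmem
  obtain ⟨ρ0, hρ00, hρ01, hbd⟩ := h10 k A x0 φ y ρ1 R1 ρ2 C R θ ε d0 hB hR hd0 hd0R hmem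
  obtain ⟨-, hLip, hPer, hCont⟩ := h7 k A x0 φ y ρ1 R1 ρ2 C R θ ε hB hR
  obtain ⟨ρ, hρ⟩ : ∃ ρ, ρ ∈ Ioo ρ0 1 := ⟨(ρ0 + 1) / 2, by constructor <;> linarith⟩
  have hρn : 0 ≤ ρ := hρ00.trans hρ.1.le
  have hb := hbd ρ hρ
  have hL : ∀ τ ∈ Icc (0 : ℝ) 1, ∀ η x x' t,
      ‖Th φ y R θ ε τ η x t - Th φ y R θ ε τ η x' t‖ ≤ 1 / 4 * ‖x - x'‖ := by
    intro τ hτ η x x' t
    have := hLip τ hτ η x x' t
    have h0 := norm_nonneg (x - x')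
    linarith
  have hC1 : ∀ τ ∈ Icc (0 : ℝ) 1, ∀ η,
      Continuous (fun q : Ek k × ℝ => Th φ y R θ ε τ η q.1 q.2) := by
    intro τ hτ η
    have hm : Continuous (fun q : Ek k × ℝ => ((τ, η, q.1, q.2) : ℝ × Ek k × Ek k × ℝ)) :=
      continuous_const.prodMk (continuous_const.prodMk continuous_id)
    exact hCont.comp_continuous hm (fun q => hτ)
  refine ⟨ρ, hρn, hρ.2, ?_⟩
  intro η hη x hx
  have h01 : (0 : ℝ) ∈ Icc (0 : ℝ) 1 := ⟨le_refl _, zero_le_one⟩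
  have h11 : (1 : ℝ) ∈ Icc (0 : ℝ) 1 := ⟨zero_le_one, le_refl _⟩
  have hcl : Continuous (fun p : ℝ => max 0 (min 1 p)) := by fun_prop
  have hclI : ∀ p : ℝ, max 0 (min 1 p) ∈ Icc (0 : ℝ) 1 := fun p =>
    ⟨le_max_left _ _, max_le zero_le_one (min_le_left _ _)⟩
  have hcl0 : max 0 (min 1 (0 : ℝ)) = 0 := by simp
  have hcl1 : max 0 (min 1 (1 : ℝ)) = 1 := by simp
  -- first family
  obtain ⟨xa, hxa, ha⟩ := step h4 h6 h7 h8 h9 hB hR hρn hρ.2 hb (fun p => max 0 (min 1 p))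
    (fun _ => 0) hcl continuous_const hclI (fun p => by simp only [norm_zero]; positivity)
    (fun p => Or.inl rfl)
  simp only [hcl0, hcl1] at ha
  have hεR1 : ε ∈ Ioo (0 : ℝ) R1 := by
    refine ⟨hR.hε, ?_⟩
    have h1 : R * θ ≤ R := by nlinarith [hR.hR, hR.hθ1, hR.hθ]
    linarith [hR.hεR, hR.hRR]
  have hx0c : x0 ∈ closedBall x0 ρ1 := mem_closedBall_self hB.hρ1.le
  have hconst : ∀ s, Th φ y R θ ε 0 0 x0 s = φ x0 + y x0 ε := by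
    intro s; simp [Th]
  have hsol0 : Sol ρ x0 (Th φ y R θ ε 0 0) (fun _ => x0) := by
    refine ⟨⟨continuous_const, fun s => rfl⟩, fun t => ?_⟩
    have hq : (fun s => Th φ y R θ ε 0 0 x0 s) = fun _ => φ x0 + y x0 ε := funext hconst
    have h0 := (h2 k ρ hρn hρ.2 (fun _ => x0) ⟨continuous_const, fun s => rfl⟩).2.2.2.2.2.2
      (φ x0 + y x0 ε) t
    show x0 = x0 - Qo ρ (fun s => Th φ y R θ ε 0 0 x0 s) t
    rw [hq, h0, sub_zero]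
  have hxa0 : xa 0 = fun _ => x0 := by
    have h := hxa 0
    simp only [hcl0] at h
    exact uniq h1 h5 hρn hρ.2 (hC1 0 h01 0) (fun x => hPer _ _ x) (hL 0 h01 0) h hsol0
  have hst : MapsTo (dsc ρ x0 (fun s => Th φ y R θ ε 0 0 (xa 0 s) s)) (closedBall 0 1) A := by
    intro ζ hζ
    have hζ1 : ‖ζ‖ ≤ 1 := by simpa using hζ
    have hq : (fun s => Th φ y R θ ε 0 0 (xa 0 s) s) = fun _ => φ x0 + y x0 ε := by
      funext s; rw [hxa0]; exact hconst s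
    rw [hq]
    have hn : ‖(ρ : ℂ) * ζ‖ < 1 := by
      rw [norm_mul, Complex.norm_real, Real.norm_eq_abs, abs_of_nonneg hρn]
      calc ρ * ‖ζ‖ ≤ ρ * 1 := mul_le_mul_of_nonneg_left hζ1 hρn
        _ < 1 := by rw [mul_one]; exact hρ.2
    have he : dsc ρ x0 (fun _ => φ x0 + y x0 ε) ζ = cpt x0 (φ x0 + y x0 ε) := by
      funext j
      show (x0 j : ℂ) + Complex.I * cT (fun _ => (φ x0 + y x0 ε) j) (ρ * ζ) =
        (x0 j : ℂ) + ((φ x0 + y x0 ε) j : ℂ) * Complex.I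
      rw [h3 _ _ hn, mul_comm]
    rw [he]
    exact hB.mem x0 hx0c ε hεR1
  have hend := ha hst
  -- second family
  obtain ⟨xb, hxb, hb'⟩ := step h4 h6 h7 h8 h9 hB hR hρn hρ.2 hb (fun _ => 1)
    (fun p => (max 0 (min 1 p)) • η) continuous_const (hcl.smul continuous_const)
    (fun _ => h11) (fun p => by
      rw [norm_smul, Real.norm_eq_abs, abs_of_nonneg (hclI p).1]
      calc max 0 (min 1 p) * ‖η‖ ≤ 1 * ‖η‖ :=
            mul_le_mul_of_nonneg_right (hclI p).2 (norm_nonneg _)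
        _ ≤ d0 / 2 := by rw [one_mul]; exact hη)
    (fun p => Or.inr rfl)
  simp only [hcl0, hcl1, zero_smul, one_smul] at hb'
  have hxb0 : xb 0 = xa 1 := by
    have h := hxb 0
    simp only [hcl0, zero_smul] at h
    have h' := hxa 1
    simp only [hcl1] at h'
    exact uniq h1 h5 hρn hρ.2 (hC1 1 h11 0) (fun x => hPer _ _ x) (hL 1 h11 0) h h'
  have hxb1 : xb 1 = x := by
    have h := hxb 1
    simp only [hcl1, one_smul] at h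
    exact uniq h1 h5 hρn hρ.2 (hC1 1 h11 η) (fun x => hPer _ _ x) (hL 1 h11 η) h hx
  rw [hxb0, hxb1] at hb'
  have hfin := hb' hend
  have hu : PC (fun s => Th φ y R θ ε 1 η (x s) s) :=
    pc_comp (hC1 1 h11 η) (fun x => hPer _ _ x) hx.1
  obtain ⟨-, hd⟩ := h9 k ρ x0 (fun _ s => Th φ y R θ ε 1 η (x s) s) hρn hρ.2
    (hu.1.comp continuous_snd) (fun _ => hu.2)
  have h0 := (hd 0).2.1
  have hmem0 := hfin (mem_closedBall_self (zero_le_one' ℝ) : (0 : ℂ) ∈ closedBall (0 : ℂ) 1)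
  rw [h0] at hmem0
  exact hmem0

end KV
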