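import Pool.Agent.Lib.KV.SpecM

set_option autoImplicit false

open Set Filter Topology Metric

namespace KV

open KP

namespace DscCAux

theorem compC {k : ℕ} {u : ℝ → ℝ → Ek k} (hu : Continuous (fun q : ℝ × ℝ => u q.1 q.2))
    (j : Fin k) : Continuous (fun q : ℝ × ℝ => u q.1 q.2 j) :=
  (EuclideanSpace.proj (𝕜 := ℝ) j).continuous.comp hu

theorem pc {k : ℕ} {u : ℝ → ℝ → Ek k} (hu : Continuous (fun q : ℝ × ℝ => u q.1 q.2))
    (hp : ∀ p, Function.Periodic (u p) (2 * Real.pi)) (p : ℝ) (j : Fin k) :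
    PC (fun s => u p s j) := by
  constructor
  · exact (compC hu j).comp (Continuous.prodMk continuous_const continuous_id)
  · intro s
    have h := hp p s
    simp only [h]

theorem mnC {k : ℕ} {u : ℝ → Ek k} (hu : Continuous u) (j : Fin k) :
    (mn u) j = mn (fun s => u s j) := by
  let L : Ek k →L[ℝ] ℝ := EuclideanSpace.proj j
  have h := L.intervalIntegral_comp_comm
    (hu.intervalIntegrable (μ := MeasureTheory.volume) 0 (2 * Real.pi))
  have e : (∫ s in (0 : ℝ)..(2 * Real.pi), u s j) =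
      (∫ s in (0 : ℝ)..(2 * Real.pi), u s) j := h
  unfold mn
  rw [e]
  rfl

theorem nrm {ρ : ℝ} (hρ : 0 ≤ ρ) (hρ1 : ρ < 1) {ζ : ℂ} (hζ : ‖ζ‖ ≤ 1) : ‖(ρ : ℂ) * ζ‖ < 1 := by
  rw [norm_mul, Complex.norm_real, Real.norm_eq_abs, abs_of_nonneg hρ]
  nlinarith [norm_nonneg ζ]

theorem den {ρ : ℝ} (hρ : 0 ≤ ρ) (hρ1 : ρ < 1) {ζ : ℂ} (hζ : ‖ζ‖ ≤ 1) (s : ℝ) :
    Complex.exp (s * Complex.I) - (ρ : ℂ) * ζ ≠ 0 := by
  intro h
  have h1 : Complex.exp (s * Complex.I) = (ρ : ℂ) * ζ := sub_eq_zero.1 h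
  have h2 := nrm hρ hρ1 hζ
  rw [← h1, Complex.norm_exp_ofReal_mul_I] at h2
  exact lt_irrefl _ h2

theorem contC {k : ℕ} {ρ : ℝ} (hρ : 0 ≤ ρ) (hρ1 : ρ < 1) {u : ℝ → ℝ → Ek k}
    (hu : Continuous (fun q : ℝ × ℝ => u q.1 q.2)) (j : Fin k) :
    ContinuousOn (fun q : ℝ × ℂ => cT (fun s => u q.1 s j) (ρ * q.2))
      (univ ×ˢ closedBall (0 : ℂ) 1) := by
  rw [continuousOn_iff_continuous_domRestrict]
  have hF : Continuous (Function.uncurry (fun (q : ↥((univ : Set ℝ) ×ˢ closedBall (0 : ℂ) 1))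
      (s : ℝ) => (Complex.exp (s * Complex.I) + (ρ : ℂ) * q.1.2) /
        (Complex.exp (s * Complex.I) - (ρ : ℂ) * q.1.2) * ((u q.1.1 s j : ℝ) : ℂ))) := by
    have c1 : Continuous (fun w : ↥((univ : Set ℝ) ×ˢ closedBall (0 : ℂ) 1) × ℝ =>
        Complex.exp ((w.2 : ℂ) * Complex.I)) := by fun_prop
    have c2 : Continuous (fun w : ↥((univ : Set ℝ) ×ˢ closedBall (0 : ℂ) 1) × ℝ =>
        (ρ : ℂ) * w.1.1.2) := by fun_prop
    have c3 : Continuous (fun w : ↥((univ : Set ℝ) ×ˢ closedBall (0 : ℂ) 1) × ℝ =>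
        u w.1.1.1 w.2 j) :=
      (compC hu j).comp (Continuous.prodMk (by fun_prop) (by fun_prop))
    refine Continuous.mul (Continuous.div (c1.add c2) (c1.sub c2) ?_)
      (Complex.continuous_ofReal.comp c3)
    intro w
    have hw : w.1.1.2 ∈ closedBall (0 : ℂ) 1 := w.1.2.2
    exact den hρ hρ1 (by simpa using hw) w.2
  have hI := intervalIntegral.continuous_parametric_intervalIntegral_of_continuous'
    (μ := MeasureTheory.volume) hF 0 (2 * Real.pi)
  exact hI.const_smul ((2 * Real.pi)⁻¹ : ℝ)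

end DscCAux

open DscCAux in
theorem tDscC (_ : S_NN) (h2 : S_CTa) (_ : S_CTl) (_ : S_CTb) : S_DscC := by
  intro k ρ x0 u hρ hρ1 hu hp
  refine ⟨?_, fun p => ⟨?_, ?_, ?_⟩⟩
  · rw [continuousOn_pi]
    intro j
    exact ContinuousOn.add continuousOn_const
      (ContinuousOn.mul continuousOn_const (contC hρ hρ1 hu j))
  · rw [differentiableOn_pi]
    intro j
    have hd := (h2 _ (pc hu hp p j)).1
    have hc : DifferentiableOn ℂ (fun ζ : ℂ => cT (fun s => u p s j) (ρ * ζ)) (ball 0 1) := by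
      have hm : DifferentiableOn ℂ (fun ζ : ℂ => (ρ : ℂ) * ζ) (ball 0 1) := by fun_prop
      have hmt : MapsTo (fun ζ : ℂ => (ρ : ℂ) * ζ) (ball (0 : ℂ) 1) (ball (0 : ℂ) 1) := by
        intro ζ hζ
        have hz : ‖ζ‖ < 1 := by simpa using hζ
        have h3 := nrm hρ hρ1 hz.le
        simpa using h3
      exact hd.comp hm hmt
    exact (hc.const_mul Complex.I).const_add ((x0 j : ℝ) : ℂ)
  · funext j
    have hc : Continuous (u p) := hu.comp (Continuous.prodMk continuous_const continuous_id)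
    have h5 := (h2 _ (pc hu hp p j)).2
    simp only [dsc, cpt, mul_zero]
    rw [h5, mnC hc j]
    ring
  · intro t
    funext j
    have e : (x0 - Qo ρ (u p) t) j =
        x0 j - (cT (fun s => u p s j) (ρ * Complex.exp (t * Complex.I))).im := rfl
    rw [e]
    simp only [dsc]
    set F : ℂ := cT (fun s => u p s j) (ρ * Complex.exp (t * Complex.I))
    apply Complex.ext
    · simp
      ring
    · simp

end KV
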