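import Pool.Agent.Lib.KV.SpecM

set_option autoImplicit false

open Set Filter Topology Metric

namespace KV

theorem tFam (h1 : S_NN) (h2 : S_QQ) (h3 : S_BisU) : S_Fam := by
  intro k ρ x0 T hρ hρ1 hT hTp hTl x hx
  have hTc : ∀ p, Continuous (fun q : Ek k × ℝ => T p q.1 q.2) := fun p =>
    hT.comp (continuous_const.prodMk continuous_id)
  have hPC : ∀ p p' : ℝ, PC (fun s => T p (x p' s) s) := by
    intro p p'
    refine ⟨(hTc p).comp ((hx p').1.1.prodMk continuous_id), fun s => ?_⟩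
    change T p (x p' (s + 2 * Real.pi)) (s + 2 * Real.pi) = T p (x p' s) s
    rw [(hx p').1.2 s]
    exact hTp p (x p' s) s
  set K : ℝ := k * (2 / (1 - ρ)) with hK
  have hK0 : 0 ≤ K := by
    rw [hK]
    have : 0 < 1 - ρ := by linarith
    positivity
  rw [continuous_iff_continuousAt]
  rintro ⟨p0, t0⟩
  rw [Metric.continuousAt_iff']
  intro ω hω
  -- the perturbation is small
  set ω' : ℝ := ω / (8 * (K + 1)) with hω'
  have hω'0 : 0 < ω' := by positivity
  have hu : ∀ᶠ p in 𝓝 p0, ∀ s, ‖T p (x p0 s) s - T p0 (x p0 s) s‖ ≤ ω' := by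
    have hf : ContinuousOn (Function.uncurry fun (p s : ℝ) => T p (x p0 s) s)
        (univ ×ˢ Icc 0 (2 * Real.pi)) := by
      apply Continuous.continuousOn
      exact hT.comp (continuous_fst.prodMk (((hx p0).1.1.comp continuous_snd).prodMk
        continuous_snd))
    obtain ⟨v, hv, hv2⟩ := isCompact_Icc.mem_uniformity_of_prod hf (mem_univ p0)
      (Metric.dist_mem_uniformity hω'0)
    rw [nhdsWithin_univ] at hv
    filter_upwards [hv] with p hp s
    have hper : Function.Periodic (fun s => T p (x p0 s) s - T p0 (x p0 s) s)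
        (2 * Real.pi) := by
      intro s
      have e1 := (hPC p p0).2 s
      have e2 := (hPC p0 p0).2 s
      simp only at e1 e2 ⊢
      rw [e1, e2]
    obtain ⟨s', hs', he⟩ := hper.exists_mem_Ico₀ Real.two_pi_pos s
    rw [he]
    have := hv2 p hp s' ⟨hs'.1, hs'.2.le⟩
    simp only [mem_setOf_eq] at this
    rw [← dist_eq_norm]
    exact le_of_lt this
  have hx0 : ∀ᶠ q : ℝ × ℝ in 𝓝 (p0, t0), dist (x p0 q.2) (x p0 t0) < ω / 2 := by
    have : Tendsto (fun q : ℝ × ℝ => x p0 q.2) (𝓝 (p0, t0)) (𝓝 (x p0 t0)) :=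
      ((hx p0).1.1.comp continuous_snd).tendsto (p0, t0)
    exact (Metric.tendsto_nhds.1 this) _ (by positivity)
  have hu' : ∀ᶠ q : ℝ × ℝ in 𝓝 (p0, t0), ∀ s, ‖T q.1 (x p0 s) s - T p0 (x p0 s) s‖ ≤ ω' :=
    (continuous_fst.tendsto (p0, t0)).eventually hu
  filter_upwards [hx0, hu'] with q hq1 hq2
  obtain ⟨p, t⟩ := q
  simp only at hq1 hq2 ⊢
  have hd2 : PC (fun s => T p (x p0 s) s - T p0 (x p0 s) s) := by
    refine ⟨(hPC p p0).1.sub (hPC p0 p0).1, fun s => ?_⟩
    have e1 := (hPC p p0).2 s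
    have e2 := (hPC p0 p0).2 s
    simp only at e1 e2 ⊢
    rw [e1, e2]
  have hd1 : PC (fun s => T p (x p s) s - T p (x p0 s) s) := by
    refine ⟨(hPC p p).1.sub (hPC p p0).1, fun s => ?_⟩
    have e1 := (hPC p p).2 s
    have e2 := (hPC p p0).2 s
    simp only at e1 e2 ⊢
    rw [e1, e2]
  have hd3 : PC (fun s => T p (x p s) s - T p0 (x p0 s) s) := by
    refine ⟨(hPC p p).1.sub (hPC p0 p0).1, fun s => ?_⟩
    have e1 := (hPC p p).2 s
    have e2 := (hPC p0 p0).2 s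
    simp only at e1 e2 ⊢
    rw [e1, e2]
  have hxd : PC (fun s => x p s - x p0 s) := by
    refine ⟨(hx p).1.1.sub (hx p0).1.1, fun s => ?_⟩
    have e1 := (hx p).1.2 s
    have e2 := (hx p0).1.2 s
    simp only at e1 e2 ⊢
    rw [e1, e2]
  have hN2 : N2 (fun s => T p (x p0 s) s - T p0 (x p0 s) s) ≤ ω' :=
    (h1 _ _ _ hd2 hd2).2.2.2.2.2.2.2 ω' hω'0.le hq2
  have hN3 : N2 (fun s => x p s - x p0 s) ≤ 4 / 3 * ω' := by
    have := h3 k ρ x0 (T p) hρ hρ1 (hTc p) (hTp p) (hTl p) (x p) (x p0)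
      (fun s => T p0 (x p0 s) s) (hx p) (hx p0).1 (hPC p0 p0) (hx p0).2 0
    simp only [sub_zero] at this
    linarith
  have hN1 : N2 (fun s => T p (x p s) s - T p (x p0 s) s) ≤ N2 (fun s => x p s - x p0 s) := by
    apply (h1 _ _ _ hd1 hxd).2.1
    intro s
    have := hTl p (x p s) (x p0 s) s
    have h0 : 0 ≤ ‖x p s - x p0 s‖ := norm_nonneg _
    linarith
  have hN4 : N2 (fun s => T p (x p s) s - T p0 (x p0 s) s) ≤ 7 / 3 * ω' := by
    have : (fun s => T p (x p s) s - T p0 (x p0 s) s) = fun s =>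
        (T p (x p s) s - T p (x p0 s) s) + (T p (x p0 s) s - T p0 (x p0 s) s) := by
      funext s
      abel
    rw [this]
    have := (h1 _ _ _ hd1 hd2).1
    linarith
  have hpt : ‖x p t - x p0 t‖ ≤ K * (7 / 3 * ω') := by
    have e1 : x p t - x p0 t = -Qo ρ (fun s => T p (x p s) s - T p0 (x p0 s) s) t := by
      rw [(h2 k ρ hρ hρ1 _ (hPC p p)).2.2.2.1 _ (hPC p0 p0) t, (hx p).2 t, (hx p0).2 t]
      abel
    rw [e1, norm_neg]
    refine ((h2 k ρ hρ hρ1 _ hd3).2.2.2.2.1 t).trans ?_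
    exact mul_le_mul_of_nonneg_left hN4 hK0
  have hKω : K * (7 / 3 * ω') < ω / 2 := by
    rw [hω']
    have : K * (7 / 3 * (ω / (8 * (K + 1)))) = 7 / 24 * ω * (K / (K + 1)) := by
      field_simp
      ring
    rw [this]
    have h5 : K / (K + 1) < 1 := by
      rw [div_lt_one (by linarith)]
      linarith
    nlinarith
  have h6 : dist (x p t) (x p0 t0) ≤ dist (x p t) (x p0 t) + dist (x p0 t) (x p0 t0) :=
    dist_triangle _ _ _
  rw [dist_eq_norm (x p t) (x p0 t)] at h6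
  linarith

end KV
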