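import Pool.Agent.Lib.KV.SpecM

set_option autoImplicit false

open Set Filter Topology Metric

namespace KV

namespace HolAux

/-- Cauchy-Schwarz on an interval. -/
theorem cs {f h : ℝ → ℝ} (hf : Continuous f) (hh : Continuous h) {a b : ℝ} (hab : a ≤ b) :
    (∫ s in a..b, f s * h s) ^ 2 ≤ (∫ s in a..b, f s ^ 2) * ∫ s in a..b, h s ^ 2 := by
  have key : ∀ x : ℝ, 0 ≤ (∫ s in a..b, h s ^ 2) * (x * x) +
      (2 * ∫ s in a..b, f s * h s) * x + ∫ s in a..b, f s ^ 2 := by
    intro x
    have h1 : 0 ≤ ∫ s in a..b, (f s + x * h s) ^ 2 :=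
      intervalIntegral.integral_nonneg hab fun s _ => sq_nonneg _
    have h2 : (∫ s in a..b, (f s + x * h s) ^ 2) = (∫ s in a..b, h s ^ 2) * (x * x) +
        (2 * ∫ s in a..b, f s * h s) * x + ∫ s in a..b, f s ^ 2 := by
      have e : (fun s => (f s + x * h s) ^ 2) =
          fun s => (x * x) * h s ^ 2 + (2 * x) * (f s * h s) + f s ^ 2 := by
        funext s; ring
      rw [e, intervalIntegral.integral_add, intervalIntegral.integral_add,
        intervalIntegral.integral_const_mul, intervalIntegral.integral_const_mul]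
      · ring
      all_goals exact Continuous.intervalIntegrable (by fun_prop) _ _
    rw [← h2]; exact h1
  have := discrim_le_zero key
  unfold discrim at this
  nlinarith [this]

noncomputable def ga (g : ℝ → ℝ) (a t : ℝ) : ℝ := ∫ s in (0 : ℝ)..1, g (t + a * s)

theorem ga_cont {g : ℝ → ℝ} (hg : Continuous g) : Continuous fun p : ℝ × ℝ => ga g p.1 p.2 := by
  unfold ga
  exact intervalIntegral.continuous_parametric_intervalIntegral_of_continuous'
    (f := fun (p : ℝ × ℝ) s => g (p.2 + p.1 * s)) (by
      unfold Function.uncurry; fun_prop) 0 1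

theorem ga_zero {g : ℝ → ℝ} (t : ℝ) : ga g 0 t = g t := by
  unfold ga; simp

theorem ga_per {g : ℝ → ℝ} (hg : Function.Periodic g (2 * Real.pi)) (a : ℝ) :
    Function.Periodic (ga g a) (2 * Real.pi) := by
  intro t
  unfold ga
  refine intervalIntegral.integral_congr fun s _ => ?_
  show g (t + 2 * Real.pi + a * s) = g (t + a * s)
  rw [show t + 2 * Real.pi + a * s = t + a * s + 2 * Real.pi by ring]
  exact hg _

theorem ga_eq {g : ℝ → ℝ} (hg : Continuous g) {a : ℝ} (ha : a ≠ 0) (t : ℝ) :
    ga g a t = a⁻¹ * ((∫ s in (0 : ℝ)..(t + a), g s) - ∫ s in (0 : ℝ)..t, g s) := by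
  unfold ga
  rw [intervalIntegral.integral_comp_add_mul (fun x => g x) ha t, smul_eq_mul]
  congr 1
  have := intervalIntegral.integral_interval_sub_left (hg.intervalIntegrable (μ := MeasureTheory.volume) 0 (t + a))
    (hg.intervalIntegrable 0 t)
  rw [this]
  simp

theorem ga_der {g : ℝ → ℝ} (hg : Continuous g) {a : ℝ} (ha : a ≠ 0) (t : ℝ) :
    HasDerivAt (ga g a) (a⁻¹ * (g (t + a) - g t)) t := by
  have hG : ∀ t : ℝ, HasDerivAt (fun x => ∫ s in (0 : ℝ)..x, g s) (g t) t := fun t =>
    intervalIntegral.integral_hasDerivAt_right (hg.intervalIntegrable _ _)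
      (hg.stronglyMeasurableAtFilter _ _) hg.continuousAt
  have h1 : HasDerivAt (fun x : ℝ => ∫ s in (0 : ℝ)..(x + a), g s) (g (t + a)) t := by
    have := (hG (t + a)).comp_add_const t a
    exact this
  have h2 := (h1.sub (hG t)).const_mul a⁻¹
  have e : ga g a = fun x => a⁻¹ * ((∫ s in (0 : ℝ)..(x + a), g s) - ∫ s in (0 : ℝ)..x, g s) :=
    funext fun x => ga_eq hg ha x
  rw [e]
  exact h2

end HolAux

open HolAux

theorem tHol : S_Hol := by
  intro g K hg hK hL
  obtain ⟨hc, hp⟩ := hg
  have hpi : 0 < Real.pi := Real.pi_pos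
  -- the derivative
  set d : ℝ → ℝ → ℝ := fun a t => a⁻¹ * (g (t + a) - g t) with hd
  have hdc : ∀ a, Continuous (d a) := fun a => by
    simp only [hd]; fun_prop
  have hdp : ∀ a, Function.Periodic (d a) (2 * Real.pi) := by
    intro a t
    simp only [hd]
    rw [show t + 2 * Real.pi + a = t + a + 2 * Real.pi by ring, hp, hp]
  have hd2 : ∀ a : ℝ, 0 < a → ∀ t : ℝ, (∫ s in t..(t + 2 * Real.pi), d a s ^ 2) ≤
      2 * Real.pi * K ^ 2 := by
    intro a ha t
    have hper : Function.Periodic (fun s => d a s ^ 2) (2 * Real.pi) := fun s => by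
      simp only [hdp a s]
    rw [hper.intervalIntegral_add_eq t 0, zero_add]
    have h1 := hL a
    have h0 : 0 ≤ N2 (fun s => g (s + a) - g s) := Real.sqrt_nonneg _
    have h2 : N2 (fun s => g (s + a) - g s) ^ 2 ≤ (K * |a|) ^ 2 :=
      pow_le_pow_left₀ h0 h1 2
    have h3 : N2 (fun s => g (s + a) - g s) ^ 2 =
        (2 * Real.pi)⁻¹ * ∫ s in (0 : ℝ)..(2 * Real.pi), (g (s + a) - g s) ^ 2 := by
      unfold N2 mn
      rw [Real.sq_sqrt, smul_eq_mul]
      · simp only [Real.norm_eq_abs, sq_abs]
      · rw [smul_eq_mul]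
        refine mul_nonneg (by positivity) ?_
        exact intervalIntegral.integral_nonneg (by positivity) fun s _ => by positivity
    have h4 : (∫ s in (0 : ℝ)..(2 * Real.pi), d a s ^ 2) =
        (a ^ 2)⁻¹ * ∫ s in (0 : ℝ)..(2 * Real.pi), (g (s + a) - g s) ^ 2 := by
      rw [← intervalIntegral.integral_const_mul]
      refine intervalIntegral.integral_congr fun s _ => ?_
      simp only [hd]
      rw [mul_pow, inv_pow]
    have h5 : (∫ s in (0 : ℝ)..(2 * Real.pi), (g (s + a) - g s) ^ 2) =
        2 * Real.pi * N2 (fun s => g (s + a) - g s) ^ 2 := by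
      rw [h3]; field_simp
    rw [h4, h5]
    have h6 : (K * |a|) ^ 2 = K ^ 2 * a ^ 2 := by rw [mul_pow, sq_abs]
    rw [h6] at h2
    have ha2 : 0 < a ^ 2 := by positivity
    calc (a ^ 2)⁻¹ * (2 * Real.pi * N2 (fun s => g (s + a) - g s) ^ 2)
        ≤ (a ^ 2)⁻¹ * (2 * Real.pi * (K ^ 2 * a ^ 2)) := by gcongr
      _ = 2 * Real.pi * K ^ 2 := by field_simp
  -- continuity in a
  have hgc := ga_cont hc
  have hga : ∀ a, Continuous (ga g a) := fun a => hgc.comp (by fun_prop : Continuous fun t : ℝ => (a, t))
  have hgt : ∀ t, Continuous fun a => ga g a t := fun t =>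
    hgc.comp (by fun_prop : Continuous fun a : ℝ => (a, t))
  constructor
  · -- Hölder
    have main : ∀ a : ℝ, 0 < a → ∀ t t' : ℝ, t' ≤ t → |t - t'| ≤ 1 →
        (ga g a t - ga g a t') ^ 2 ≤ (Real.sqrt (2 * Real.pi * |t - t'|) * K) ^ 2 := by
      intro a ha t t' htt h1
      have e1 : ga g a t - ga g a t' = ∫ s in t'..t, d a s := by
        rw [intervalIntegral.integral_eq_sub_of_hasDerivAt (fun x _ => ga_der hc ha.ne' x)]
        exact (hdc a).intervalIntegrable _ _
      have e2 := cs (hdc a) (continuous_const (y := (1 : ℝ))) htt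
      simp only [mul_one, one_pow] at e2
      rw [intervalIntegral.integral_const, smul_eq_mul, mul_one] at e2
      rw [e1]
      have habs : |t - t'| = t - t' := abs_of_nonneg (by linarith)
      rw [mul_pow, Real.sq_sqrt (by positivity), habs]
      have hle : (∫ s in t'..t, d a s ^ 2) ≤ ∫ s in t'..(t' + 2 * Real.pi), d a s ^ 2 := by
        have hsp := intervalIntegral.integral_add_adjacent_intervals
          (((hdc a).pow 2).intervalIntegrable (μ := MeasureTheory.volume) t' t)
          (((hdc a).pow 2).intervalIntegrable t (t' + 2 * Real.pi))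
        have hnn : 0 ≤ ∫ s in t..(t' + 2 * Real.pi), d a s ^ 2 := by
          refine intervalIntegral.integral_nonneg ?_ fun s _ => by positivity
          rw [habs] at h1
          have := Real.pi_gt_three
          linarith
        simp only [Pi.pow_apply] at hsp
        linarith
      have hle2 := hle.trans (hd2 a ha t')
      have htn : 0 ≤ t - t' := by linarith
      calc (∫ s in t'..t, d a s) ^ 2 ≤ (∫ s in t'..t, d a s ^ 2) * (t - t') := e2
        _ ≤ (2 * Real.pi * K ^ 2) * (t - t') := by gcongr
        _ = 2 * Real.pi * (t - t') * K ^ 2 := by ring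
    have main2 : ∀ t t' : ℝ, t' ≤ t → |t - t'| ≤ 1 →
        |g t - g t'| ≤ Real.sqrt (2 * Real.pi * |t - t'|) * K := by
      intro t t' htt h1
      have hlim : Tendsto (fun a => (ga g a t - ga g a t') ^ 2) (𝓝[>] 0)
          (𝓝 ((g t - g t') ^ 2)) := by
        have hcont : Continuous fun a => (ga g a t - ga g a t') ^ 2 :=
          ((hgt t).sub (hgt t')).pow 2
        have := hcont.tendsto 0
        rw [ga_zero, ga_zero] at this
        exact this.mono_left nhdsWithin_le_nhds
      have h2 : (g t - g t') ^ 2 ≤ (Real.sqrt (2 * Real.pi * |t - t'|) * K) ^ 2 := by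
        refine le_of_tendsto hlim ?_
        filter_upwards [self_mem_nhdsWithin] with a ha
        exact main a ha t t' htt h1
      exact abs_le_of_sq_le_sq h2 (by positivity)
    intro t t' h1
    rcases le_total t' t with h | h
    · exact main2 t t' h h1
    · rw [abs_sub_comm (g t), abs_sub_comm t]
      exact main2 t' t h (by rwa [abs_sub_comm])
  · -- sup bound
    intro t
    have hN : ∀ a, N2 (ga g a) = Real.sqrt ((2 * Real.pi)⁻¹ *
        ∫ s in (0 : ℝ)..(2 * Real.pi), ga g a s ^ 2) := by
      intro a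
      unfold N2 mn
      rw [smul_eq_mul]
      simp only [Real.norm_eq_abs, sq_abs]
    have hI : ∀ a, 0 ≤ ∫ s in (0 : ℝ)..(2 * Real.pi), ga g a s ^ 2 := fun a =>
      intervalIntegral.integral_nonneg (by positivity) fun s _ => by positivity
    have hN2 : ∀ a, N2 (ga g a) ^ 2 = (2 * Real.pi)⁻¹ *
        ∫ s in (0 : ℝ)..(2 * Real.pi), ga g a s ^ 2 := by
      intro a
      rw [hN, Real.sq_sqrt (mul_nonneg (by positivity) (hI a))]
    have hcN : Continuous fun a => N2 (ga g a) := by
      simp only [hN]
      refine Real.continuous_sqrt.comp (continuous_const.mul ?_)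
      exact intervalIntegral.continuous_parametric_intervalIntegral_of_continuous'
        (f := fun (a : ℝ) s => ga g a s ^ 2) (by
          unfold Function.uncurry; exact hgc.pow 2) 0 (2 * Real.pi)
    have main : ∀ a : ℝ, 0 < a → ga g a t ^ 2 ≤ N2 (ga g a) ^ 2 +
        4 * Real.pi * N2 (ga g a) * K := by
      intro a ha
      set J : ℝ := ∫ s in (t - 2 * Real.pi)..t, |ga g a s| * |d a s| with hJ
      have hper : Function.Periodic (fun s => ga g a s ^ 2) (2 * Real.pi) := fun s => by
        simp only [ga_per hp a s]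
      have hI2 : (∫ s in (t - 2 * Real.pi)..t, ga g a s ^ 2) =
          ∫ s in (0 : ℝ)..(2 * Real.pi), ga g a s ^ 2 := by
        have := hper.intervalIntegral_add_eq (t - 2 * Real.pi) 0
        rw [zero_add, sub_add_cancel] at this
        exact this
      have hD2 : (∫ s in (t - 2 * Real.pi)..t, d a s ^ 2) ≤ 2 * Real.pi * K ^ 2 := by
        have := hd2 a ha (t - 2 * Real.pi)
        rwa [sub_add_cancel] at this
      have hJle : J ≤ 2 * Real.pi * (N2 (ga g a) * K) := by
        have h1 := cs (f := fun s => |ga g a s|) (h := fun s => |d a s|) (hga a).abs (hdc a).abs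
          (show t - 2 * Real.pi ≤ t by linarith)
        simp only [sq_abs] at h1
        rw [← hJ, hI2] at h1
        have h2 : J ^ 2 ≤ (2 * Real.pi * (N2 (ga g a) * K)) ^ 2 := by
          calc J ^ 2 ≤ (∫ s in (0 : ℝ)..(2 * Real.pi), ga g a s ^ 2) *
                ∫ s in (t - 2 * Real.pi)..t, d a s ^ 2 := h1
            _ ≤ (∫ s in (0 : ℝ)..(2 * Real.pi), ga g a s ^ 2) * (2 * Real.pi * K ^ 2) :=
                mul_le_mul_of_nonneg_left hD2 (hI a)
            _ = (2 * Real.pi * (N2 (ga g a) * K)) ^ 2 := by
                have h3 : (∫ s in (0 : ℝ)..(2 * Real.pi), ga g a s ^ 2) =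
                    2 * Real.pi * N2 (ga g a) ^ 2 := by
                  rw [hN2]; field_simp
                rw [h3]; ring
        have h0 : 0 ≤ 2 * Real.pi * (N2 (ga g a) * K) := by
          have : 0 ≤ N2 (ga g a) := Real.sqrt_nonneg _
          positivity
        exact (abs_le_of_sq_le_sq' h2 h0).2
      have hpt : ∀ s ∈ Icc (t - 2 * Real.pi) t, ga g a t ^ 2 ≤ ga g a s ^ 2 + 2 * J := by
        intro s hs
        have hder : ∀ x, HasDerivAt (fun x => ga g a x ^ 2) (2 * (ga g a x * d a x)) x := by
          intro x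
          have h1 := (ga_der hc ha.ne' x).pow 2
          have h2 : HasDerivAt (fun x => ga g a x ^ 2)
              (((2 : ℕ) : ℝ) * ga g a x ^ (2 - 1) * (a⁻¹ * (g (x + a) - g x))) x := h1
          refine h2.congr_deriv ?_
          show ((2 : ℕ) : ℝ) * ga g a x ^ (2 - 1) * (a⁻¹ * (g (x + a) - g x)) =
            2 * (ga g a x * (a⁻¹ * (g (x + a) - g x)))
          norm_num
          ring
        have hcd : Continuous fun x => 2 * (ga g a x * d a x) :=
          continuous_const.mul ((hga a).mul (hdc a))
        have e1 : ga g a t ^ 2 - ga g a s ^ 2 = ∫ x in s..t, 2 * (ga g a x * d a x) := by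
          rw [intervalIntegral.integral_eq_sub_of_hasDerivAt (fun x _ => hder x)]
          exact hcd.intervalIntegrable _ _
        have hca : Continuous fun x => |ga g a x| * |d a x| := (hga a).abs.mul (hdc a).abs
        have e2 : (∫ x in s..t, 2 * (ga g a x * d a x)) ≤ ∫ x in s..t, 2 * (|ga g a x| * |d a x|) := by
          refine intervalIntegral.integral_mono_on hs.2 (hcd.intervalIntegrable _ _)
            ((continuous_const.mul hca).intervalIntegrable _ _) fun x _ => ?_
          rw [← abs_mul]
          have := le_abs_self (ga g a x * d a x)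
          linarith
        have e3 : (∫ x in s..t, |ga g a x| * |d a x|) ≤ J := by
          have hsp := intervalIntegral.integral_add_adjacent_intervals
            (hca.intervalIntegrable (μ := MeasureTheory.volume) (t - 2 * Real.pi) s)
            (hca.intervalIntegrable s t)
          have hnn : 0 ≤ ∫ x in (t - 2 * Real.pi)..s, |ga g a x| * |d a x| :=
            intervalIntegral.integral_nonneg hs.1 fun x _ => by positivity
          rw [hJ]
          linarith
        have e4 : (∫ x in s..t, 2 * (|ga g a x| * |d a x|)) =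
            2 * ∫ x in s..t, |ga g a x| * |d a x| := intervalIntegral.integral_const_mul _ _
        rw [e4] at e2
        linarith
      have hsqc : Continuous fun s => ga g a s ^ 2 := (hga a).pow 2
      have hint : (∫ _s in (t - 2 * Real.pi)..t, ga g a t ^ 2) ≤
          ∫ s in (t - 2 * Real.pi)..t, (ga g a s ^ 2 + 2 * J) := by
        refine intervalIntegral.integral_mono_on (by linarith)
          (continuous_const.intervalIntegrable _ _)
          ((hsqc.add continuous_const).intervalIntegrable _ _) hpt
      rw [intervalIntegral.integral_const, intervalIntegral.integral_add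
        (hsqc.intervalIntegrable _ _) (continuous_const.intervalIntegrable _ _),
        intervalIntegral.integral_const, smul_eq_mul, smul_eq_mul, hI2] at hint
      have h4 : (∫ s in (0 : ℝ)..(2 * Real.pi), ga g a s ^ 2) =
          2 * Real.pi * N2 (ga g a) ^ 2 := by
        rw [hN2]; field_simp
      rw [h4] at hint
      have h5 : t - (t - 2 * Real.pi) = 2 * Real.pi := by ring
      rw [h5] at hint
      have h6 : ga g a t ^ 2 ≤ N2 (ga g a) ^ 2 + 2 * J := by
        have h2p : 0 < 2 * Real.pi := by positivity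
        have : 2 * Real.pi * ga g a t ^ 2 ≤ 2 * Real.pi * (N2 (ga g a) ^ 2 + 2 * J) := by
          linarith
        exact le_of_mul_le_mul_left this h2p
      linarith
    have e0 : ga g 0 = g := funext fun s => ga_zero s
    have hl1 : Tendsto (fun a => ga g a t ^ 2) (𝓝[>] 0) (𝓝 (g t ^ 2)) := by
      have hcc : Continuous fun a => ga g a t ^ 2 := (hgt t).pow 2
      have := hcc.tendsto 0
      rw [ga_zero] at this
      exact this.mono_left nhdsWithin_le_nhds
    have hl2 : Tendsto (fun a => N2 (ga g a) ^ 2 + 4 * Real.pi * N2 (ga g a) * K) (𝓝[>] 0)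
        (𝓝 (N2 g ^ 2 + 4 * Real.pi * N2 g * K)) := by
      have hcc : Continuous fun a => N2 (ga g a) ^ 2 + 4 * Real.pi * N2 (ga g a) * K :=
        (hcN.pow 2).add ((continuous_const.mul hcN).mul continuous_const)
      have := hcc.tendsto 0
      rw [e0] at this
      exact this.mono_left nhdsWithin_le_nhds
    refine le_of_tendsto_of_tendsto hl1 hl2 ?_
    filter_upwards [self_mem_nhdsWithin] with a ha
    exact main a ha

end KV
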