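import Pool.Agent.Lib.KV.SpecM

set_option autoImplicit false

open Set Filter Topology Metric

namespace KV

open KP

private theorem KPc_unif {k : ℕ} {f : ℝ → ℂ → Cn k}
    (hf : ContinuousOn (fun q : ℝ × ℂ => f q.1 q.2) (Icc (0 : ℝ) 1 ×ˢ closedBall (0 : ℂ) 1))
    {ε : ℝ} (hε : 0 < ε) : ∃ δ > 0, ∀ p ∈ Icc (0 : ℝ) 1, ∀ p' ∈ Icc (0 : ℝ) 1, |p - p'| < δ →
      ∀ ζ ∈ closedBall (0 : ℂ) 1, dist (f p ζ) (f p' ζ) < ε := by
  have h1 : IsCompact (Icc (0 : ℝ) 1 ×ˢ closedBall (0 : ℂ) 1) :=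
    isCompact_Icc.prod (isCompact_closedBall 0 1)
  have h2 := h1.uniformContinuousOn_of_continuous hf
  rw [Metric.uniformContinuousOn_iff] at h2
  obtain ⟨δ, hδ, h3⟩ := h2 ε hε
  refine ⟨δ, hδ, fun p hp p' hp' hpp ζ hζ => ?_⟩
  refine h3 (p, ζ) ⟨hp, hζ⟩ (p', ζ) ⟨hp', hζ⟩ ?_
  rw [Prod.dist_eq, dist_self, Real.dist_eq]
  exact max_lt hpp hδ

theorem tKPc : S_KPc := by
  intro k A W f hA hT hf hd hW hb h0
  have hs : Icc (0 : ℝ) 1 ⊆ {p | MapsTo (f p) (closedBall 0 1) A} := by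
    apply IsClosed.Icc_subset_of_forall_exists_gt
    · apply IsSeqClosed.isClosed
      intro p p0 hp hp0
      have hI : p0 ∈ Icc (0 : ℝ) 1 :=
        isClosed_Icc.mem_of_tendsto hp0 (Eventually.of_forall fun j => (hp j).2)
      refine ⟨?_, hI⟩
      have hc0 : ContinuousOn (f p0) (closedBall 0 1) := by
        have : ContinuousOn (fun ζ : ℂ => ((p0, ζ) : ℝ × ℂ)) (closedBall 0 1) := by fun_prop
        exact hf.comp this (fun ζ hζ => ⟨hI, hζ⟩)
      have hball : MapsTo (f p0) (ball 0 1) A := by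
        refine hT (fun j => f (p j)) (f p0) (fun j => hd _ (hp j).2)
          (fun j => (hp j).1.mono_left ball_subset_closedBall) (hd _ hI) ?_
          ((hW _ hI).mono_left ball_subset_closedBall) ?_
        · intro Q hQ hQc
          rw [Metric.tendstoUniformlyOn_iff]
          intro ε hε
          obtain ⟨δ, hδ, h3⟩ := KPc_unif hf hε
          have h4 : ∀ᶠ j in atTop, dist (p j) p0 < δ := (Metric.tendsto_nhds.1 hp0) δ hδ
          filter_upwards [h4] with j hj ζ hζ
          rw [Real.dist_eq, abs_sub_comm] at hj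
          exact h3 p0 hI (p j) (hp j).2 hj ζ (ball_subset_closedBall (hQ hζ))
        · have h1 : (1 : ℂ) ∈ closedBall (0 : ℂ) 1 := by simp
          have h2 : f p0 1 ∈ A := hb p0 hI 1 (by simp)
          have h3 : ∀ᶠ ζ in 𝓝[closedBall (0 : ℂ) 1] 1, f p0 ζ ∈ A :=
            (hc0 1 h1) (hA.mem_nhds h2)
          have h4 : (𝓝[ball (0 : ℂ) 1] (1 : ℂ)).NeBot := by
            rw [← mem_closure_iff_nhdsWithin_neBot, closure_ball (0 : ℂ) one_ne_zero]
            exact h1
          have h5 : ∀ᶠ ζ in 𝓝[ball (0 : ℂ) 1] 1, f p0 ζ ∈ A :=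
            h3.filter_mono (nhdsWithin_mono _ ball_subset_closedBall)
          obtain ⟨t, ht1, ht2⟩ := (h5.and self_mem_nhdsWithin).exists
          exact ⟨t, ht2, ht1⟩
      intro ζ hζ
      rcases (mem_closedBall_zero_iff.1 hζ).lt_or_eq with h | h
      · exact hball (mem_ball_zero_iff.2 h)
      · exact hb p0 hI ζ h
    · exact h0
    · rintro x ⟨hx, hx0, hx1⟩ y hy
      have hxI : x ∈ Icc (0 : ℝ) 1 := ⟨hx0, hx1.le⟩
      have hc0 : ContinuousOn (f x) (closedBall 0 1) := by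
        have : ContinuousOn (fun ζ : ℂ => ((x, ζ) : ℝ × ℂ)) (closedBall 0 1) := by fun_prop
        exact hf.comp this (fun ζ hζ => ⟨hxI, hζ⟩)
      have hK : IsCompact (f x '' closedBall 0 1) := (isCompact_closedBall 0 1).image_of_continuousOn hc0
      obtain ⟨δ, hδ, hδA⟩ := hK.exists_thickening_subset_open hA (image_subset_iff.2 hx)
      obtain ⟨η, hη, h3⟩ := KPc_unif hf hδ
      have hyx : x < y := hy
      obtain ⟨p, hp1, hp2⟩ := exists_between (show x < min y (min 1 (x + η)) from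
        lt_min hyx (lt_min hx1 (by linarith)))
      have hp3 : p < y := hp2.trans_le (min_le_left _ _)
      have hp4 : p < 1 := hp2.trans_le ((min_le_right _ _).trans (min_le_left _ _))
      have hp5 : p < x + η := hp2.trans_le ((min_le_right _ _).trans (min_le_right _ _))
      refine ⟨p, fun ζ hζ => ?_, hp1, hp3.le⟩
      apply hδA
      rw [mem_thickening_iff]
      refine ⟨f x ζ, mem_image_of_mem _ hζ, ?_⟩
      refine h3 p ⟨by linarith, hp4.le⟩ x hxI ?_ ζ hζ
      rw [abs_of_pos (by linarith)]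
      linarith
  exact hs

end KV
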