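import Pool.Agent.Lib.KV.SpecM

/-!
# KV, block M: `MnB`, the position of the centre is bounded
-/

set_option autoImplicit false

open Set Filter Topology Metric

namespace KV

open KP

namespace MnBAux

variable {F : Type} [NormedAddCommGroup F] [NormedSpace ℝ F]

omit [NormedSpace ℝ F] in
private theorem ii {u : ℝ → F} (hu : Continuous u) :
    IntervalIntegrable u MeasureTheory.volume 0 (2 * Real.pi) := hu.intervalIntegrable _ _

private theorem mn_add {u v : ℝ → F} (hu : Continuous u) (hv : Continuous v) :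
    mn (fun s => u s + v s) = mn u + mn v := by
  unfold mn
  rw [intervalIntegral.integral_add (ii hu) (ii hv), smul_add]

private theorem mn_sub {u v : ℝ → F} (hu : Continuous u) (hv : Continuous v) :
    mn (fun s => u s - v s) = mn u - mn v := by
  unfold mn
  rw [intervalIntegral.integral_sub (ii hu) (ii hv), smul_sub]

private theorem mn_const (c : F) [CompleteSpace F] : mn (fun _ => c) = c := by
  unfold mn
  rw [intervalIntegral.integral_const, sub_zero, smul_smul, inv_mul_cancel₀, one_smul]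
  have := Real.pi_pos
  positivity

private theorem mn_mono {u v : ℝ → ℝ} (hu : Continuous u) (hv : Continuous v)
    (h : ∀ s, u s ≤ v s) : mn u ≤ mn v := by
  have hp := Real.pi_pos
  unfold mn
  rw [smul_eq_mul, smul_eq_mul]
  refine mul_le_mul_of_nonneg_left ?_ (by positivity)
  exact intervalIntegral.integral_mono_on (by positivity) (ii hu) (ii hv) (fun s _ => h s)

private theorem norm_mn_le {u : ℝ → F} {g : ℝ → ℝ} (hu : Continuous u) (hg : Continuous g)
    (h : ∀ s, ‖u s‖ ≤ g s) : ‖mn u‖ ≤ mn g := by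
  have hp := Real.pi_pos
  refine le_trans ?_ (mn_mono hu.norm hg h)
  unfold mn
  rw [norm_smul, smul_eq_mul, Real.norm_of_nonneg (by positivity)]
  refine mul_le_mul_of_nonneg_left ?_ (by positivity)
  exact intervalIntegral.norm_integral_le_integral_norm (by positivity)

private theorem mn_smul_const {g : ℝ → ℝ} (c : F) [CompleteSpace F] :
    mn (fun s => g s • c) = mn g • c := by
  unfold mn
  rw [intervalIntegral.integral_smul_const, smul_assoc]

private theorem mn_const_mul (a : ℝ) {g : ℝ → ℝ} :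
    mn (fun s => a * g s) = a * mn g := by
  unfold mn
  rw [intervalIntegral.integral_const_mul, smul_eq_mul, smul_eq_mul]
  ring

private theorem mn_clm {G : Type} [NormedAddCommGroup G] [NormedSpace ℝ G] [CompleteSpace F]
    [CompleteSpace G] (A : F →L[ℝ] G) {u : ℝ → F} (hu : Continuous u) :
    mn (fun s => A (u s)) = A (mn u) := by
  unfold mn
  rw [ContinuousLinearMap.intervalIntegral_comp_comm A (ii hu), map_smul]

private theorem mn_nonneg {u : ℝ → ℝ} (h : ∀ s, 0 ≤ u s) : 0 ≤ mn u := by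
  have hp := Real.pi_pos
  unfold mn
  rw [smul_eq_mul]
  refine mul_nonneg (by positivity) ?_
  exact intervalIntegral.integral_nonneg (by positivity) (fun s _ => h s)

private theorem N2_sq (u : ℝ → F) : N2 u ^ 2 = mn (fun s => ‖u s‖ ^ 2) := by
  unfold N2
  exact Real.sq_sqrt (mn_nonneg fun s => by positivity)

end MnBAux

open MnBAux

theorem tMnB (h1 : S_NN) (h2 : S_QQ) (h3 : S_Tn) (h4 : S_ThP) (h5 : S_Est) : S_MnB := by
  intro k A x0 φ y ρ1 R1 ρ2 C R θ ε τ hB hR η hη ρ hρ hρ' x hx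
  obtain ⟨e1, e2, -⟩ := h5 k A x0 φ y ρ1 R1 ρ2 C R θ ε τ hB hR η hη ρ hρ hρ' x hx
  have hR1 : Rg k ρ1 R1 ρ2 C R θ ε 1 :=
    ⟨hR.hR, hR.hRR, hR.hRs, hR.hθ, hR.hθ1, hR.hε, hR.hεR, zero_le_one, le_rfl⟩
  obtain ⟨t1, -, t3, t4⟩ := h4 k A x0 φ y ρ1 R1 ρ2 C R θ ε hB hR1
  have hτI : τ ∈ Icc (0 : ℝ) 1 := ⟨hR.hτ, hR.hτ1⟩
  obtain ⟨⟨hxc, hxp⟩, hxe⟩ := hx
  have hθ := hR.hθ
  have hRp := hR.hR
  have hC : 1 ≤ C := hB.hC
  -- continuity of the right hand side
  have hTc : Continuous (fun s => Th φ y R θ ε τ η (x s) s) := by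
    have : Continuous (fun s : ℝ => ((τ, η, x s, s) : ℝ × Ek k × Ek k × ℝ)) := by fun_prop
    exact t4.comp_continuous this (fun s => hτI)
  have hTp : Function.Periodic (fun s => Th φ y R θ ε τ η (x s) s) (2 * Real.pi) := by
    intro s
    show Th φ y R θ ε τ η (x (s + 2 * Real.pi)) (s + 2 * Real.pi) = _
    rw [hxp s]
    exact t3 τ η (x s) s
  obtain ⟨⟨htnc, -⟩, htn01, -, htnm, -⟩ := h3 θ hθ hR.hθ1
  obtain ⟨⟨htnc', -⟩, htn01', -, htnm', -⟩ := h3 (θ / 2) (by linarith) (by linarith [hR.hθ1])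
  -- mean zero
  obtain ⟨q1, q2, -⟩ := h2 k ρ hρ hρ' (fun s => Th φ y R θ ε τ η (x s) s) ⟨hTc, hTp⟩
  have hxm : mn (fun s => x s - x0) = 0 := by
    have : (fun s => x s - x0) =
        fun s => (0 : Ek k) - Qo ρ (fun s => Th φ y R θ ε τ η (x s) s) s := by
      funext s
      rw [hxe s]
      abel
    rw [this, mn_sub continuous_const q1.1, q2, sub_zero, mn_const]
  -- continuity of φ
  have hφc : Continuous φ := by
    have : LipschitzWith (1 / 40) φ := by
      refine LipschitzWith.of_dist_le_mul fun a b => ?_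
      rw [dist_eq_norm, dist_eq_norm]
      have := hB.lφ a b
      simpa using this
    exact this.continuous
  have hφx : Continuous (fun s => φ (x s)) := hφc.comp hxc
  have hyc : Continuous (fun s => y (x s) (ε + τ * (R - ε) * tn θ s)) := by
    have : (fun s => y (x s) (ε + τ * (R - ε) * tn θ s)) =
        fun s => Th φ y R θ ε τ η (x s) s - φ (x s) - tn (θ / 2) s • η := by
      funext s
      unfold Th
      abel
    rw [this]
    exact (hTc.sub (hφc.comp hxc)).sub (htnc'.smul continuous_const)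
  -- decomposition
  have hdec : mn (fun s => Th φ y R θ ε τ η (x s) s) =
      mn (fun s => φ (x s)) + mn (fun s => y (x s) (ε + τ * (R - ε) * tn θ s)) +
        mn (tn (θ / 2)) • η := by
    have hη' : Continuous (fun s => tn (θ / 2) s • η) := htnc'.smul continuous_const
    have hs : Continuous (fun s => φ (x s) + y (x s) (ε + τ * (R - ε) * tn θ s)) := hφx.add hyc
    rw [← mn_smul_const, ← mn_add hφx hyc, ← mn_add hs hη']
    rfl
  obtain ⟨A0, hA0⟩ := hB.sφ
  -- points in the ball
  have hmin := hR.hRs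
  have hin : ∀ s, x s ∈ closedBall x0 ρ1 := by
    intro s
    rw [mem_closedBall, dist_eq_norm]
    refine (e2 s).trans ?_
    have h6 : min ρ1 ρ2 ≤ ρ1 := min_le_left _ _
    have h7 : 0 ≤ ((k : ℝ) + 1) * (C + 1) * R := by positivity
    nlinarith
  have hx0in : x0 ∈ closedBall x0 ρ1 := by
    rw [mem_closedBall, dist_self]; exact hB.hρ1.le
  -- first term
  have hxs : Continuous (fun s => x s - x0) := hxc.sub continuous_const
  have hAx : Continuous (fun s => A0 (x s - x0)) := A0.continuous.comp hxs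
  have f1 : mn (fun s => φ (x s)) - φ x0 = mn (fun s => φ (x s) - φ x0 - A0 (x s - x0)) := by
    rw [mn_sub (u := fun s => φ (x s) - φ x0) (hφx.sub continuous_const)
      hAx, mn_sub (u := fun s => φ (x s)) hφx continuous_const,
      mn_const, mn_clm A0 hxs, hxm, map_zero, sub_zero]
  have f2 : ‖mn (fun s => φ (x s)) - φ x0‖ ≤ 9 * C * (C + 1) ^ 2 * R ^ 2 * θ := by
    rw [f1]
    have g1 : ‖mn (fun s => φ (x s) - φ x0 - A0 (x s - x0))‖ ≤
        mn (fun s => C * ‖x s - x0‖ ^ 2) := by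
      refine norm_mn_le ((hφx.sub continuous_const).sub hAx)
        (by fun_prop) fun s => ?_
      have := hA0 (x s) (hin s) x0 hx0in
      rw [sub_self, norm_zero, add_zero] at this
      calc _ ≤ _ := this
        _ = _ := by ring
    refine g1.trans ?_
    rw [mn_const_mul, ← N2_sq]
    have g2 : 0 ≤ N2 (fun s => x s - x0) := Real.sqrt_nonneg _
    have g3 : N2 (fun s => x s - x0) ^ 2 ≤ (3 * (C + 1) * R * Real.sqrt θ) ^ 2 :=
      pow_le_pow_left₀ g2 e1 2
    have g4 : (3 * (C + 1) * R * Real.sqrt θ) ^ 2 = 9 * (C + 1) ^ 2 * R ^ 2 * θ := by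
      rw [mul_pow, Real.sq_sqrt hθ.le]; ring
    rw [g4] at g3
    calc C * N2 (fun s => x s - x0) ^ 2 ≤ C * (9 * (C + 1) ^ 2 * R ^ 2 * θ) :=
          mul_le_mul_of_nonneg_left g3 (by linarith)
      _ = _ := by ring
  -- second term
  have hεR : ε ≤ R := by
    have := hR.hεR
    have := hR.hθ1
    nlinarith
  have f3 : ‖mn (fun s => y (x s) (ε + τ * (R - ε) * tn θ s))‖ ≤ 2 * C * R * θ := by
    have g1 : ‖mn (fun s => y (x s) (ε + τ * (R - ε) * tn θ s))‖ ≤
        mn (fun s => C * (ε + τ * (R - ε) * tn θ s)) := by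
      refine norm_mn_le hyc (by fun_prop) fun s => ?_
      have h6 := t1 τ hτI s
      exact hB.by' (x s) _ ⟨lt_of_lt_of_le hR.hε h6.1, lt_of_le_of_lt h6.2 hR.hRR⟩
    refine g1.trans ?_
    rw [mn_const_mul, mn_add (u := fun _ => ε) continuous_const (by fun_prop), mn_const,
      mn_const_mul]
    have h6 : 0 ≤ mn (tn θ) := mn_nonneg fun s => (htn01 s).1
    have h7 : τ * (R - ε) ≤ R := by
      have h8 : 0 ≤ R - ε := by linarith
      have := mul_le_mul_of_nonneg_right hR.hτ1 h8
      have := hR.hε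
      linarith
    have h8 : τ * (R - ε) * mn (tn θ) ≤ R * (θ / 2) :=
      mul_le_mul h7 htnm h6 hRp.le
    have h9 : ε + τ * (R - ε) * mn (tn θ) ≤ 2 * (R * θ) := by
      have := hR.hεR
      have h10 : 0 ≤ R * θ := by positivity
      linarith
    calc C * (ε + τ * (R - ε) * mn (tn θ)) ≤ C * (2 * (R * θ)) :=
          mul_le_mul_of_nonneg_left h9 (by linarith)
      _ = _ := by ring
  -- third term
  have f4 : ‖mn (tn (θ / 2)) • η‖ ≤ R * θ := by
    have h6 : 0 ≤ mn (tn (θ / 2)) := mn_nonneg fun s => (htn01' s).1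
    rw [norm_smul, Real.norm_of_nonneg h6, mul_comm]
    exact mul_le_mul hη (by linarith) h6 hRp.le
  rw [hdec]
  have hsum : mn (fun s => φ (x s)) + mn (fun s => y (x s) (ε + τ * (R - ε) * tn θ s)) +
      mn (tn (θ / 2)) • η - φ x0 = (mn (fun s => φ (x s)) - φ x0) +
        mn (fun s => y (x s) (ε + τ * (R - ε) * tn θ s)) + mn (tn (θ / 2)) • η := by abel
  rw [hsum]
  refine (norm_add₃_le).trans ?_
  calc _ ≤ 9 * C * (C + 1) ^ 2 * R ^ 2 * θ + 2 * C * R * θ + R * θ := by linarith
    _ = _ := by ring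

end KV
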