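import Pool.Agent.Lib.KV.SpecM

/-!
# KV, block M: `MnL`, dependence of the centre on the shift
-/

set_option autoImplicit false

open Set Filter Topology Metric

namespace KV

open KP

namespace MnLAux

variable {F : Type} [NormedAddCommGroup F] [NormedSpace ℝ F]

omit [NormedSpace ℝ F] in
private theorem ii {u : ℝ → F} (hu : Continuous u) :
    IntervalIntegrable u MeasureTheory.volume 0 (2 * Real.pi) := hu.intervalIntegrable _ _

private theorem mn_add {u v : ℝ → F} (hu : Continuous u) (hv : Continuous v) :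
    mn (fun s => u s + v s) = mn u + mn v := by
  unfold mn
  rw [intervalIntegral.integral_add (ii hu) (ii hv), smul_add]

private theorem mn_sub {u v : ℝ → F} (hu : Continuous u) (hv : Continuous v) :
    mn (fun s => u s - v s) = mn u - mn v := by
  unfold mn
  rw [intervalIntegral.integral_sub (ii hu) (ii hv), smul_sub]

private theorem mn_const (c : F) [CompleteSpace F] : mn (fun _ => c) = c := by
  unfold mn
  rw [intervalIntegral.integral_const, sub_zero, smul_smul, inv_mul_cancel₀, one_smul]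
  have := Real.pi_pos
  positivity

private theorem mn_mono {u v : ℝ → ℝ} (hu : Continuous u) (hv : Continuous v)
    (h : ∀ s, u s ≤ v s) : mn u ≤ mn v := by
  have hp := Real.pi_pos
  unfold mn
  rw [smul_eq_mul, smul_eq_mul]
  refine mul_le_mul_of_nonneg_left ?_ (by positivity)
  exact intervalIntegral.integral_mono_on (by positivity) (ii hu) (ii hv) (fun s _ => h s)

private theorem norm_mn_le {u : ℝ → F} {g : ℝ → ℝ} (hu : Continuous u) (hg : Continuous g)
    (h : ∀ s, ‖u s‖ ≤ g s) : ‖mn u‖ ≤ mn g := by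
  have hp := Real.pi_pos
  refine le_trans ?_ (mn_mono hu.norm hg h)
  unfold mn
  rw [norm_smul, smul_eq_mul, Real.norm_of_nonneg (by positivity)]
  refine mul_le_mul_of_nonneg_left ?_ (by positivity)
  exact intervalIntegral.norm_integral_le_integral_norm (by positivity)

private theorem mn_smul_const {g : ℝ → ℝ} (c : F) [CompleteSpace F] :
    mn (fun s => g s • c) = mn g • c := by
  unfold mn
  rw [intervalIntegral.integral_smul_const, smul_assoc]

private theorem mn_const_mul (a : ℝ) {g : ℝ → ℝ} :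
    mn (fun s => a * g s) = a * mn g := by
  unfold mn
  rw [intervalIntegral.integral_const_mul, smul_eq_mul, smul_eq_mul]
  ring

private theorem mn_clm {G : Type} [NormedAddCommGroup G] [NormedSpace ℝ G] [CompleteSpace F]
    [CompleteSpace G] (A : F →L[ℝ] G) {u : ℝ → F} (hu : Continuous u) :
    mn (fun s => A (u s)) = A (mn u) := by
  unfold mn
  rw [ContinuousLinearMap.intervalIntegral_comp_comm A (ii hu), map_smul]

private theorem mn_nonneg {u : ℝ → ℝ} (h : ∀ s, 0 ≤ u s) : 0 ≤ mn u := by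
  have hp := Real.pi_pos
  unfold mn
  rw [smul_eq_mul]
  refine mul_nonneg (by positivity) ?_
  exact intervalIntegral.integral_nonneg (by positivity) (fun s _ => h s)

private theorem N2_sq (u : ℝ → F) : N2 u ^ 2 = mn (fun s => ‖u s‖ ^ 2) := by
  unfold N2
  exact Real.sq_sqrt (mn_nonneg fun s => by positivity)


private theorem mn_mono' {u v : ℝ → ℝ}
    (hu : IntervalIntegrable u MeasureTheory.volume 0 (2 * Real.pi))
    (hv : IntervalIntegrable v MeasureTheory.volume 0 (2 * Real.pi))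
    (h : ∀ s, u s ≤ v s) : mn u ≤ mn v := by
  have hp := Real.pi_pos
  unfold mn
  rw [smul_eq_mul, smul_eq_mul]
  refine mul_le_mul_of_nonneg_left ?_ (by positivity)
  exact intervalIntegral.integral_mono_on (by positivity) hu hv (fun s _ => h s)

private theorem norm_mn_le' {u : ℝ → F} {g : ℝ → ℝ} (hu : Continuous u)
    (hg : IntervalIntegrable g MeasureTheory.volume 0 (2 * Real.pi))
    (h : ∀ s, ‖u s‖ ≤ g s) : ‖mn u‖ ≤ mn g := by
  have hp := Real.pi_pos
  refine le_trans ?_ (mn_mono' (ii hu.norm) hg h)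
  unfold mn
  rw [norm_smul, smul_eq_mul, Real.norm_of_nonneg (by positivity)]
  refine mul_le_mul_of_nonneg_left ?_ (by positivity)
  exact intervalIntegral.norm_integral_le_integral_norm (by positivity)

private theorem mn_add' {u v : ℝ → ℝ}
    (hu : IntervalIntegrable u MeasureTheory.volume 0 (2 * Real.pi))
    (hv : IntervalIntegrable v MeasureTheory.volume 0 (2 * Real.pi)) :
    mn (fun s => u s + v s) = mn u + mn v := by
  unfold mn
  rw [intervalIntegral.integral_add hu hv, smul_add]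

private theorem ii_ite {θ : ℝ} {g : ℝ → ℝ} (hg : Continuous g) (ht : Continuous (tn θ)) :
    IntervalIntegrable (fun s => if 0 < tn θ s then g s else 0) MeasureTheory.volume 0
      (2 * Real.pi) := by
  have hp : (0 : ℝ) ≤ 2 * Real.pi := by have := Real.pi_pos; positivity
  have hm : MeasurableSet {s : ℝ | 0 < tn θ s} :=
    (isOpen_lt continuous_const ht).measurableSet
  have h1 := (intervalIntegrable_iff_integrableOn_Ioc_of_le hp).1 (ii hg)
  refine (intervalIntegrable_iff_integrableOn_Ioc_of_le hp).2 ?_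
  have h2 := MeasureTheory.Integrable.indicator h1 hm
  refine h2.congr (Filter.Eventually.of_forall fun s => ?_)
  simp only [Set.indicator_apply, Set.mem_ofPred_eq]

end MnLAux

open MnLAux

theorem tMnL (h1 : S_NN) (h2 : S_QQ) (h3 : S_BisU) (h4 : S_Tn) (h5 : S_ThP) (h6 : S_Est) :
    S_MnL := by
  intro k A x0 φ y ρ1 R1 ρ2 C R θ ε hB hR hCR hyε η η' hη hη' ρ hρ hρ' x x' hx hx'
  obtain ⟨e1, e2, -⟩ := h6 k A x0 φ y ρ1 R1 ρ2 C R θ ε 1 hB hR η hη ρ hρ hρ' x hx
  obtain ⟨e1', e2', -⟩ := h6 k A x0 φ y ρ1 R1 ρ2 C R θ ε 1 hB hR η' hη' ρ hρ hρ' x' hx'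
  obtain ⟨t1, t2, t3, t4⟩ := h5 k A x0 φ y ρ1 R1 ρ2 C R θ ε hB hR
  have hτI : (1 : ℝ) ∈ Icc (0 : ℝ) 1 := ⟨zero_le_one, le_rfl⟩
  have hθ := hR.hθ
  have hRp := hR.hR
  have hC : 1 ≤ C := hB.hC
  obtain ⟨hxc, hxp⟩ := hx.1
  obtain ⟨hxc', hxp'⟩ := hx'.1
  -- continuity of the right hand side
  have hTc : ∀ (z : Ek k) (u : ℝ → Ek k), Continuous u →
      Continuous (fun s => Th φ y R θ ε 1 z (u s) s) := by
    intro z u hu
    have : Continuous (fun s : ℝ => (((1 : ℝ), z, u s, s) : ℝ × Ek k × Ek k × ℝ)) := by fun_prop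
    exact t4.comp_continuous this (fun s => hτI)
  have hTp : ∀ (z : Ek k) (u : ℝ → Ek k), Function.Periodic u (2 * Real.pi) →
      Function.Periodic (fun s => Th φ y R θ ε 1 z (u s) s) (2 * Real.pi) := by
    intro z u hu s
    show Th φ y R θ ε 1 z (u (s + 2 * Real.pi)) (s + 2 * Real.pi) = _
    rw [hu s]
    exact t3 1 z (u s) s
  have hTj : Continuous (fun p : Ek k × ℝ => Th φ y R θ ε 1 η p.1 p.2) := by
    have : Continuous (fun p : Ek k × ℝ => (((1 : ℝ), η, p.1, p.2) : ℝ × Ek k × Ek k × ℝ)) := by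
      fun_prop
    exact t4.comp_continuous this (fun s => hτI)
  obtain ⟨⟨htnc, -⟩, htn01, -, -, -, -, -, htng, -⟩ := h4 θ hθ hR.hθ1
  obtain ⟨htnP, htn01', htnN, -⟩ := h4 (θ / 2) (by linarith) (by linarith [hR.hθ1])
  have htnc' := htnP.1
  set D : ℝ := ‖η - η'‖ with hD
  have hD0 : 0 ≤ D := norm_nonneg _
  -- the basic estimate
  have b1 : N2 (fun s => x s - x' s) ≤ 2 / 3 * Real.sqrt θ * D := by
    have hb := h3 k ρ x0 (Th φ y R θ ε 1 η) hρ hρ' hTj (fun z => t3 1 η z)
      (fun z z' t => (t2 1 hτI η z z' t).trans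
        (mul_le_mul_of_nonneg_right (by norm_num) (norm_nonneg _))) x x'
      (fun s => Th φ y R θ ε 1 η' (x' s) s) hx ⟨hxc', hxp'⟩
      ⟨hTc η' x' hxc', hTp η' x' hxp'⟩ hx'.2 0
    have he : (fun s => Th φ y R θ ε 1 η (x' s) s - Th φ y R θ ε 1 η' (x' s) s - 0) =
        fun s => tn (θ / 2) s • (η - η') := by
      funext s
      unfold Th
      rw [smul_sub]
      abel
    rw [he] at hb
    have hn : N2 (fun s => tn (θ / 2) s • (η - η')) = N2 (tn (θ / 2)) * D := by
      unfold N2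
      have : (fun s => ‖tn (θ / 2) s • (η - η')‖ ^ 2) = fun s => D ^ 2 * ‖tn (θ / 2) s‖ ^ 2 := by
        funext s
        rw [norm_smul, mul_pow]
        ring
      rw [this, mn_const_mul, Real.sqrt_mul (by positivity), Real.sqrt_sq hD0, mul_comm]
    rw [hn] at hb
    have hN : N2 (tn (θ / 2)) ≤ Real.sqrt θ / 2 := by
      have h7 : 0 ≤ N2 (tn (θ / 2)) := Real.sqrt_nonneg _
      have h8 : N2 (tn (θ / 2)) ^ 2 ≤ (Real.sqrt θ / 2) ^ 2 := by
        rw [div_pow, Real.sq_sqrt hθ.le]
        linarith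
      exact (pow_le_pow_iff_left₀ h7 (by positivity) two_ne_zero).1 h8
    calc N2 (fun s => x s - x' s) ≤ 4 / 3 * (N2 (tn (θ / 2)) * D) := hb
      _ ≤ 4 / 3 * (Real.sqrt θ / 2 * D) := by gcongr
      _ = _ := by ring
  have hsθ : Real.sqrt θ * Real.sqrt θ = θ := Real.mul_self_sqrt hθ.le
  have hsθ0 : 0 ≤ Real.sqrt θ := Real.sqrt_nonneg _
  -- mean zero
  have hm0 : ∀ (z : Ek k) (u : ℝ → Ek k), Sol ρ x0 (Th φ y R θ ε 1 z) u →
      mn (fun s => u s - x0) = 0 := by
    intro z u hu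
    obtain ⟨q1, q2, -⟩ := h2 k ρ hρ hρ' (fun s => Th φ y R θ ε 1 z (u s) s)
      ⟨hTc z u hu.1.1, hTp z u hu.1.2⟩
    have : (fun s => u s - x0) =
        fun s => (0 : Ek k) - Qo ρ (fun s => Th φ y R θ ε 1 z (u s) s) s := by
      funext s
      rw [hu.2 s]
      abel
    rw [this, mn_sub continuous_const q1.1, q2, sub_zero, mn_const]
  have hxs : Continuous (fun s => x s - x0) := hxc.sub continuous_const
  have hxs' : Continuous (fun s => x' s - x0) := hxc'.sub continuous_const
  have hxx : Continuous (fun s => x s - x' s) := hxc.sub hxc'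
  have hxm : mn (fun s => x s - x' s) = 0 := by
    have : (fun s => x s - x' s) = fun s => (x s - x0) - (x' s - x0) := by
      funext s
      abel
    rw [this, mn_sub hxs hxs', hm0 η x hx, hm0 η' x' hx', sub_zero]
  have hφc : Continuous φ := by
    have : LipschitzWith (1 / 40) φ := by
      refine LipschitzWith.of_dist_le_mul fun a b => ?_
      rw [dist_eq_norm, dist_eq_norm]
      have := hB.lφ a b
      simpa using this
    exact this.continuous
  have hφx : Continuous (fun s => φ (x s)) := hφc.comp hxc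
  have hφx' : Continuous (fun s => φ (x' s)) := hφc.comp hxc'
  have hηc : ∀ z : Ek k, Continuous (fun s => tn (θ / 2) s • z) := fun z =>
    htnc'.smul continuous_const
  have hyc : ∀ (z : Ek k) (u : ℝ → Ek k), Continuous u →
      Continuous (fun s => y (u s) (ε + 1 * (R - ε) * tn θ s)) := by
    intro z u hu
    have : (fun s => y (u s) (ε + 1 * (R - ε) * tn θ s)) =
        fun s => Th φ y R θ ε 1 z (u s) s - φ (u s) - tn (θ / 2) s • z := by
      funext s
      unfold Th
      abel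
    rw [this]
    exact ((hTc z u hu).sub (hφc.comp hu)).sub (hηc z)
  have hyx := hyc 0 x hxc
  have hyx' := hyc 0 x' hxc'
  -- decomposition
  have hdec : ∀ (z : Ek k) (u : ℝ → Ek k), Continuous u →
      mn (fun s => Th φ y R θ ε 1 z (u s) s) =
      mn (fun s => φ (u s)) + mn (fun s => y (u s) (ε + 1 * (R - ε) * tn θ s)) +
        mn (tn (θ / 2)) • z := by
    intro z u hu
    have c1 : Continuous (fun s => φ (u s)) := hφc.comp hu
    have c2 := hyc 0 u hu
    have c3 : Continuous (fun s => φ (u s) + y (u s) (ε + 1 * (R - ε) * tn θ s)) := c1.add c2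
    rw [← mn_smul_const, ← mn_add c1 c2, ← mn_add c3 (hηc z)]
    rfl
  obtain ⟨A0, hA0⟩ := hB.sφ
  have hmin := hR.hRs
  have hin : ∀ u : ℝ → Ek k, (∀ t, ‖u t - x0‖ ≤ 12 * ((k : ℝ) + 1) * (C + 1) * R) →
      ∀ s, u s ∈ closedBall x0 ρ1 := by
    intro u hu s
    rw [mem_closedBall, dist_eq_norm]
    refine (hu s).trans ?_
    have h6 : min ρ1 ρ2 ≤ ρ1 := min_le_left _ _
    have h7 : 0 ≤ ((k : ℝ) + 1) * (C + 1) * R := by positivity
    nlinarith
  -- first term
  have f2 : ‖mn (fun s => φ (x s) - φ (x' s))‖ ≤ 1 / 100 * θ * D := by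
    have hAx : Continuous (fun s => A0 (x s - x' s)) := A0.continuous.comp hxx
    have f1 : mn (fun s => φ (x s) - φ (x' s)) =
        mn (fun s => φ (x s) - φ (x' s) - A0 (x s - x' s)) := by
      rw [mn_sub (u := fun s => φ (x s) - φ (x' s)) (hφx.sub hφx')
        hAx, mn_clm A0 hxx, hxm, map_zero, sub_zero]
    rw [f1]
    have g1 : ‖mn (fun s => φ (x s) - φ (x' s) - A0 (x s - x' s))‖ ≤
        mn (fun s => C * (‖x s - x0‖ * ‖x s - x' s‖ + ‖x' s - x0‖ * ‖x s - x' s‖)) := by
      refine norm_mn_le ((hφx.sub hφx').sub hAx) (by fun_prop) fun s => ?_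
      have := hA0 (x s) (hin x e2 s) (x' s) (hin x' e2' s)
      calc _ ≤ _ := this
        _ = _ := by ring
    refine g1.trans ?_
    rw [mn_const_mul, mn_add (u := fun s => ‖x s - x0‖ * ‖x s - x' s‖)
      (v := fun s => ‖x' s - x0‖ * ‖x s - x' s‖) (by fun_prop) (by fun_prop)]
    have pcx : PC (fun s => x s - x0) := ⟨hxs, fun s => by show x (s + 2 * Real.pi) - x0 = _; rw [hxp s]⟩
    have pcx' : PC (fun s => x' s - x0) :=
      ⟨hxs', fun s => by show x' (s + 2 * Real.pi) - x0 = _; rw [hxp' s]⟩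
    have pcd : PC (fun s => x s - x' s) :=
      ⟨hxx, fun s => by show x (s + 2 * Real.pi) - x' (s + 2 * Real.pi) = _; rw [hxp s, hxp' s]⟩
    have g2 := (h1 (Ek k) _ _ pcx pcd).2.2.2.2.2.2.1
    have g3 := (h1 (Ek k) _ _ pcx' pcd).2.2.2.2.2.2.1
    have n0 : 0 ≤ N2 (fun s => x s - x' s) := Real.sqrt_nonneg _
    have K0 : 0 ≤ 3 * (C + 1) * R * Real.sqrt θ := by positivity
    have g4 : mn (fun s => ‖x s - x0‖ * ‖x s - x' s‖) ≤
        (3 * (C + 1) * R * Real.sqrt θ) * (2 / 3 * Real.sqrt θ * D) :=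
      g2.trans (mul_le_mul e1 b1 n0 K0)
    have g5 : mn (fun s => ‖x' s - x0‖ * ‖x s - x' s‖) ≤
        (3 * (C + 1) * R * Real.sqrt θ) * (2 / 3 * Real.sqrt θ * D) :=
      g3.trans (mul_le_mul e1' b1 n0 K0)
    have g6 : (3 * (C + 1) * R * Real.sqrt θ) * (2 / 3 * Real.sqrt θ * D) =
        2 * (C + 1) * R * θ * D := by
      calc _ = 2 * (C + 1) * R * (Real.sqrt θ * Real.sqrt θ) * D := by ring
        _ = _ := by rw [hsθ]
    rw [g6] at g4 g5
    calc C * (mn (fun s => ‖x s - x0‖ * ‖x s - x' s‖) + mn (fun s => ‖x' s - x0‖ * ‖x s - x' s‖))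
        ≤ C * (2 * (C + 1) * R * θ * D + 2 * (C + 1) * R * θ * D) := by gcongr
      _ = (400 * C * (C + 1) * R) * (1 / 100 * θ * D) := by ring
      _ ≤ 1 * (1 / 100 * θ * D) := by gcongr
      _ = _ := one_mul _
  -- second term
  have f3 : ‖mn (fun s => y (x s) (ε + 1 * (R - ε) * tn θ s) -
      y (x' s) (ε + 1 * (R - ε) * tn θ s))‖ ≤ 19 / 1000 * θ * D := by
    have pcg : PC (fun s => ‖x s - x' s‖) :=
      ⟨hxx.norm, fun s => by
        show ‖x (s + 2 * Real.pi) - x' (s + 2 * Real.pi)‖ = _; rw [hxp s, hxp' s]⟩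
    have hN : N2 (fun s => ‖x s - x' s‖) = N2 (fun s => x s - x' s) := by
      unfold N2
      simp only [norm_norm]
    have hg := htng (fun s => ‖x s - x' s‖) pcg (fun s => norm_nonneg _)
    rw [hN] at hg
    have i1 := ii_ite (θ := θ) pcg.1 htnc
    have i2 : IntervalIntegrable (fun s => Real.sqrt θ / 100 * ‖x s - x' s‖)
        MeasureTheory.volume 0 (2 * Real.pi) := ii (by fun_prop)
    have i3 : IntervalIntegrable (fun s => 1 / 40 * (if 0 < tn θ s then ‖x s - x' s‖ else 0))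
        MeasureTheory.volume 0 (2 * Real.pi) := i1.const_mul _
    have g1 : ‖mn (fun s => y (x s) (ε + 1 * (R - ε) * tn θ s) -
        y (x' s) (ε + 1 * (R - ε) * tn θ s))‖ ≤
        mn (fun s => 1 / 40 * (if 0 < tn θ s then ‖x s - x' s‖ else 0) +
          Real.sqrt θ / 100 * ‖x s - x' s‖) := by
      refine norm_mn_le' (hyx.sub hyx') (i3.add i2) fun s => ?_
      split_ifs with hs
      · have h7 := t1 1 hτI s
        have h8 := hB.ly (x s) (x' s) _
          ⟨lt_of_lt_of_le hR.hε h7.1, lt_of_le_of_lt h7.2 hR.hRR⟩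
        have h9 : 0 ≤ Real.sqrt θ / 100 * ‖x s - x' s‖ := by positivity
        linarith
      · have h7 : tn θ s = 0 := le_antisymm (not_lt.1 hs) (htn01 s).1
        rw [h7, mul_zero, add_zero, mul_zero, zero_add]
        exact hyε (x s) (x' s)
    refine g1.trans ?_
    rw [mn_add' i3 i2, mn_const_mul, mn_const_mul]
    have n0 : 0 ≤ N2 (fun s => x s - x' s) := Real.sqrt_nonneg _
    have g2 : mn (fun s => ‖x s - x' s‖) ≤ N2 (fun s => x s - x' s) := by
      have := (h1 ℝ _ _ pcg pcg).2.2.2.1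
      rw [hN] at this
      exact (le_abs_self _).trans this
    have g3 : Real.sqrt (θ / 2) ≤ 708 / 1000 * Real.sqrt θ := by
      refine Real.sqrt_le_iff.2 ⟨by positivity, ?_⟩
      rw [mul_pow, Real.sq_sqrt hθ.le]
      nlinarith
    have g4 : mn (fun s => if 0 < tn θ s then ‖x s - x' s‖ else 0) ≤
        (708 / 1000 * Real.sqrt θ) * (2 / 3 * Real.sqrt θ * D) :=
      hg.trans (mul_le_mul g3 b1 n0 (by positivity))
    have g5 : mn (fun s => ‖x s - x' s‖) ≤ 2 / 3 * Real.sqrt θ * D := g2.trans b1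
    calc 1 / 40 * mn (fun s => if 0 < tn θ s then ‖x s - x' s‖ else 0) +
          Real.sqrt θ / 100 * mn (fun s => ‖x s - x' s‖)
        ≤ 1 / 40 * ((708 / 1000 * Real.sqrt θ) * (2 / 3 * Real.sqrt θ * D)) +
          Real.sqrt θ / 100 * (2 / 3 * Real.sqrt θ * D) := by gcongr
      _ = (118 / 10000 + 1 / 150) * (Real.sqrt θ * Real.sqrt θ) * D := by ring
      _ = (118 / 10000 + 1 / 150) * θ * D := by rw [hsθ]
      _ ≤ 19 / 1000 * θ * D := by
          refine mul_le_mul_of_nonneg_right (mul_le_mul_of_nonneg_right ?_ hθ.le) hD0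
          norm_num
  rw [hdec η x hxc, hdec η' x' hxc']
  have hsum : mn (fun s => φ (x s)) + mn (fun s => y (x s) (ε + 1 * (R - ε) * tn θ s)) +
      mn (tn (θ / 2)) • η - (mn (fun s => φ (x' s)) +
        mn (fun s => y (x' s) (ε + 1 * (R - ε) * tn θ s)) + mn (tn (θ / 2)) • η') -
        mn (tn (θ / 2)) • (η - η') =
      mn (fun s => φ (x s) - φ (x' s)) + mn (fun s => y (x s) (ε + 1 * (R - ε) * tn θ s) -
        y (x' s) (ε + 1 * (R - ε) * tn θ s)) := by
    rw [mn_sub hφx hφx', mn_sub hyx hyx', smul_sub]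
    abel
  rw [hsum]
  refine (norm_add_le _ _).trans ?_
  calc _ ≤ 1 / 100 * θ * D + 19 / 1000 * θ * D := add_le_add f2 f3
    _ ≤ 3 / 100 * θ * D := by
        have : 0 ≤ θ * D := by positivity
        nlinarith

end KV
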