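import Pool.Agent.Lib.KV.SpecM

set_option autoImplicit false

open Set Filter Topology Metric

namespace KV

open KP

namespace NNAux

lemma cpos : 0 < (2 * Real.pi)⁻¹ := inv_pos.mpr Real.two_pi_pos

/-- The mean of real functions, nonnegativity. -/
lemma mn_nonneg {a : ℝ → ℝ} (h : ∀ s, 0 ≤ a s) : 0 ≤ mn a := by
  unfold mn
  rw [smul_eq_mul]
  exact mul_nonneg cpos.le (intervalIntegral.integral_nonneg Real.two_pi_pos.le fun s _ => h s)

lemma mn_mono {a b : ℝ → ℝ} (ha : Continuous a) (hb : Continuous b) (h : ∀ s, a s ≤ b s) :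
    mn a ≤ mn b := by
  unfold mn
  rw [smul_eq_mul, smul_eq_mul]
  apply mul_le_mul_of_nonneg_left _ cpos.le
  exact intervalIntegral.integral_mono Real.two_pi_pos.le (ha.intervalIntegrable _ _)
    (hb.intervalIntegrable _ _) h

lemma mn_add {a b : ℝ → ℝ} (ha : Continuous a) (hb : Continuous b) :
    mn (fun s => a s + b s) = mn a + mn b := by
  unfold mn
  rw [intervalIntegral.integral_add (ha.intervalIntegrable _ _) (hb.intervalIntegrable _ _),
    smul_add]

lemma mn_const_mul (c : ℝ) (a : ℝ → ℝ) : mn (fun s => c * a s) = c * mn a := by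
  unfold mn
  rw [intervalIntegral.integral_const_mul, smul_eq_mul, smul_eq_mul]
  ring

lemma mn_const (c : ℝ) : mn (fun _ : ℝ => c) = c := by
  unfold mn
  have hpi := Real.pi_ne_zero
  rw [intervalIntegral.integral_const, smul_eq_mul, smul_eq_mul]
  field_simp
  ring

/-- Cauchy-Schwarz. -/
lemma cs {a b : ℝ → ℝ} (ha : Continuous a) (hb : Continuous b) (ha0 : ∀ s, 0 ≤ a s)
    (hb0 : ∀ s, 0 ≤ b s) :
    mn (fun s => a s * b s) ≤ Real.sqrt (mn fun s => a s ^ 2) * Real.sqrt (mn fun s => b s ^ 2) := by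
  have hA : Continuous fun s => a s ^ 2 := ha.pow 2
  have hB : Continuous fun s => b s ^ 2 := hb.pow 2
  have hAB : Continuous fun s => a s * b s := ha.mul hb
  have hq : ∀ t : ℝ, 0 ≤ (mn fun s => b s ^ 2) * (t * t) +
      (-2 * mn (fun s => a s * b s)) * t + (mn fun s => a s ^ 2) := by
    intro t
    have h1 : 0 ≤ mn (fun s => (t * b s - a s) ^ 2) := mn_nonneg fun s => sq_nonneg _
    have h2 : mn (fun s => (t * b s - a s) ^ 2) = (mn fun s => b s ^ 2) * (t * t) +
      (-2 * mn (fun s => a s * b s)) * t + (mn fun s => a s ^ 2) := by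
      have e : (fun s => (t * b s - a s) ^ 2) =
          fun s => ((t * t) * (b s ^ 2) + (-2 * t) * (a s * b s)) + a s ^ 2 := by
        funext s; ring
      have c1 : Continuous fun s => (t * t) * (b s ^ 2) := continuous_const.mul hB
      have c2 : Continuous fun s => (-2 * t) * (a s * b s) := continuous_const.mul hAB
      have c3 : Continuous fun s => (t * t) * (b s ^ 2) + (-2 * t) * (a s * b s) := c1.add c2
      rw [e, mn_add c3 hA, mn_add c1 c2, mn_const_mul, mn_const_mul]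
      ring
    rw [← h2]; exact h1
  have hd := discrim_le_zero hq
  unfold discrim at hd
  have hAn : 0 ≤ mn fun s => a s ^ 2 := mn_nonneg fun s => sq_nonneg _
  rw [← Real.sqrt_mul hAn]
  apply Real.le_sqrt_of_sq_le
  nlinarith [hd]

end NNAux

open NNAux

theorem tNN : S_NN := by
  intro F _ _ u v hu hv
  obtain ⟨huc, hup⟩ := hu
  obtain ⟨hvc, hvp⟩ := hv
  have hun : Continuous fun s => ‖u s‖ := huc.norm
  have hvn : Continuous fun s => ‖v s‖ := hvc.norm
  have hCS : mn (fun s => ‖u s‖ * ‖v s‖) ≤ N2 u * N2 v :=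
    cs hun hvn (fun s => norm_nonneg _) fun s => norm_nonneg _
  have hu2 : 0 ≤ mn (fun s => ‖u s‖ ^ 2) := mn_nonneg fun s => sq_nonneg _
  have hv2 : 0 ≤ mn (fun s => ‖v s‖ ^ 2) := mn_nonneg fun s => sq_nonneg _
  have huN : N2 u ^ 2 = mn (fun s => ‖u s‖ ^ 2) := Real.sq_sqrt hu2
  have hvN : N2 v ^ 2 = mn (fun s => ‖v s‖ ^ 2) := Real.sq_sqrt hv2
  have hu0 : 0 ≤ N2 u := Real.sqrt_nonneg _
  have hv0 : 0 ≤ N2 v := Real.sqrt_nonneg _
  refine ⟨?_, ?_, ?_, ?_, ?_, ?_, hCS, ?_⟩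
  · have c1 : Continuous fun s => ‖u s‖ ^ 2 := hun.pow 2
    have c2 : Continuous fun s => 2 * (‖u s‖ * ‖v s‖) := continuous_const.mul (hun.mul hvn)
    have c3 : Continuous fun s => ‖u s‖ ^ 2 + 2 * (‖u s‖ * ‖v s‖) := c1.add c2
    have c4 : Continuous fun s => ‖v s‖ ^ 2 := hvn.pow 2
    have c5 : Continuous fun s => (‖u s‖ ^ 2 + 2 * (‖u s‖ * ‖v s‖)) + ‖v s‖ ^ 2 := c3.add c4
    have c6 : Continuous fun s => ‖u s + v s‖ ^ 2 := (huc.add hvc).norm.pow 2
    have h1 : N2 (fun s => u s + v s) ≤ Real.sqrt ((N2 u + N2 v) ^ 2) := by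
      apply Real.sqrt_le_sqrt
      have h2 : mn (fun s => ‖u s + v s‖ ^ 2) ≤
          mn (fun s => (‖u s‖ ^ 2 + 2 * (‖u s‖ * ‖v s‖)) + ‖v s‖ ^ 2) := by
        apply mn_mono c6 c5
        intro s
        have h3 := norm_add_le (u s) (v s)
        have h4 := norm_nonneg (u s + v s)
        have h5 := pow_le_pow_left₀ h4 h3 2
        calc ‖u s + v s‖ ^ 2 ≤ (‖u s‖ + ‖v s‖) ^ 2 := h5
          _ = _ := by ring
      have h6 : mn (fun s => (‖u s‖ ^ 2 + 2 * (‖u s‖ * ‖v s‖)) + ‖v s‖ ^ 2) =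
          (mn (fun s => ‖u s‖ ^ 2) + 2 * mn (fun s => ‖u s‖ * ‖v s‖)) +
            mn (fun s => ‖v s‖ ^ 2) := by
        rw [mn_add c3 c4, mn_add c1 c2, mn_const_mul]
      rw [h6, ← huN, ← hvN] at h2
      nlinarith [hCS]
    rw [Real.sqrt_sq (add_nonneg hu0 hv0)] at h1
    exact h1
  · intro h
    apply Real.sqrt_le_sqrt
    exact mn_mono (hun.pow 2) (hvn.pow 2) fun s => pow_le_pow_left₀ (norm_nonneg _) (h s) 2
  · intro h s
    by_contra hne
    obtain ⟨s', hs', hs2⟩ := hup.exists_mem_Ico₀ Real.two_pi_pos s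
    have hpos : 0 < ‖u s'‖ ^ 2 := by
      rw [← hs2]
      exact pow_pos (norm_pos_iff.mpr hne) 2
    have h1 : 0 < ∫ s in (0 : ℝ)..(2 * Real.pi), ‖u s‖ ^ 2 :=
      intervalIntegral.integral_pos Real.two_pi_pos (hun.pow 2).continuousOn
        (fun x _ => sq_nonneg _) ⟨s', Ico_subset_Icc_self hs', hpos⟩
    have h2 : 0 < mn (fun s => ‖u s‖ ^ 2) := by
      unfold mn
      exact mul_pos cpos h1
    rw [h] at huN
    norm_num at huN
    linarith
  · have h1 : ‖mn u‖ ≤ mn (fun s => ‖u s‖) := by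
      unfold mn
      rw [norm_smul, smul_eq_mul, Real.norm_of_nonneg cpos.le]
      apply mul_le_mul_of_nonneg_left _ cpos.le
      exact intervalIntegral.norm_integral_le_integral_norm Real.two_pi_pos.le
    have h2 : mn (fun s => ‖u s‖ * (1 : ℝ)) ≤
        Real.sqrt (mn fun s => ‖u s‖ ^ 2) * Real.sqrt (mn fun _ : ℝ => (1 : ℝ) ^ 2) :=
      cs hun continuous_const (fun s => norm_nonneg _) fun _ => zero_le_one
    rw [one_pow, mn_const, Real.sqrt_one, mul_one] at h2
    simp only [mul_one] at h2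
    exact h1.trans h2
  · intro a
    unfold mn
    have h1 : (∫ s in (0 : ℝ)..(2 * Real.pi), u (s + a)) = ∫ s in (0 : ℝ)..(2 * Real.pi), u s := by
      rw [intervalIntegral.integral_comp_add_right (fun s => u s) a]
      have h2 := hup.intervalIntegral_add_eq (0 + a) 0
      rw [zero_add] at h2
      rw [show 0 + a = a by ring, add_comm (2 * Real.pi) a, h2, zero_add]
    rw [h1]
  · intro a
    have hp2 : Function.Periodic (fun s => ‖u s‖ ^ 2) (2 * Real.pi) := fun s => by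
      simp only [hup s]
    unfold N2 mn
    have h1 : (∫ s in (0 : ℝ)..(2 * Real.pi), ‖u (s + a)‖ ^ 2) =
        ∫ s in (0 : ℝ)..(2 * Real.pi), ‖u s‖ ^ 2 := by
      rw [intervalIntegral.integral_comp_add_right (fun s => ‖u s‖ ^ 2) a]
      have h2 := hp2.intervalIntegral_add_eq (0 + a) 0
      rw [zero_add] at h2
      rw [show 0 + a = a by ring, add_comm (2 * Real.pi) a, h2, zero_add]
    rw [h1]
  · intro M hM h
    have h1 : mn (fun s => ‖u s‖ ^ 2) ≤ M ^ 2 := by
      rw [← mn_const (M ^ 2)]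
      exact mn_mono (hun.pow 2) continuous_const fun s => pow_le_pow_left₀ (norm_nonneg _) (h s) 2
    calc N2 u ≤ Real.sqrt (M ^ 2) := Real.sqrt_le_sqrt h1
      _ = M := Real.sqrt_sq hM

end KV
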