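import Pool.Agent.Lib.KV.SpecM

set_option autoImplicit false

open Set Filter Topology Metric

namespace KV

namespace QQAux

/-- mean of a holomorphic function over a circle of radius `ρ < 1` -/
theorem mean_hol {F : ℂ → ℂ} (hF : DifferentiableOn ℂ F (ball 0 1)) {ρ : ℝ} (h0 : 0 ≤ ρ)
    (h1 : ρ < 1) : mn (fun t : ℝ => F (ρ * Complex.exp (t * Complex.I))) = F 0 := by
  have hsub : closedBall (0 : ℂ) |ρ| ⊆ ball 0 1 := by
    rw [abs_of_nonneg h0]
    exact closedBall_subset_ball h1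
  have h := circleAverage_of_differentiable_on_off_countable (f := F) (c := 0) (R := ρ)
    (s := ∅) countable_empty (hF.continuousOn.mono hsub) (by
      intro z hz
      have hz' : z ∈ ball (0 : ℂ) 1 := hsub (ball_subset_closedBall hz.1)
      exact (hF z hz').differentiableAt (isOpen_ball.mem_nhds hz'))
  rw [← h]
  simp only [Real.circleAverage, mn, circleMap, zero_add]

theorem norm_pt {ρ : ℝ} (h0 : 0 ≤ ρ) (t : ℝ) : ‖(ρ : ℂ) * Complex.exp (t * Complex.I)‖ = ρ := by
  rw [norm_mul, Complex.norm_exp_ofReal_mul_I, mul_one, Complex.norm_real, Real.norm_eq_abs,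
    abs_of_nonneg h0]

theorem mn_im {f : ℝ → ℂ} (hf : Continuous f) : (mn f).im = mn (fun s => (f s).im) := by
  have h := Complex.imCLM.intervalIntegral_comp_comm
    (hf.intervalIntegrable (μ := MeasureTheory.volume) 0 (2 * Real.pi))
  simp only [mn, Complex.imCLM_apply] at h ⊢
  rw [h, Complex.real_smul, Complex.im_ofReal_mul, smul_eq_mul]

theorem mn_comp {k : ℕ} {f : ℝ → Ek k} (hf : Continuous f) (j : Fin k) :
    (mn f) j = mn (fun s => f s j) := by
  have h : ∫ x in (0 : ℝ)..(2 * Real.pi), (f x) j = (∫ x in (0 : ℝ)..(2 * Real.pi), f x) j :=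
    (EuclideanSpace.proj (𝕜 := ℝ) j).intervalIntegral_comp_comm
      (hf.intervalIntegrable (μ := MeasureTheory.volume) 0 (2 * Real.pi))
  simp only [mn]
  rw [h]
  rfl

theorem mn_mono {f g : ℝ → ℝ} (hf : Continuous f) (hg : Continuous g) (h : ∀ s, f s ≤ g s) :
    mn f ≤ mn g := by
  have hp : 0 ≤ 2 * Real.pi := by positivity
  simp only [mn, smul_eq_mul]
  apply mul_le_mul_of_nonneg_left _ (by positivity)
  exact intervalIntegral.integral_mono_on hp (hf.intervalIntegrable _ _)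
    (hg.intervalIntegrable _ _) (fun x _ => h x)

theorem pc_comp {k : ℕ} {u : ℝ → Ek k} (hu : PC u) (j : Fin k) : PC (fun s => u s j) := by
  refine ⟨(EuclideanSpace.proj (𝕜 := ℝ) j).continuous.comp hu.1, ?_⟩
  intro s
  show u (s + 2 * Real.pi) j = u s j
  rw [hu.2 s]

theorem cont_cT (h2 : S_CTa) {v : ℝ → ℝ} (hv : PC v) {ρ : ℝ} (hρ0 : 0 ≤ ρ) (hρ1 : ρ < 1) :
    Continuous (fun t : ℝ => cT v (ρ * Complex.exp (t * Complex.I))) := by
  apply (h2 v hv).1.continuousOn.comp_continuous (by fun_prop)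
  intro t
  rw [mem_ball_zero_iff, norm_pt hρ0]
  exact hρ1

theorem exp_per (t : ℝ) : Complex.exp (((t + 2 * Real.pi : ℝ) : ℂ) * Complex.I) =
    Complex.exp (t * Complex.I) := by
  have : (((t + 2 * Real.pi : ℝ) : ℂ) * Complex.I) = t * Complex.I + 2 * Real.pi * Complex.I := by
    push_cast
    ring
  rw [this, Complex.exp_add, Complex.exp_two_pi_mul_I, mul_one]

theorem pc_im (h2 : S_CTa) {v : ℝ → ℝ} (hv : PC v) {ρ : ℝ} (hρ0 : 0 ≤ ρ) (hρ1 : ρ < 1) :
    PC (fun t : ℝ => (cT v (ρ * Complex.exp (t * Complex.I))).im) := by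
  refine ⟨Complex.continuous_im.comp (cont_cT h2 hv hρ0 hρ1), ?_⟩
  intro t
  show (cT v (ρ * Complex.exp (((t + 2 * Real.pi : ℝ) : ℂ) * Complex.I))).im = _
  rw [exp_per]

theorem pc_Qo (h2 : S_CTa) {k : ℕ} {u : ℝ → Ek k} (hu : PC u) {ρ : ℝ} (hρ0 : 0 ≤ ρ)
    (hρ1 : ρ < 1) : PC (Qo ρ u) := by
  constructor
  · apply (PiLp.continuous_toLp 2 _).comp
    apply continuous_pi
    intro j
    exact (pc_im h2 (pc_comp hu j) hρ0 hρ1).1
  · intro t
    unfold Qo
    rw [exp_per]

/-- the square of the `L²` norm by components -/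
theorem mn_sq {k : ℕ} {w : ℝ → Ek k} (hw : Continuous w) :
    mn (fun s => ‖w s‖ ^ 2) = ∑ j, mn (fun s => ‖w s j‖ ^ 2) := by
  simp only [mn, smul_eq_mul, EuclideanSpace.norm_sq_eq]
  rw [intervalIntegral.integral_finsetSum, Finset.mul_sum]
  intro j _
  apply Continuous.intervalIntegrable
  exact (((EuclideanSpace.proj (𝕜 := ℝ) j).continuous.comp hw).norm).pow 2

theorem norm_le_k {k : ℕ} (x : Ek k) {B : ℝ} (hB : 0 ≤ B) (h : ∀ j, |x j| ≤ B) :
    ‖x‖ ≤ k * B := by
  have h1 : ‖x‖ ^ 2 ≤ (k * B) ^ 2 := by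
    rw [EuclideanSpace.norm_sq_eq]
    have h2 : ∑ j, ‖x j‖ ^ 2 ≤ ∑ _j : Fin k, B ^ 2 := by
      apply Finset.sum_le_sum
      intro j _
      exact pow_le_pow_left₀ (norm_nonneg _) (h j) 2
    rw [Finset.sum_const, Finset.card_univ, Fintype.card_fin, nsmul_eq_mul] at h2
    have h3 : (k : ℝ) ≤ (k : ℝ) ^ 2 := by
      exact_mod_cast Nat.le_self_pow (by norm_num) k
    have h4 : (k : ℝ) * B ^ 2 ≤ (k : ℝ) ^ 2 * B ^ 2 := by gcongr
    rw [mul_pow]
    linarith
  exact (pow_le_pow_iff_left₀ (norm_nonneg _) (by positivity) two_ne_zero).mp h1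

end QQAux

open QQAux

theorem tQQ (h1 : S_NN) (h2 : S_CTa) (h3 : S_CTc) (h4 : S_CTl) (h5 : S_CTr) (h6 : S_CTb)
    (h7 : S_CT2) : S_QQ := by
  intro k ρ hρ0 hρ1 u hu
  have hnt : ∀ t : ℝ, ‖(ρ : ℂ) * Complex.exp (t * Complex.I)‖ < 1 := by
    intro t
    rw [norm_pt hρ0]
    exact hρ1
  have hQ := pc_Qo h2 hu hρ0 hρ1
  refine ⟨hQ, ?_, ?_, ?_, ?_, ?_, ?_⟩
  · ext j
    rw [mn_comp hQ.1]
    show mn (fun t : ℝ => (cT (fun s => u s j) (ρ * Complex.exp (t * Complex.I))).im) = 0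
    rw [← mn_im (cont_cT h2 (pc_comp hu j) hρ0 hρ1), mean_hol (h2 _ (pc_comp hu j)).1 hρ0 hρ1,
      (h2 _ (pc_comp hu j)).2, Complex.ofReal_im]
  · intro c
    have hw : Continuous (fun s => u s - c) := hu.1.sub continuous_const
    unfold N2
    apply Real.sqrt_le_sqrt
    rw [mn_sq hQ.1, mn_sq hw]
    apply Finset.sum_le_sum
    intro j _
    have hpj := pc_comp hu j
    have hcj : PC (fun _ : ℝ => c j) := ⟨continuous_const, fun _ => rfl⟩
    have hpc : PC (fun s => (1 : ℝ) * u s j + (-1) * c j) := by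
      refine ⟨(continuous_const.mul hpj.1).add continuous_const, ?_⟩
      intro s
      show (1 : ℝ) * u (s + 2 * Real.pi) j + (-1) * c j = _
      rw [hu.2 s]
    have h8 := h7 _ hpc ρ hρ0 hρ1
    unfold N2 at h8
    have h9 : 0 ≤ mn (fun s => ‖(1 : ℝ) * u s j + (-1) * c j‖ ^ 2) := by
      simp only [mn, smul_eq_mul]
      apply mul_nonneg (by positivity)
      exact intervalIntegral.integral_nonneg (by positivity) (fun s _ => by positivity)
    rw [Real.sqrt_le_sqrt_iff h9] at h8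
    have e1 : (fun s => ‖(u s - c) j‖ ^ 2) = fun s => ‖(1 : ℝ) * u s j + (-1) * c j‖ ^ 2 := by
      funext s
      congr 2
      show u s j - c j = _
      ring
    rw [e1]
    refine le_trans (le_of_eq ?_) h8
    congr 1
    funext t
    beta_reduce
    rw [h4 _ _ hpj hcj 1 (-1) _ (hnt t), h3 _ _ (hnt t)]
    congr 2
    show (cT (fun s => u s j) (ρ * Complex.exp (t * Complex.I))).im = _
    simp
  · intro u' hu' t
    ext j
    show (cT (fun s => (u s - u' s) j) (ρ * Complex.exp (t * Complex.I))).im =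
      (cT (fun s => u s j) (ρ * Complex.exp (t * Complex.I))).im -
      (cT (fun s => u' s j) (ρ * Complex.exp (t * Complex.I))).im
    have e1 : (fun s => (u s - u' s) j) = fun s => (1 : ℝ) * u s j + (-1) * u' s j := by
      funext s
      show u s j - u' s j = _
      ring
    rw [e1, h4 _ _ (pc_comp hu j) (pc_comp hu' j) 1 (-1) _ (hnt t)]
    simp [sub_eq_add_neg]
  · intro t
    have hB : 0 ≤ 2 / (1 - ρ) * N2 u := by
      have : 0 < 1 - ρ := by linarith
      have : 0 ≤ N2 u := Real.sqrt_nonneg _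
      positivity
    rw [mul_assoc]
    apply norm_le_k _ hB
    intro j
    have h8 := h6 _ (pc_comp hu j) _ (hnt t)
    rw [norm_pt hρ0] at h8
    have h9 : N2 (fun s => u s j) ≤ N2 u := by
      unfold N2
      apply Real.sqrt_le_sqrt
      apply mn_mono (((pc_comp hu j).1.norm).pow 2) ((hu.1.norm).pow 2)
      intro s
      exact pow_le_pow_left₀ (norm_nonneg _) (PiLp.norm_apply_le _ _) 2
    calc |(Qo ρ u t) j| = |(cT (fun s => u s j) (ρ * Complex.exp (t * Complex.I))).im| := rfl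
      _ ≤ ‖cT (fun s => u s j) (ρ * Complex.exp (t * Complex.I))‖ := Complex.abs_im_le_norm _
      _ ≤ 2 / (1 - ρ) * N2 (fun s => u s j) := h8
      _ ≤ 2 / (1 - ρ) * N2 u := by
          have : 0 < 1 - ρ := by linarith
          gcongr
  · intro a t
    ext j
    show (cT (fun s => u (s + a) j) (ρ * Complex.exp (t * Complex.I))).im =
      (cT (fun s => u s j) (ρ * Complex.exp (((t + a : ℝ) : ℂ) * Complex.I))).im
    rw [h5 _ (pc_comp hu j) a _ (hnt t)]
    congr 2
    push_cast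
    rw [add_mul, Complex.exp_add]
    ring
  · intro c t
    ext j
    show (cT (fun _ => c j) (ρ * Complex.exp (t * Complex.I))).im = 0
    rw [h3 _ _ (hnt t), Complex.ofReal_im]

end KV
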