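import Pool.Agent.Lib.KV.SpecM

set_option autoImplicit false

open Set Filter Topology Metric

namespace KV

open KP

private lemma room_cpt (k : ℕ) : Continuous fun p : Ek k × Ek k => (cpt p.1 p.2 : Cn k) := by
  unfold cpt
  fun_prop

theorem tRoom : S_Room := by
  intro k A x0 φ y ρ1 R1 ρ2 C hBW a b e ha hb he hmem
  have hφ : Continuous φ := by
    have : LipschitzWith (Real.toNNReal (1 / 40)) φ := by
      apply LipschitzWith.of_dist_le_mul
      intro x x'
      rw [dist_eq_norm, dist_eq_norm, Real.coe_toNNReal _ (by norm_num)]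
      exact hBW.lφ x x'
    exact this.continuous
  have hC : 0 ≤ C := by linarith [hBW.hC]
  have hy : ContinuousOn (fun p : Ek k × ℝ => y p.1 p.2) (univ ×ˢ Icc a b) := by
    have hl : LipschitzOnWith (Real.toNNReal (1 / 40 + C)) (fun p : Ek k × ℝ => y p.1 p.2)
        (univ ×ˢ Icc a b) := by
      apply LipschitzOnWith.of_dist_le_mul
      rintro ⟨x, r⟩ ⟨-, hr⟩ ⟨x', r'⟩ ⟨-, hr'⟩
      rw [Real.coe_toNNReal _ (by linarith)]
      have hr1 : r ∈ Ioo (0 : ℝ) R1 := ⟨ha.trans_le hr.1, hr.2.trans_lt hb⟩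
      have hr1' : r' ∈ Ioo (0 : ℝ) R1 := ⟨ha.trans_le hr'.1, hr'.2.trans_lt hb⟩
      have h1 := hBW.ly x x' r hr1
      have h2 := hBW.lr x' r hr1 r' hr1'
      have h3 : ‖x - x'‖ ≤ dist (x, r) (x', r') := by
        rw [← dist_eq_norm, Prod.dist_eq]
        exact le_max_left _ _
      have h4 : |r - r'| ≤ dist (x, r) (x', r') := by
        rw [← Real.dist_eq, Prod.dist_eq]
        exact le_max_right _ _
      have h5 : dist (y x r) (y x' r') ≤ ‖y x r - y x' r‖ + ‖y x' r - y x' r'‖ := by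
        rw [dist_eq_norm]
        have : y x r - y x' r' = (y x r - y x' r) + (y x' r - y x' r') := by abel
        rw [this]
        exact norm_add_le _ _
      have h6 : C * |r - r'| ≤ C * dist (x, r) (x', r') := mul_le_mul_of_nonneg_left h4 hC
      change dist (y x r) (y x' r') ≤ _
      linarith
    exact hl.continuousOn
  have hcont : ContinuousOn (fun p : Ek k × ℝ × Ek k => (cpt p.1 (φ p.1 + y p.1 p.2.1 + p.2.2) : Cn k))
      (closedBall x0 ρ1 ×ˢ (Icc a b ×ˢ closedBall (0 : Ek k) e)) := by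
    apply (room_cpt k).comp_continuousOn (f := fun p : Ek k × ℝ × Ek k =>
      (p.1, φ p.1 + y p.1 p.2.1 + p.2.2))
    apply ContinuousOn.prodMk continuous_fst.continuousOn
    apply ContinuousOn.add
    · apply ContinuousOn.add
      · exact (hφ.comp continuous_fst).continuousOn
      · apply hy.comp (f := fun p : Ek k × ℝ × Ek k => (p.1, p.2.1))
        · fun_prop
        · rintro p ⟨-, hp, -⟩
          exact ⟨mem_univ _, hp⟩
    · exact (continuous_snd.comp continuous_snd).continuousOn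
  have hK : IsCompact ((fun p : Ek k × ℝ × Ek k => (cpt p.1 (φ p.1 + y p.1 p.2.1 + p.2.2) : Cn k)) ''
      (closedBall x0 ρ1 ×ˢ (Icc a b ×ˢ closedBall (0 : Ek k) e))) :=
    ((isCompact_closedBall _ _).prod (isCompact_Icc.prod (isCompact_closedBall _ _))).image_of_continuousOn
      hcont
  obtain ⟨d, hd, hdA⟩ := hK.exists_thickening_subset_open hBW.opn (by
    rintro _ ⟨p, ⟨hp1, hp2, hp3⟩, rfl⟩
    exact hmem p.1 hp1 p.2.1 hp2 p.2.2 (mem_closedBall_zero_iff.1 hp3))
  refine ⟨d, hd, fun x hx r hr v hv q hq => hdA ?_⟩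
  rw [mem_thickening_iff]
  refine ⟨_, ⟨(x, r, v), ⟨hx, hr, mem_closedBall_zero_iff.2 hv⟩, rfl⟩, ?_⟩
  rw [dist_eq_norm]
  exact hq

end KV
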