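import Pool.Agent.Lib.KV.SpecM

set_option autoImplicit false

open Set Filter Topology Metric

namespace KV

open KP

theorem tThP (h1 : S_Tn) : S_ThP := by
  intro k A x0 φ y ρ1 R1 ρ2 C R θ ε hB hR
  obtain ⟨htp, htb, -⟩ := h1 θ hR.hθ hR.hθ1
  obtain ⟨htp', -⟩ := h1 (θ / 2) (by linarith [hR.hθ]) (by linarith [hR.hθ1, hR.hθ])
  have hεR : ε ≤ R := by
    have h2 := hR.hεR
    have h3 := hR.hθ1
    have h4 := hR.hR
    nlinarith
  have hh : ∀ τ ∈ Icc (0 : ℝ) 1, ∀ t, ε + τ * (R - ε) * tn θ t ∈ Icc ε R := by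
    rintro τ ⟨hτ0, hτ1⟩ t
    obtain ⟨ht0, ht1⟩ := htb t
    have h5 : 0 ≤ τ * (R - ε) := mul_nonneg hτ0 (by linarith)
    have h6 : τ * (R - ε) ≤ R - ε := by nlinarith
    constructor
    · nlinarith [mul_nonneg h5 ht0]
    · nlinarith [mul_le_mul_of_nonneg_left ht1 h5]
  have hh' : ∀ τ ∈ Icc (0 : ℝ) 1, ∀ t, ε + τ * (R - ε) * tn θ t ∈ Ioo (0 : ℝ) R1 := by
    intro τ hτ t
    obtain ⟨h7, h8⟩ := hh τ hτ t
    exact ⟨hR.hε.trans_le h7, h8.trans_lt hR.hRR⟩
  refine ⟨hh, ?_, ?_, ?_⟩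
  · intro τ hτ η x x' t
    have h9 : Th φ y R θ ε τ η x t - Th φ y R θ ε τ η x' t = (φ x - φ x') +
        (y x (ε + τ * (R - ε) * tn θ t) - y x' (ε + τ * (R - ε) * tn θ t)) := by
      unfold Th
      abel
    rw [h9]
    have h10 := hB.lφ x x'
    have h11 := hB.ly x x' _ (hh' τ hτ t)
    have h12 := norm_add_le (φ x - φ x')
      (y x (ε + τ * (R - ε) * tn θ t) - y x' (ε + τ * (R - ε) * tn θ t))
    linarith
  · intro τ η x t
    unfold Th
    rw [htp.2 t, htp'.2 t]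
  · have hφ : Continuous φ := by
      have : LipschitzWith (1 / 40) φ := by
        apply LipschitzWith.of_dist_le_mul
        intro x x'
        rw [dist_eq_norm, dist_eq_norm]
        simpa using hB.lφ x x'
      exact this.continuous
    have hY : ContinuousOn (fun q : Ek k × ℝ => y q.1 q.2) (univ ×ˢ Ioo (0 : ℝ) R1) := by
      rw [Metric.continuousOn_iff]
      rintro ⟨x, r⟩ ⟨-, hr⟩ e he
      have hC : 0 < C := by linarith [hB.hC]
      refine ⟨min (e / 2) (e / (2 * C)), by positivity, ?_⟩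
      rintro ⟨x', r'⟩ ⟨-, hr'⟩ hd
      rw [Prod.dist_eq, max_lt_iff, lt_min_iff, lt_min_iff] at hd
      obtain ⟨⟨hd1, hd2⟩, hd3, hd4⟩ := hd
      simp only [dist_eq_norm] at hd1 hd3 hd4 ⊢
      rw [Real.norm_eq_abs] at hd4
      have h13 := hB.ly x' x r' hr'
      have h14 := hB.lr x r' hr' r hr
      have h15 : y x' r' - y x r = (y x' r' - y x r') + (y x r' - y x r) := by abel
      rw [h15]
      have h16 := norm_add_le (y x' r' - y x r') (y x r' - y x r)
      have h17 : C * |r' - r| < C * (e / (2 * C)) := mul_lt_mul_of_pos_left hd4 hC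
      have h18 : C * (e / (2 * C)) = e / 2 := by field_simp
      linarith [norm_nonneg (x' - x)]
    have hm1 : ContinuousOn (fun q : ℝ × Ek k × Ek k × ℝ => ((q.2.2.1,
        ε + q.1 * (R - ε) * tn θ q.2.2.2) : Ek k × ℝ)) {q | q.1 ∈ Icc (0 : ℝ) 1} := by
      have h19 := htp.1
      fun_prop
    have hm2 := hY.comp hm1 (fun q hq => ⟨mem_univ _, hh' q.1 hq q.2.2.2⟩)
    have h20 := htp'.1
    unfold Th
    refine ((hφ.comp (by fun_prop)).continuousOn.add hm2).add ?_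
    fun_prop

end KV
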