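import Pool.Agent.Lib.KV.SpecM

set_option autoImplicit false

open Set Filter Topology Metric

namespace KV

namespace TnAux

noncomputable def e (t : ℝ) : ℝ := ‖Complex.exp (t * Complex.I) - 1‖

theorem e_cont : Continuous e := by
  unfold e; fun_prop

theorem e_per : Function.Periodic e (2 * Real.pi) := by
  intro t
  unfold e
  have : Complex.exp (((t + 2 * Real.pi : ℝ) : ℂ) * Complex.I) =
      Complex.exp ((t : ℂ) * Complex.I) := by
    push_cast
    rw [add_mul]
    exact Complex.exp_periodic _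
  rw [this]

theorem e_le (t : ℝ) : e t ≤ |t| := by
  unfold e
  have := Real.norm_exp_I_mul_ofReal_sub_one_le (x := t)
  rw [mul_comm]
  exact this

theorem e_ge {t : ℝ} (h : |t| ≤ Real.pi) : 2 / Real.pi * |t| ≤ e t := by
  unfold e
  rw [mul_comm (t : ℂ), Complex.norm_exp_I_mul_ofReal_sub_one, norm_mul]
  have h0 : |t / 2| = |t| / 2 := by rw [abs_div]; norm_num
  have h1 : ‖Real.sin (t / 2)‖ = Real.sin (|t| / 2) := by
    rw [Real.norm_eq_abs, Real.abs_sin_eq_sin_abs_of_abs_le_pi, h0]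
    rw [h0]
    have := abs_nonneg t
    linarith
  have h2 := Real.mul_le_sin (x := |t| / 2) (by positivity) (by linarith)
  rw [h1]
  have h3 : ‖(2 : ℝ)‖ = 2 := by norm_num
  rw [h3]
  linarith

theorem e_lip (t t' : ℝ) : |e t - e t'| ≤ |t - t'| := by
  unfold e
  refine (abs_norm_sub_norm_le _ _).trans ?_
  have h1 : Complex.exp (t * Complex.I) - 1 - (Complex.exp (t' * Complex.I) - 1) =
      Complex.exp (t' * Complex.I) * (Complex.exp (((t - t' : ℝ) : ℂ) * Complex.I) - 1) := by
    rw [mul_sub, ← Complex.exp_add]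
    push_cast
    ring_nf
  rw [h1, norm_mul, Complex.norm_exp_ofReal_mul_I, one_mul]
  exact e_le _

theorem tn_cont (θ : ℝ) : Continuous (tn θ) := by
  show Continuous fun t => max 0 (1 - e t / θ)
  have := e_cont
  fun_prop

theorem tn_eq (θ t : ℝ) : tn θ t = max 0 (1 - e t / θ) := rfl

theorem tn_per (θ : ℝ) : Function.Periodic (tn θ) (2 * Real.pi) := by
  intro t
  rw [tn_eq, tn_eq, e_per]

theorem tn_nn (θ t : ℝ) : 0 ≤ tn θ t := le_max_left _ _

theorem tn_le {θ : ℝ} (h : 0 < θ) (t : ℝ) : tn θ t ≤ 1 := by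
  rw [tn_eq]
  refine max_le zero_le_one ?_
  have : 0 ≤ e t / θ := div_nonneg (norm_nonneg _) h.le
  linarith

theorem tn_lip {θ : ℝ} (h : 0 < θ) (t t' : ℝ) : |tn θ t - tn θ t'| ≤ |t - t'| / θ := by
  rw [tn_eq, tn_eq, max_comm 0, max_comm 0]
  refine (abs_max_sub_max_le_abs _ _ _).trans ?_
  have : 1 - e t / θ - (1 - e t' / θ) = (e t' - e t) / θ := by ring
  rw [this, abs_div, abs_of_pos h, abs_sub_comm (e t')]
  exact div_le_div_of_nonneg_right (e_lip t t') h.le

/-- The indicator function of the support. -/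
noncomputable def ic (θ s : ℝ) : ℝ := if 0 < tn θ s then 1 else 0

theorem tn_zero {θ : ℝ} (h : 0 < θ) {s : ℝ} (h1 : Real.pi * θ / 2 ≤ |s|) (h2 : |s| ≤ Real.pi) :
    ¬ 0 < tn θ s := by
  have h3 := e_ge h2
  have hp := Real.pi_pos
  have h4 : θ ≤ e s := by
    have : 2 / Real.pi * (Real.pi * θ / 2) ≤ 2 / Real.pi * |s| := by gcongr
    have h5 : 2 / Real.pi * (Real.pi * θ / 2) = θ := by field_simp
    linarith
  rw [tn_eq, not_lt]
  refine max_le le_rfl ?_
  have : 1 ≤ e s / θ := (one_le_div h).2 h4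
  linarith

theorem int_eq {θ : ℝ} (h : 0 < θ) (h1 : θ ≤ 1) {f : ℝ → ℝ}
    (hp : Function.Periodic f (2 * Real.pi))
    (hi : ∀ a b, IntervalIntegrable f MeasureTheory.volume a b)
    (h0 : ∀ s, ¬ 0 < tn θ s → f s = 0) :
    (∫ s in (0 : ℝ)..(2 * Real.pi), f s) =
      ∫ s in (-(Real.pi * θ / 2))..(Real.pi * θ / 2), f s := by
  have hpi := Real.pi_pos
  have hb : Real.pi * θ / 2 ≤ Real.pi := by nlinarith
  have hb0 : 0 < Real.pi * θ / 2 := by positivity
  set b := Real.pi * θ / 2 with hbd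
  have e1 := hp.intervalIntegral_add_eq 0 (-Real.pi)
  rw [zero_add, show -Real.pi + 2 * Real.pi = Real.pi by ring] at e1
  rw [e1, ← intervalIntegral.integral_add_adjacent_intervals (hi (-Real.pi) (-b))
    (hi (-b) Real.pi), ← intervalIntegral.integral_add_adjacent_intervals (hi (-b) b)
    (hi b Real.pi)]
  have z1 : (∫ s in (-Real.pi)..(-b), f s) = 0 := by
    rw [intervalIntegral.integral_congr (g := fun _ => (0 : ℝ)), intervalIntegral.integral_zero]
    intro s hs
    rw [uIcc_of_le (by linarith)] at hs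
    have hs0 : s ≤ 0 := by linarith [hs.2]
    refine h0 s (tn_zero h ?_ ?_)
    · rw [abs_of_nonpos hs0, ← hbd]; linarith [hs.2]
    · rw [abs_of_nonpos hs0]; linarith [hs.1]
  have z2 : (∫ s in b..Real.pi, f s) = 0 := by
    rw [intervalIntegral.integral_congr (g := fun _ => (0 : ℝ)), intervalIntegral.integral_zero]
    intro s hs
    rw [uIcc_of_le (by linarith)] at hs
    have hs0 : 0 ≤ s := by linarith [hs.1]
    refine h0 s (tn_zero h ?_ ?_)
    · rw [abs_of_nonneg hs0, ← hbd]; linarith [hs.1]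
    · rw [abs_of_nonneg hs0]; linarith [hs.2]
  rw [z1, z2]
  ring

theorem int_ite (θ : ℝ) {g : ℝ → ℝ} (hg : Continuous g) (a b : ℝ) :
    IntervalIntegrable (fun s => if 0 < tn θ s then g s else 0) MeasureTheory.volume a b := by
  have hS : MeasurableSet {s | 0 < tn θ s} :=
    (isOpen_lt continuous_const (tn_cont θ)).measurableSet
  have e : (fun s => if 0 < tn θ s then g s else 0) = indicator {s | 0 < tn θ s} g := by
    funext s; simp [indicator]
  rw [e]
  have := hg.intervalIntegrable (μ := MeasureTheory.volume) a b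
  exact ⟨this.1.indicator hS, this.2.indicator hS⟩

theorem ic_int (θ a b : ℝ) : IntervalIntegrable (ic θ) MeasureTheory.volume a b :=
  int_ite θ (continuous_const (y := (1 : ℝ))) a b

theorem ic_per (θ : ℝ) : Function.Periodic (ic θ) (2 * Real.pi) := by
  intro s
  unfold ic
  rw [tn_per]

theorem ic_nn (θ s : ℝ) : 0 ≤ ic θ s := by
  unfold ic; split_ifs <;> norm_num

theorem ic_le (θ s : ℝ) : ic θ s ≤ 1 := by
  unfold ic; split_ifs <;> norm_num

theorem ic_mean {θ : ℝ} (h : 0 < θ) (h1 : θ ≤ 1) :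
    (∫ s in (0 : ℝ)..(2 * Real.pi), ic θ s) ≤ Real.pi * θ := by
  rw [int_eq h h1 (ic_per θ) (ic_int θ) (fun s hs => by unfold ic; rw [if_neg hs])]
  have hpi := Real.pi_pos
  have hb0 : 0 < Real.pi * θ / 2 := by positivity
  calc (∫ s in (-(Real.pi * θ / 2))..(Real.pi * θ / 2), ic θ s)
      ≤ ∫ s in (-(Real.pi * θ / 2))..(Real.pi * θ / 2), (1 : ℝ) :=
        intervalIntegral.integral_mono_on (by linarith) (ic_int θ _ _)
          (continuous_const.intervalIntegrable _ _) fun s _ => ic_le θ s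
    _ = Real.pi * θ := by
        rw [intervalIntegral.integral_const, smul_eq_mul]; ring

theorem mean_le {θ : ℝ} (h : 0 < θ) (h1 : θ ≤ 1) {f : ℝ → ℝ} (hf : Continuous f)
    (hle : ∀ s, f s ≤ ic θ s) : mn f ≤ θ / 2 := by
  have hpi := Real.pi_pos
  unfold mn
  rw [smul_eq_mul]
  have h2 : (∫ s in (0 : ℝ)..(2 * Real.pi), f s) ≤ Real.pi * θ :=
    (intervalIntegral.integral_mono_on (by positivity) (hf.intervalIntegrable _ _)
      (ic_int θ _ _) fun s _ => hle s).trans (ic_mean h h1)
  calc (2 * Real.pi)⁻¹ * (∫ s in (0 : ℝ)..(2 * Real.pi), f s)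
      ≤ (2 * Real.pi)⁻¹ * (Real.pi * θ) := by gcongr
    _ = θ / 2 := by field_simp

theorem mn_nn {f : ℝ → ℝ} (h : ∀ s, 0 ≤ f s) : 0 ≤ mn f := by
  have hpi := Real.pi_pos
  unfold mn
  rw [smul_eq_mul]
  exact mul_nonneg (by positivity)
    (intervalIntegral.integral_nonneg (by positivity) fun s _ => h s)

theorem N2_sq (f : ℝ → ℝ) : N2 f ^ 2 = mn fun s => f s ^ 2 := by
  unfold N2
  rw [Real.sq_sqrt (mn_nn fun s => by positivity)]
  simp only [Real.norm_eq_abs, sq_abs]

theorem tn_le_ic {θ : ℝ} (h : 0 < θ) (s : ℝ) : tn θ s ≤ ic θ s := by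
  unfold ic
  split_ifs with hs
  · exact tn_le h s
  · exact not_lt.1 hs

theorem tn_sq_le_ic {θ : ℝ} (h : 0 < θ) (s : ℝ) : tn θ s ^ 2 ≤ ic θ s := by
  have h1 := tn_le_ic h s
  have h2 := tn_nn θ s
  have h3 := tn_le h s
  nlinarith

/-- Cauchy-Schwarz on an interval. -/
theorem cs {f h : ℝ → ℝ} (hf : Continuous f) (hh : Continuous h) {a b : ℝ} (hab : a ≤ b) :
    (∫ s in a..b, f s * h s) ^ 2 ≤ (∫ s in a..b, f s ^ 2) * ∫ s in a..b, h s ^ 2 := by
  have key : ∀ x : ℝ, 0 ≤ (∫ s in a..b, h s ^ 2) * (x * x) +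
      (2 * ∫ s in a..b, f s * h s) * x + ∫ s in a..b, f s ^ 2 := by
    intro x
    have h1 : 0 ≤ ∫ s in a..b, (f s + x * h s) ^ 2 :=
      intervalIntegral.integral_nonneg hab fun s _ => sq_nonneg _
    have h2 : (∫ s in a..b, (f s + x * h s) ^ 2) = (∫ s in a..b, h s ^ 2) * (x * x) +
        (2 * ∫ s in a..b, f s * h s) * x + ∫ s in a..b, f s ^ 2 := by
      have e : (fun s => (f s + x * h s) ^ 2) =
          fun s => (x * x) * h s ^ 2 + (2 * x) * (f s * h s) + f s ^ 2 := by
        funext s; ring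
      rw [e, intervalIntegral.integral_add, intervalIntegral.integral_add,
        intervalIntegral.integral_const_mul, intervalIntegral.integral_const_mul]
      · ring
      all_goals exact Continuous.intervalIntegrable (by fun_prop) _ _
    rw [← h2]; exact h1
  have := discrim_le_zero key
  unfold discrim at this
  nlinarith [this]

theorem low {θ : ℝ} (h : 0 < θ) (h1 : θ ≤ 1) : θ / (2 * Real.pi) ≤ mn (tn θ) := by
  have hpi := Real.pi_pos
  have hpi3 := Real.pi_gt_three
  have hi : ∀ a b, IntervalIntegrable (tn θ) MeasureTheory.volume a b := fun a b =>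
    (tn_cont θ).intervalIntegrable _ _
  have e1 := (tn_per θ).intervalIntegral_add_eq 0 (-Real.pi)
  rw [zero_add, show -Real.pi + 2 * Real.pi = Real.pi by ring] at e1
  have e2 : (∫ s in (-Real.pi)..Real.pi, tn θ s) = (∫ s in (-Real.pi)..(-θ), tn θ s) +
      ((∫ s in (-θ)..0, tn θ s) + ((∫ s in (0 : ℝ)..θ, tn θ s) + ∫ s in θ..Real.pi, tn θ s)) := by
    rw [intervalIntegral.integral_add_adjacent_intervals (hi 0 θ) (hi θ Real.pi),
      intervalIntegral.integral_add_adjacent_intervals (hi (-θ) 0) (hi 0 Real.pi),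
      intervalIntegral.integral_add_adjacent_intervals (hi (-Real.pi) (-θ)) (hi (-θ) Real.pi)]
  have n1 : 0 ≤ ∫ s in (-Real.pi)..(-θ), tn θ s :=
    intervalIntegral.integral_nonneg (by linarith) fun s _ => tn_nn θ s
  have n2 : 0 ≤ ∫ s in θ..Real.pi, tn θ s :=
    intervalIntegral.integral_nonneg (by linarith) fun s _ => tn_nn θ s
  have lowb : ∀ s, 1 - |s| / θ ≤ tn θ s := by
    intro s
    rw [tn_eq]
    refine le_max_of_le_right ?_
    have := div_le_div_of_nonneg_right (e_le s) h.le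
    linarith
  have n3 : θ / 2 ≤ ∫ s in (0 : ℝ)..θ, tn θ s := by
    have : (∫ s in (0 : ℝ)..θ, (1 - s / θ)) = θ / 2 := by
      have hcd : Continuous fun s : ℝ => s / θ := by fun_prop
      rw [intervalIntegral.integral_sub (continuous_const.intervalIntegrable _ _)
        (hcd.intervalIntegrable _ _), intervalIntegral.integral_const,
        intervalIntegral.integral_div, integral_id, smul_eq_mul]
      field_simp
      ring
    rw [← this]
    refine intervalIntegral.integral_mono_on h.le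
      ((continuous_const.sub (continuous_id.div_const θ)).intervalIntegrable _ _) (hi _ _) ?_
    intro s hs
    have := lowb s
    rwa [abs_of_nonneg hs.1] at this
  have n4 : θ / 2 ≤ ∫ s in (-θ)..0, tn θ s := by
    have : (∫ s in (-θ)..0, (1 + s / θ)) = θ / 2 := by
      have hcd : Continuous fun s : ℝ => s / θ := by fun_prop
      rw [intervalIntegral.integral_add (continuous_const.intervalIntegrable _ _)
        (hcd.intervalIntegrable _ _), intervalIntegral.integral_const,
        intervalIntegral.integral_div, integral_id, smul_eq_mul]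
      field_simp
      ring
    rw [← this]
    refine intervalIntegral.integral_mono_on (by linarith)
      ((continuous_const.add (continuous_id.div_const θ)).intervalIntegrable _ _) (hi _ _) ?_
    intro s hs
    have := lowb s
    rw [abs_of_nonpos hs.2] at this
    calc 1 + s / θ = 1 - -s / θ := by ring
      _ ≤ _ := this
  unfold mn
  rw [smul_eq_mul, e1, e2]
  calc θ / (2 * Real.pi) = (2 * Real.pi)⁻¹ * θ := by field_simp
    _ ≤ _ := by gcongr; linarith

theorem gmean {θ : ℝ} (h : 0 < θ) (h1 : θ ≤ 1) {g : ℝ → ℝ} (hg : PC g) (hg0 : ∀ s, 0 ≤ g s) :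
    mn (fun s => if 0 < tn θ s then g s else 0) ≤ Real.sqrt (θ / 2) * N2 g := by
  have hpi := Real.pi_pos
  have hb0 : 0 < Real.pi * θ / 2 := by positivity
  have hb : Real.pi * θ / 2 ≤ Real.pi := by nlinarith
  set b := Real.pi * θ / 2 with hbd
  have hfp : Function.Periodic (fun s => if 0 < tn θ s then g s else 0) (2 * Real.pi) := by
    intro s
    simp only [tn_per θ s, hg.2 s]
  have e1 := int_eq h h1 hfp (int_ite θ hg.1) (fun s hs => if_neg hs)
  rw [← hbd] at e1
  have e2 : (∫ s in (-b)..b, if 0 < tn θ s then g s else 0) ≤ ∫ s in (-b)..b, g s := by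
    refine intervalIntegral.integral_mono_on (by linarith) (int_ite θ hg.1 _ _)
      (hg.1.intervalIntegrable _ _) fun s _ => ?_
    split_ifs
    · exact le_rfl
    · exact hg0 s
  have e3 := cs hg.1 (continuous_const (y := (1 : ℝ))) (show -b ≤ b by linarith)
  simp only [mul_one, one_pow] at e3
  rw [intervalIntegral.integral_const, smul_eq_mul, mul_one] at e3
  have hc2 : Continuous fun s => g s ^ 2 := hg.1.pow 2
  have e4 : (∫ s in (-b)..b, g s ^ 2) ≤ 2 * Real.pi * N2 g ^ 2 := by
    have hper : Function.Periodic (fun s => g s ^ 2) (2 * Real.pi) := fun s => by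
      simp only [hg.2 s]
    have h2 := hper.intervalIntegral_add_eq 0 (-Real.pi)
    rw [zero_add, show -Real.pi + 2 * Real.pi = Real.pi by ring] at h2
    have h3 : 2 * Real.pi * N2 g ^ 2 = ∫ s in (-Real.pi)..Real.pi, g s ^ 2 := by
      rw [← h2, N2_sq]
      unfold mn
      rw [smul_eq_mul]
      field_simp
    rw [h3]
    have s1 := intervalIntegral.integral_add_adjacent_intervals
      (hc2.intervalIntegrable (μ := MeasureTheory.volume) (-Real.pi) (-b))
      (hc2.intervalIntegrable (-b) Real.pi)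
    have s2 := intervalIntegral.integral_add_adjacent_intervals
      (hc2.intervalIntegrable (μ := MeasureTheory.volume) (-b) b)
      (hc2.intervalIntegrable b Real.pi)
    have n1 : 0 ≤ ∫ s in (-Real.pi)..(-b), g s ^ 2 :=
      intervalIntegral.integral_nonneg (by linarith) fun s _ => by positivity
    have n2 : 0 ≤ ∫ s in b..Real.pi, g s ^ 2 :=
      intervalIntegral.integral_nonneg (by linarith) fun s _ => by positivity
    linarith
  have hN : 0 ≤ N2 g := Real.sqrt_nonneg _
  have e5 : (∫ s in (-b)..b, g s) ≤ 2 * Real.pi * (Real.sqrt (θ / 2) * N2 g) := by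
    have h0 : 0 ≤ 2 * Real.pi * (Real.sqrt (θ / 2) * N2 g) := by positivity
    have h2 : (∫ s in (-b)..b, g s) ^ 2 ≤ (2 * Real.pi * (Real.sqrt (θ / 2) * N2 g)) ^ 2 := by
      have h3 : (2 * Real.pi * (Real.sqrt (θ / 2) * N2 g)) ^ 2 =
          (2 * Real.pi * N2 g ^ 2) * (b - -b) := by
        have h4 : (2 * Real.pi * (Real.sqrt (θ / 2) * N2 g)) ^ 2 =
            4 * Real.pi ^ 2 * Real.sqrt (θ / 2) ^ 2 * N2 g ^ 2 := by ring
        rw [h4, Real.sq_sqrt (by positivity), hbd]
        ring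
      rw [h3]
      refine e3.trans ?_
      exact mul_le_mul_of_nonneg_right e4 (by linarith)
    exact (abs_le_of_sq_le_sq' h2 h0).2
  unfold mn
  rw [smul_eq_mul, e1]
  calc (2 * Real.pi)⁻¹ * (∫ s in (-b)..b, if 0 < tn θ s then g s else 0)
      ≤ (2 * Real.pi)⁻¹ * (2 * Real.pi * (Real.sqrt (θ / 2) * N2 g)) := by
        gcongr; exact e2.trans e5
    _ = Real.sqrt (θ / 2) * N2 g := by field_simp

theorem dif {θ : ℝ} (h : 0 < θ) (h1 : θ ≤ 1) (a : ℝ) :
    N2 (fun s => tn θ (s + a) - tn θ s) ≤ |a| / Real.sqrt θ := by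
  have hpi := Real.pi_pos
  have hic2 : IntervalIntegrable (fun s => ic θ (s + a)) MeasureTheory.volume 0 (2 * Real.pi) := by
    have := (ic_int θ (0 + a) (2 * Real.pi + a)).comp_add_right a
    simpa using this
  have hm2 : (∫ s in (0 : ℝ)..(2 * Real.pi), ic θ (s + a)) ≤ Real.pi * θ := by
    rw [intervalIntegral.integral_comp_add_right (fun x => ic θ x) a, add_comm (2 * Real.pi) a,
      zero_add]
    have := (ic_per θ).intervalIntegral_add_eq a 0
    rw [zero_add] at this
    rw [this]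
    exact ic_mean h h1
  have hcD : Continuous fun s => (tn θ (s + a) - tn θ s) ^ 2 := by
    have := tn_cont θ
    fun_prop
  have hpt : ∀ s, (tn θ (s + a) - tn θ s) ^ 2 ≤ (|a| / θ) ^ 2 * (ic θ (s + a) + ic θ s) := by
    intro s
    have hl := tn_lip h (s + a) s
    rw [show s + a - s = a by ring] at hl
    have h2 : (tn θ (s + a) - tn θ s) ^ 2 ≤ (|a| / θ) ^ 2 := by
      rw [← sq_abs (tn θ (s + a) - tn θ s)]
      exact pow_le_pow_left₀ (abs_nonneg _) hl 2
    have h3 := ic_nn θ s
    have h4 := ic_nn θ (s + a)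
    have h5 : 0 ≤ (|a| / θ) ^ 2 := by positivity
    by_cases c1 : 0 < tn θ s
    · have : ic θ s = 1 := if_pos c1
      rw [this]
      nlinarith
    · by_cases c2 : 0 < tn θ (s + a)
      · have : ic θ (s + a) = 1 := if_pos c2
        rw [this]
        nlinarith
      · have z1 : tn θ s = 0 := le_antisymm (not_lt.1 c1) (tn_nn _ _)
        have z2 : tn θ (s + a) = 0 := le_antisymm (not_lt.1 c2) (tn_nn _ _)
        rw [z1, z2]
        have : 0 ≤ (|a| / θ) ^ 2 * (ic θ (s + a) + ic θ s) := by positivity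
        simpa using this
  have hI : (∫ s in (0 : ℝ)..(2 * Real.pi), (tn θ (s + a) - tn θ s) ^ 2) ≤
      (|a| / θ) ^ 2 * (2 * Real.pi * θ) := by
    calc (∫ s in (0 : ℝ)..(2 * Real.pi), (tn θ (s + a) - tn θ s) ^ 2)
        ≤ ∫ s in (0 : ℝ)..(2 * Real.pi), (|a| / θ) ^ 2 * (ic θ (s + a) + ic θ s) :=
          intervalIntegral.integral_mono_on (by positivity) (hcD.intervalIntegrable _ _)
            ((hic2.add (ic_int θ _ _)).const_mul _) fun s _ => hpt s
      _ = (|a| / θ) ^ 2 * ((∫ s in (0 : ℝ)..(2 * Real.pi), ic θ (s + a)) +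
            ∫ s in (0 : ℝ)..(2 * Real.pi), ic θ s) := by
          rw [intervalIntegral.integral_const_mul, intervalIntegral.integral_add hic2
            (ic_int θ _ _)]
      _ ≤ (|a| / θ) ^ 2 * (2 * Real.pi * θ) := by
          have := ic_mean h h1
          gcongr
          linarith
  have h2 : N2 (fun s => tn θ (s + a) - tn θ s) ^ 2 ≤ (|a| / Real.sqrt θ) ^ 2 := by
    rw [N2_sq]
    unfold mn
    rw [smul_eq_mul, div_pow, Real.sq_sqrt h.le]
    calc (2 * Real.pi)⁻¹ * (∫ s in (0 : ℝ)..(2 * Real.pi), (tn θ (s + a) - tn θ s) ^ 2)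
        ≤ (2 * Real.pi)⁻¹ * ((|a| / θ) ^ 2 * (2 * Real.pi * θ)) := by gcongr
      _ = |a| ^ 2 / θ := by field_simp
  exact (abs_le_of_sq_le_sq' h2 (by positivity)).2

end TnAux

open TnAux

theorem tTn : S_Tn := by
  intro θ h h1
  refine ⟨⟨tn_cont θ, tn_per θ⟩, fun t => ⟨tn_nn θ t, tn_le h t⟩, ?_, ?_, low h h1, dif h h1,
    tn_lip h, fun g hg hg0 => gmean h h1 hg hg0, ?_⟩
  · rw [N2_sq]
    exact mean_le h h1 ((tn_cont θ).pow 2) (tn_sq_le_ic h)
  · exact mean_le h h1 (tn_cont θ) (tn_le_ic h)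
  · intro t ht
    rw [tn_eq] at ht ⊢
    rcases lt_max_iff.1 ht with h2 | h2
    · exact absurd h2 (lt_irrefl _)
    · refine le_max_of_le_right ?_
      have h3 : e t / (θ / 2) = 2 * (e t / θ) := by field_simp
      rw [h3] at h2
      linarith

end KV
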