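import Pool.Agent.Lib.KV.SpecM

set_option autoImplicit false

open Set Filter Topology Metric

namespace KV

open KP

namespace EstAux

theorem N2_norm {F : Type} [NormedAddCommGroup F] [NormedSpace ℝ F] (u : ℝ → F) :
    N2 (fun s => ‖u s‖) = N2 u := by
  unfold N2
  simp only [norm_norm]

theorem N2_nn {F : Type} [NormedAddCommGroup F] [NormedSpace ℝ F] (u : ℝ → F) : 0 ≤ N2 u :=
  Real.sqrt_nonneg _

theorem N2_mul (c : ℝ) (f : ℝ → ℝ) : N2 (fun s => c * f s) = |c| * N2 f := by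
  unfold N2 mn
  rw [smul_eq_mul, smul_eq_mul]
  have e1 : (∫ s in (0 : ℝ)..(2 * Real.pi), ‖c * f s‖ ^ 2) =
      |c| ^ 2 * ∫ s in (0 : ℝ)..(2 * Real.pi), ‖f s‖ ^ 2 := by
    rw [← intervalIntegral.integral_const_mul]
    refine intervalIntegral.integral_congr fun s _ => ?_
    show ‖c * f s‖ ^ 2 = |c| ^ 2 * ‖f s‖ ^ 2
    rw [norm_mul, mul_pow, Real.norm_eq_abs c]
  have e2 : ∀ I : ℝ, (2 * Real.pi)⁻¹ * (|c| ^ 2 * I) = |c| ^ 2 * ((2 * Real.pi)⁻¹ * I) := by
    intro I; ring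
  rw [e1, e2, Real.sqrt_mul (by positivity), Real.sqrt_sq (abs_nonneg c)]

theorem N2_le (h1 : S_NN) {F : Type} [NormedAddCommGroup F] [NormedSpace ℝ F] {u : ℝ → F}
    {g : ℝ → ℝ} (hu : PC u) (hg : PC g) (h : ∀ s, ‖u s‖ ≤ g s) : N2 u ≤ N2 g := by
  rw [← N2_norm u]
  refine (h1 ℝ (fun s => ‖u s‖) g ⟨hu.1.norm, fun s => by simp only [hu.2 s]⟩ hg).2.1 fun s => ?_
  rw [norm_norm]
  exact (h s).trans (le_abs_self _)

theorem pc_mul {f : ℝ → ℝ} (hf : PC f) (c : ℝ) : PC fun s => c * f s :=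
  ⟨continuous_const.mul hf.1, fun s => by simp only [hf.2 s]⟩

theorem pc_add {f g : ℝ → ℝ} (hf : PC f) (hg : PC g) : PC fun s => f s + g s :=
  ⟨hf.1.add hg.1, fun s => by simp only [hf.2 s, hg.2 s]⟩

theorem pc_const (c : ℝ) : PC fun _ : ℝ => c := ⟨continuous_const, fun _ => rfl⟩

theorem N2_comb2 (h1 : S_NN) {f g : ℝ → ℝ} (hf : PC f) (hg : PC g) {b c : ℝ} (hb : 0 ≤ b)
    (hc : 0 ≤ c) : N2 (fun s => b * f s + c * g s) ≤ b * N2 f + c * N2 g := by
  have := (h1 ℝ _ _ (pc_mul hf b) (pc_mul hg c)).1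
  rwa [N2_mul, N2_mul, abs_of_nonneg hb, abs_of_nonneg hc] at this

theorem N2_comb3 (h1 : S_NN) {f g : ℝ → ℝ} (hf : PC f) (hg : PC g) {a b c : ℝ} (ha : 0 ≤ a)
    (hb : 0 ≤ b) (hc : 0 ≤ c) :
    N2 (fun s => a + (b * f s + c * g s)) ≤ a + (b * N2 f + c * N2 g) := by
  have e1 := (h1 ℝ _ _ (pc_const a) (pc_add (pc_mul hf b) (pc_mul hg c))).1
  have e2 : N2 (fun _ : ℝ => a) ≤ a :=
    (h1 ℝ _ _ (pc_const a) (pc_const a)).2.2.2.2.2.2.2 a ha fun _ => by
      rw [Real.norm_eq_abs, abs_of_nonneg ha]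
  have e3 := N2_comb2 h1 hf hg hb hc
  linarith

/-- From the components to the norm. -/
theorem norm_of_comp {k : ℕ} (v : Ek k) {M : ℝ} (hM : 0 ≤ M) (h : ∀ j, |v j| ≤ M) :
    ‖v‖ ≤ (k + 1) * M := by
  rw [EuclideanSpace.norm_eq]
  refine Real.sqrt_le_iff.2 ⟨by positivity, ?_⟩
  calc (∑ i, ‖v i‖ ^ 2) ≤ ∑ _i : Fin k, M ^ 2 := Finset.sum_le_sum fun i _ => by
        rw [Real.norm_eq_abs]
        exact pow_le_pow_left₀ (abs_nonneg _) (h i) 2
    _ = k * M ^ 2 := by simp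
    _ ≤ ((k + 1) * M) ^ 2 := by
        rw [mul_pow]
        have hk : (0 : ℝ) ≤ k := Nat.cast_nonneg k
        have : (k : ℝ) ≤ (k + 1) ^ 2 := by nlinarith
        gcongr

theorem comp_le {k : ℕ} (v : Ek k) (j : Fin k) : |v j| ≤ ‖v‖ := by
  rw [← Real.norm_eq_abs]
  exact PiLp.norm_apply_le v j

end EstAux

open EstAux

theorem tEst (h1 : S_NN) (h2 : S_QQ) (h3 : S_BisU) (h4 : S_Hol) (h5 : S_Tn) (h6 : S_ThP) :
    S_Est := by
  intro k A x0 φ y ρ1 R1 ρ2 C R θ ε τ hB hG η hη ρ hρ hρ1 x hx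
  have hR := hG.hR
  have hθ := hG.hθ
  have hC := hB.hC
  have hpi := Real.pi_pos
  have hG1 : Rg k ρ1 R1 ρ2 C R θ ε 1 :=
    ⟨hG.hR, hG.hRR, hG.hRs, hG.hθ, hG.hθ1, hG.hε, hG.hεR, zero_le_one, le_rfl⟩
  obtain ⟨tp1, tp2, tp3, tp4⟩ := h6 k A x0 φ y ρ1 R1 ρ2 C R θ ε hB hG1
  have hτI : τ ∈ Icc (0 : ℝ) 1 := ⟨hG.hτ, hG.hτ1⟩
  have hεR : ε ≤ R := hG.hεR.trans (by nlinarith [hG.hθ1])
  set T : Ek k → ℝ → Ek k := Th φ y R θ ε τ η with hT
  have hTc : Continuous fun p : Ek k × ℝ => T p.1 p.2 := by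
    have := tp4.comp_continuous (f := fun p : Ek k × ℝ => (τ, η, p.1, p.2)) (by fun_prop)
      (fun p => hτI)
    exact this
  have hTp : ∀ x, Function.Periodic (T x) (2 * Real.pi) := fun x => tp3 τ η x
  have hTl : ∀ x x' t, ‖T x t - T x' t‖ ≤ 1 / 4 * ‖x - x'‖ := fun x x' t =>
    (tp2 τ hτI η x x' t).trans (by
      have := norm_nonneg (x - x')
      linarith)
  obtain ⟨⟨hxc, hxp⟩, hxe⟩ := hx
  have hx' : Sol ρ x0 T x := ⟨⟨hxc, hxp⟩, hxe⟩
  obtain ⟨t1, t2, t3, -, -, t6, -, -, -⟩ := h5 θ hθ hG.hθ1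
  have hθ2 : 0 < θ / 2 := by positivity
  obtain ⟨s1, s2, s3, -, -, s6, -, -, -⟩ := h5 (θ / 2) hθ2 (by linarith [hG.hθ1])
  -- the square root of θ
  set q : ℝ := Real.sqrt θ with hq
  have hq0 : 0 < q := Real.sqrt_pos.2 hθ
  have hqq : q ^ 2 = θ := Real.sq_sqrt hθ.le
  have hq1 : q ≤ 1 := Real.sqrt_le_one.2 hG.hθ1
  have n1 : N2 (tn θ) ≤ 71 / 100 * q := by
    have : N2 (tn θ) ^ 2 ≤ (71 / 100 * q) ^ 2 := by
      rw [mul_pow, hqq]; linarith
    exact (abs_le_of_sq_le_sq' this (by positivity)).2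
  have n2 : N2 (tn (θ / 2)) ≤ 1 / 2 * q := by
    have : N2 (tn (θ / 2)) ^ 2 ≤ (1 / 2 * q) ^ 2 := by
      rw [mul_pow, hqq]; linarith
    exact (abs_le_of_sq_le_sq' this (by positivity)).2
  have hhI : ∀ t, ε + τ * (R - ε) * tn θ t ∈ Ioo (0 : ℝ) R1 := fun t =>
    ⟨lt_of_lt_of_le hG.hε (tp1 τ hτI t).1, lt_of_le_of_lt (tp1 τ hτI t).2 hG.hRR⟩
  -- (a)
  have pa : N2 (fun s => x s - x0) ≤ 3 * (C + 1) * R * q := by
    have hpx0 : PC fun _ : ℝ => x0 := ⟨continuous_const, fun _ => rfl⟩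
    have hp0 : PC fun _ : ℝ => (0 : Ek k) := ⟨continuous_const, fun _ => rfl⟩
    have hqc := (h2 k ρ hρ hρ1 _ hp0).2.2.2.2.2.2
    have hb := h3 k ρ x0 T hρ hρ1 hTc hTp hTl x (fun _ => x0) (fun _ => 0) hx' hpx0 hp0
      (fun t => by rw [hqc 0 t, sub_zero]) (φ x0)
    have hpc : PC fun s => T x0 s - 0 - φ x0 := by
      refine ⟨?_, fun s => by simp only [hTp x0 s]⟩
      have : Continuous fun s => T x0 s := hTc.comp (by fun_prop : Continuous fun s : ℝ => (x0, s))
      exact (this.sub continuous_const).sub continuous_const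
    have hpg : PC fun s => C * ε + (C * R * tn θ s + R * tn (θ / 2) s) :=
      pc_add (pc_const _) (pc_add (pc_mul t1 _) (pc_mul s1 _))
    have hle := N2_le h1 hpc hpg (fun s => by
      have e1 : T x0 s - 0 - φ x0 = y x0 (ε + τ * (R - ε) * tn θ s) + tn (θ / 2) s • η := by
        rw [hT]
        unfold Th
        abel
      rw [e1]
      refine (norm_add_le _ _).trans ?_
      have b1 := hB.by' x0 _ (hhI s)
      have b2 : ‖tn (θ / 2) s • η‖ ≤ R * tn (θ / 2) s := by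
        rw [norm_smul, Real.norm_eq_abs, abs_of_nonneg (s2 s).1, mul_comm]
        exact mul_le_mul_of_nonneg_right hη (s2 s).1
      have b3 : τ * (R - ε) * tn θ s ≤ R * tn θ s := by
        refine mul_le_mul_of_nonneg_right ?_ (t2 s).1
        have := hG.hτ1
        have := hG.hε
        nlinarith
      have b4 : C * (ε + τ * (R - ε) * tn θ s) ≤ C * (ε + R * tn θ s) := by gcongr
      linarith)
    have hc := N2_comb3 h1 t1 s1 (a := C * ε) (b := C * R) (c := R)
      (mul_nonneg (by linarith) hG.hε.le) (by positivity) hR.le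
    have hε' : C * ε ≤ C * R * q := by
      have : ε ≤ R * q := hG.hεR.trans (by
        rw [← hqq]
        have : q ^ 2 ≤ q := by nlinarith
        gcongr)
      calc C * ε ≤ C * (R * q) := by gcongr
        _ = C * R * q := by ring
    have c1 : C * R * N2 (tn θ) ≤ C * R * (71 / 100 * q) := by gcongr
    have c2 : R * N2 (tn (θ / 2)) ≤ R * (1 / 2 * q) := by gcongr
    have c3 : 0 ≤ R * q := by positivity
    have c4 : 0 ≤ C * R * q := by positivity
    have c5 : 3 * (C + 1) * R * q = 3 * (C * R * q) + 3 * (R * q) := by ring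
    rw [c5]
    linarith
  -- translations
  have pb : ∀ a : ℝ, N2 (fun s => x s - x (s + a)) ≤ 3 * (C + 1) * R / q * |a| := by
    intro a
    have hpx' : PC fun s => x (s + a) := by
      refine ⟨hxc.comp (by fun_prop), fun s => ?_⟩
      show x (s + 2 * Real.pi + a) = x (s + a)
      rw [show s + 2 * Real.pi + a = s + a + 2 * Real.pi by ring, hxp]
    have hpu : PC fun s => T (x s) s := by
      refine ⟨hTc.comp (hxc.prodMk continuous_id), fun s => ?_⟩
      show T (x (s + 2 * Real.pi)) (s + 2 * Real.pi) = T (x s) s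
      rw [hxp, hTp]
    have hpu' : PC fun s => T (x (s + a)) (s + a) := by
      refine ⟨hpu.1.comp (by fun_prop : Continuous fun s : ℝ => s + a), fun s => ?_⟩
      show T (x (s + 2 * Real.pi + a)) (s + 2 * Real.pi + a) = T (x (s + a)) (s + a)
      rw [show s + 2 * Real.pi + a = s + a + 2 * Real.pi by ring, hxp, hTp]
    have hqe := (h2 k ρ hρ hρ1 _ hpu).2.2.2.2.2.1
    have hb := h3 k ρ x0 T hρ hρ1 hTc hTp hTl x (fun s => x (s + a))
      (fun s => T (x (s + a)) (s + a)) hx' hpx' hpu'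
      (fun t => by
        show x (t + a) = _
        rw [hxe (t + a)]
        congr 1
        exact (hqe a t).symm) 0
    have hpD : ∀ {θ' : ℝ}, PC (tn θ') → PC fun s => ‖tn θ' (s + a) - tn θ' s‖ := by
      intro θ' hp
      refine ⟨((hp.1.comp (by fun_prop : Continuous fun s : ℝ => s + a)).sub hp.1).norm,
        fun s => ?_⟩
      show ‖tn θ' (s + 2 * Real.pi + a) - tn θ' (s + 2 * Real.pi)‖ = ‖tn θ' (s + a) - tn θ' s‖
      rw [show s + 2 * Real.pi + a = s + a + 2 * Real.pi by ring, hp.2, hp.2]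
    have hpc : PC fun s => T (x (s + a)) s - T (x (s + a)) (s + a) - 0 := by
      refine ⟨?_, fun s => ?_⟩
      · have c1 : Continuous fun s => T (x (s + a)) s := hTc.comp (hpx'.1.prodMk continuous_id)
        exact (c1.sub hpu'.1).sub continuous_const
      · show T (x (s + 2 * Real.pi + a)) (s + 2 * Real.pi) -
          T (x (s + 2 * Real.pi + a)) (s + 2 * Real.pi + a) - 0 = _
        rw [show s + 2 * Real.pi + a = s + a + 2 * Real.pi by ring, hxp, hTp, hTp]
    have hpg : PC fun s => C * R * ‖tn θ (s + a) - tn θ s‖ +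
        R * ‖tn (θ / 2) (s + a) - tn (θ / 2) s‖ :=
      pc_add (pc_mul (hpD t1) _) (pc_mul (hpD s1) _)
    have hle := N2_le h1 hpc hpg (fun s => by
      have e1 : T (x (s + a)) s - T (x (s + a)) (s + a) - 0 =
          (y (x (s + a)) (ε + τ * (R - ε) * tn θ s) -
            y (x (s + a)) (ε + τ * (R - ε) * tn θ (s + a))) +
          (tn (θ / 2) s - tn (θ / 2) (s + a)) • η := by
        rw [hT]
        unfold Th
        rw [sub_smul]
        abel
      rw [e1]
      refine (norm_add_le _ _).trans ?_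
      have b1 := hB.lr (x (s + a)) _ (hhI s) _ (hhI (s + a))
      have b2 : ‖(tn (θ / 2) s - tn (θ / 2) (s + a)) • η‖ ≤
          R * ‖tn (θ / 2) (s + a) - tn (θ / 2) s‖ := by
        rw [norm_smul, mul_comm, norm_sub_rev]
        gcongr
      have b3 : |ε + τ * (R - ε) * tn θ s - (ε + τ * (R - ε) * tn θ (s + a))| ≤
          R * ‖tn θ (s + a) - tn θ s‖ := by
        have e2 : ε + τ * (R - ε) * tn θ s - (ε + τ * (R - ε) * tn θ (s + a)) =
          τ * (R - ε) * (tn θ s - tn θ (s + a)) := by ring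
        have hτR : 0 ≤ τ * (R - ε) := mul_nonneg hG.hτ (by linarith)
        rw [e2, abs_mul, abs_of_nonneg hτR, Real.norm_eq_abs, abs_sub_comm (tn θ s)]
        refine mul_le_mul_of_nonneg_right ?_ (abs_nonneg _)
        have := hG.hτ1
        have := hG.hε
        nlinarith
      have b4 : C * |ε + τ * (R - ε) * tn θ s - (ε + τ * (R - ε) * tn θ (s + a))| ≤
          C * (R * ‖tn θ (s + a) - tn θ s‖) := by gcongr
      linarith)
    have hc := N2_comb2 h1 (hpD t1) (hpD s1) (b := C * R) (c := R) (by positivity) hR.le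
    rw [N2_norm (fun s => tn θ (s + a) - tn θ s),
      N2_norm (fun s => tn (θ / 2) (s + a) - tn (θ / 2) s)] at hc
    have c1 := t6 a
    have c2 : N2 (fun s => tn (θ / 2) (s + a) - tn (θ / 2) s) ≤ 3 / 2 * (|a| / q) := by
      refine (s6 a).trans ?_
      have hq2 : 2 / 3 * q ≤ Real.sqrt (θ / 2) := by
        refine Real.le_sqrt_of_sq_le ?_
        rw [mul_pow, hqq]
        linarith
      calc |a| / Real.sqrt (θ / 2) ≤ |a| / (2 / 3 * q) := by gcongr
        _ = 3 / 2 * (|a| / q) := by field_simp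
    have c3 : C * R * N2 (fun s => tn θ (s + a) - tn θ s) ≤ C * R * (|a| / q) := by gcongr
    have c4 : R * N2 (fun s => tn (θ / 2) (s + a) - tn (θ / 2) s) ≤ R * (3 / 2 * (|a| / q)) := by
      gcongr
    have c5 : 3 * (C + 1) * R / q * |a| = 3 * (C * R * (|a| / q)) + 3 * (R * (|a| / q)) := by
      field_simp
    have c6 : 0 ≤ C * R * (|a| / q) := by positivity
    have c7 : 0 ≤ R * (|a| / q) := by positivity
    rw [c5]
    linarith
  -- components
  have hK0 : 0 ≤ 3 * (C + 1) * R / q := by positivity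
  have hcomp : ∀ j : Fin k,
      (∀ t t' : ℝ, |t - t'| ≤ 1 → |x t j - x0 j - (x t' j - x0 j)| ≤
        Real.sqrt (2 * Real.pi * |t - t'|) * (3 * (C + 1) * R / q)) ∧
      ∀ t, (x t j - x0 j) ^ 2 ≤ N2 (fun s => x s j - x0 j) ^ 2 +
        4 * Real.pi * N2 (fun s => x s j - x0 j) * (3 * (C + 1) * R / q) := by
    intro j
    have hgp : PC fun s => x s j - x0 j := by
      refine ⟨?_, fun s => by simp only [hxp s]⟩
      fun_prop
    refine h4 (fun s => x s j - x0 j) _ hgp hK0 fun a => ?_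
    refine le_trans ?_ (pb a)
    rw [← N2_norm (fun s => x s - x (s + a))]
    have hpx' : ∀ s, x (s + 2 * Real.pi + a) = x (s + a) := fun s => by
      rw [show s + 2 * Real.pi + a = s + a + 2 * Real.pi by ring, hxp]
    refine N2_le h1 ⟨?_, fun s => ?_⟩ ⟨?_, fun s => ?_⟩ fun s => ?_
    · fun_prop
    · show x (s + 2 * Real.pi + a) j - x0 j - (x (s + 2 * Real.pi) j - x0 j) = _
      rw [hpx', hxp]
    · fun_prop
    · show ‖x (s + 2 * Real.pi) - x (s + 2 * Real.pi + a)‖ = _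
      rw [hpx', hxp]
    · have e1 : x (s + a) j - x0 j - (x s j - x0 j) = (x (s + a) - x s) j := by
        rw [PiLp.sub_apply]; ring
      rw [e1, norm_sub_rev (x s), Real.norm_eq_abs]
      exact comp_le _ j
  have hNc : ∀ j : Fin k, N2 (fun s => x s j - x0 j) ≤ 3 * (C + 1) * R * q := by
    intro j
    refine le_trans ?_ pa
    rw [← N2_norm (fun s => x s - x0)]
    refine N2_le h1 ⟨?_, fun s => by simp only [hxp s]⟩ ⟨?_, fun s => by simp only [hxp s]⟩
      fun s => ?_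
    · fun_prop
    · fun_prop
    · have e1 : x s j - x0 j = (x s - x0) j := by rw [PiLp.sub_apply]
      rw [e1, Real.norm_eq_abs]
      exact comp_le _ j
  refine ⟨pa, fun t => ?_, fun t t' htt => ?_⟩
  · have hM : 0 ≤ 12 * (C + 1) * R := by positivity
    have hj : ∀ j, |(x t - x0) j| ≤ 12 * (C + 1) * R := by
      intro j
      have g1 := (hcomp j).2 t
      have g2 := hNc j
      have g3 := N2_nn (fun s => x s j - x0 j)
      set N := N2 (fun s => x s j - x0 j)
      have g4 : N ^ 2 ≤ (3 * (C + 1) * R) ^ 2 := by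
        refine pow_le_pow_left₀ g3 (g2.trans ?_) 2
        have : 0 ≤ 3 * (C + 1) * R := by positivity
        nlinarith
      have g5 : 4 * Real.pi * N * (3 * (C + 1) * R / q) ≤ 4 * 3.15 * (3 * (C + 1) * R) ^ 2 := by
        have hpi2 : Real.pi ≤ 3.15 := Real.pi_lt_d2.le
        calc 4 * Real.pi * N * (3 * (C + 1) * R / q)
            ≤ 4 * 3.15 * (3 * (C + 1) * R * q) * (3 * (C + 1) * R / q) := by gcongr
          _ = 4 * 3.15 * (3 * (C + 1) * R) ^ 2 := by field_simp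
      have g6 : (x t j - x0 j) ^ 2 ≤ (12 * (C + 1) * R) ^ 2 := by
        have : (12 * (C + 1) * R) ^ 2 = 16 * (3 * (C + 1) * R) ^ 2 := by ring
        rw [this]
        have : 0 ≤ (3 * (C + 1) * R) ^ 2 := by positivity
        linarith
      rw [PiLp.sub_apply]
      exact abs_le_of_sq_le_sq g6 hM
    have := norm_of_comp (x t - x0) hM hj
    calc ‖x t - x0‖ ≤ (k + 1) * (12 * (C + 1) * R) := this
      _ = 12 * (k + 1) * (C + 1) * R := by ring
  · have hM : 0 ≤ 9 * (C + 1) * R / q * Real.sqrt |t - t'| := by positivity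
    have hj : ∀ j, |(x t - x t') j| ≤ 9 * (C + 1) * R / q * Real.sqrt |t - t'| := by
      intro j
      have g1 := (hcomp j).1 t t' htt
      have e1 : (x t - x t') j = x t j - x0 j - (x t' j - x0 j) := by
        rw [PiLp.sub_apply]; ring
      rw [e1]
      refine g1.trans ?_
      rw [Real.sqrt_mul (by positivity)]
      have hs : Real.sqrt (2 * Real.pi) ≤ 3 := by
        refine Real.sqrt_le_iff.2 ⟨by norm_num, ?_⟩
        have hpi2 : Real.pi ≤ 3.15 := Real.pi_lt_d2.le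
        norm_num at hpi2 ⊢
        linarith
      calc Real.sqrt (2 * Real.pi) * Real.sqrt |t - t'| * (3 * (C + 1) * R / q)
          ≤ 3 * Real.sqrt |t - t'| * (3 * (C + 1) * R / q) := by gcongr
        _ = 9 * (C + 1) * R / q * Real.sqrt |t - t'| := by ring
    have := norm_of_comp (x t - x t') hM hj
    calc ‖x t - x t'‖ ≤ (k + 1) * (9 * (C + 1) * R / q * Real.sqrt |t - t'|) := this
      _ = 9 * (k + 1) * (C + 1) * R / q * Real.sqrt |t - t'| := by ring

end KV
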